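import Pool.Agent.Lib.MP_09cbbd_mp_h27.PsAff

/-!
# The canonical free energy of a superadditive gas in a background

Version of `StableGas.Th` without the normalisation `Z L 0 = 1`: limit, concavity, close packing
and the coexistence interval.
-/

set_option autoImplicit false

namespace Pool.Agent.Mix

open Filter Topology Set Pool.Agent.ConfinedGas Pool.Agent.StableGas
open Pool.Agent.StableGas.Th (rz ff floor_ratio floor_top)

/-- A superadditive system of partition functions with a finite maximal density. -/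
structure ThG (d : ℕ) (Z : ℕ → ℕ → ℝ) (U B : ℝ) : Prop where
  hd : 1 ≤ d
  sup : ∀ L1 k L : ℕ, ∀ l : List ℕ, 1 ≤ L1 → k * L1 ≤ L → l.length ≤ k ^ d →
      (l.map (Z L1)).prod ≤ Z L l.sum
  her : ∀ L N M : ℕ, M ≤ N → 0 < Z L N → 0 < Z L M
  zero : ∀ L, 1 ≤ L → 1 ≤ Z L 0
  nonneg : ∀ L N, 0 ≤ Z L N
  ub : ∀ L N : ℕ, 1 ≤ L → 0 < Z L N → Real.log (Z L N) ≤ U * (L : ℝ) ^ d
  fin : ∀ L N : ℕ, 1 ≤ L → 0 < Z L N → (N : ℝ) ≤ B * (L : ℝ) ^ d

namespace ThG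

variable {d : ℕ} {Z : ℕ → ℕ → ℝ} {U B : ℝ} (T : ThG d Z U B)

include T

theorem mono {L1 L : ℕ} (h1 : 1 ≤ L1) (h : L1 ≤ L) (N : ℕ) : Z L1 N ≤ Z L N := by
  have h2 := T.sup L1 1 L [N] h1 (by omega) (by simp)
  simpa using h2

/-- Densities of the possible particle numbers. -/
theorem bdd : BddAbove {r : ℝ | ∃ L N : ℕ, 1 ≤ L ∧ 0 < Z L N ∧ r = N / (L : ℝ) ^ d} := by
  refine ⟨B, ?_⟩
  rintro r ⟨L, N, hL, hZ, rfl⟩
  have hL' : (0 : ℝ) < L := by exact_mod_cast hL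
  rw [div_le_iff₀ (by positivity)]
  exact T.fin L N hL hZ

theorem le_rz {L N : ℕ} (hL : 1 ≤ L) (hZ : 0 < Z L N) : (N : ℝ) ≤ rz d Z * (L : ℝ) ^ d := by
  have hL' : (0 : ℝ) < L := by exact_mod_cast hL
  have h1 : (N : ℝ) / (L : ℝ) ^ d ≤ rz d Z := le_csSup T.bdd ⟨L, N, hL, hZ, rfl⟩
  rwa [div_le_iff₀ (by positivity)] at h1

theorem reach {ρ : ℝ} (h : ρ < rz d Z) :
    ∃ L2 N2 : ℕ, 1 ≤ L2 ∧ 0 < Z L2 N2 ∧ ρ * (L2 : ℝ) ^ d < N2 := by
  have hne : {r : ℝ | ∃ L N : ℕ, 1 ≤ L ∧ 0 < Z L N ∧ r = N / (L : ℝ) ^ d}.Nonempty :=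
    ⟨0, 1, 0, le_rfl, lt_of_lt_of_le one_pos (T.zero 1 le_rfl), by simp⟩
  obtain ⟨r, ⟨L, N, hL, hZ, rfl⟩, hlt⟩ := exists_lt_of_lt_csSup hne h
  have hL' : (0 : ℝ) < L := by exact_mod_cast hL
  rw [lt_div_iff₀ (by positivity)] at hlt
  exact ⟨L, N, hL, hZ, hlt⟩

theorem lim {ρ : ℝ} (hρ : 0 ≤ ρ) (h : ρ < rz d Z) :
    (∀ᶠ L : ℕ in atTop, 0 < Z L ⌊ρ * (L : ℝ) ^ d⌋₊) ∧
      Tendsto (fun L : ℕ => Real.log (Z L ⌊ρ * (L : ℝ) ^ d⌋₊) / (L : ℝ) ^ d) atTop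
        (𝓝 (ff d Z ρ)) := by
  obtain ⟨L2, N2, hL2, p2, s2⟩ := T.reach h
  obtain ⟨u, hu⟩ : ∃ u : ℕ → ℝ, u = fun L : ℕ =>
    Real.log (Z L ⌊ρ * (L : ℝ) ^ d⌋₊) / (L : ℝ) ^ d := ⟨_, rfl⟩
  unfold ff
  rw [← hu]
  have hL2' : (0 : ℝ) < L2 := by exact_mod_cast hL2
  have hN2 : (0 : ℝ) < N2 := lt_of_le_of_lt (by positivity) s2
  have hz := T.zero 1 le_rfl
  have hb2 : ∀ L N : ℕ, 1 ≤ L → Z L N ≤ Z (L + 1) N := fun L N hL => T.mono hL (by omega) N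
  -- lower bound
  have low := lower_line2 Z T.hd T.sup T.her ρ (Real.log (Z L2 N2) / N2) 0 1 0 L2 N2 le_rfl hL2
    (by linarith) p2 (by
      have := Real.log_nonneg hz
      simpa using this) (by
      rw [div_mul_cancel₀ _ hN2.ne']; simp) (by simp [hρ]) s2 1 one_pos
  have hpos : ∀ᶠ L : ℕ in atTop, 0 < Z L ⌊ρ * (L : ℝ) ^ d⌋₊ := by
    filter_upwards [low] with L hL
    exact hL.1
  have blow : ∀ᶠ L in atTop, (Real.log (Z L2 N2) / N2 * ρ + 0 - 1) ≤ u L := by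
    filter_upwards [low, eventually_ge_atTop 1] with L hL hL1
    have hL' : (0 : ℝ) < L := by exact_mod_cast hL1
    rw [hu]
    simp only
    rw [le_div_iff₀ (by positivity)]
    exact hL.2
  have bup : ∀ᶠ L in atTop, u L ≤ U := by
    filter_upwards [hpos, eventually_ge_atTop 1] with L hL hL1
    have hL' : (0 : ℝ) < L := by exact_mod_cast hL1
    rw [hu]
    simp only
    rw [div_le_iff₀ (by positivity)]
    exact T.ub L _ hL1 hL
  have cob1 : IsBoundedUnder (· ≤ ·) atTop u := ⟨_, eventually_map.2 bup⟩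
  have cob2 : IsBoundedUnder (· ≥ ·) atTop u := ⟨_, eventually_map.2 blow⟩
  refine ⟨hpos, ?_⟩
  rw [tendsto_order]
  constructor
  · intro c hc
    obtain ⟨a, ha1, ha2⟩ := exists_between hc
    obtain ⟨a', ha3, ha4⟩ := exists_between ha1
    have hfreq : ∃ᶠ L in atTop, a < u L :=
      frequently_lt_of_lt_limsup cob2.isCoboundedUnder_le ha2
    have hinf := tendsto_vol (d := d) T.hd
    have key := lower_point Z T.hd T.sup T.her ρ a' L2 N2 hL2 p2 s2 (by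
      intro δ hδ
      have e1 : ∀ᶠ L : ℕ in atTop, (ρ - δ) * (((L : ℝ) + 1) ^ d / (L : ℝ) ^ d) + 1 / (L : ℝ) ^ d
          < ρ := by
        have h1 := ((tendsto_succ d).const_mul (ρ - δ)).add (hinf.const_div_atTop 1)
        refine h1.eventually_lt_const ?_
        linarith
      have e2 : ∀ᶠ L : ℕ in atTop, a' * (((L : ℝ) + 1) ^ d / (L : ℝ) ^ d) < a := by
        have h1 := ((tendsto_succ d).const_mul a')
        refine h1.eventually_lt_const ?_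
        linarith
      obtain ⟨L, hL1, hL2, hL3, hL4, hL5⟩ :=
        (hfreq.and_eventually (e1.and (e2.and (hpos.and (eventually_ge_atTop 1))))).exists
      have hL' : (0 : ℝ) < L := by exact_mod_cast hL5
      have hLd : (0 : ℝ) < (L : ℝ) ^ d := by positivity
      refine ⟨L + 1, ⌊ρ * (L : ℝ) ^ d⌋₊, by omega, lt_of_lt_of_le hL4 (hb2 _ _ hL5), ?_, ?_, ?_⟩
      · refine (Nat.floor_le (by positivity)).trans ?_
        push_cast
        gcongr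
        linarith
      · have h1 := Nat.lt_floor_add_one (ρ * (L : ℝ) ^ d)
        push_cast
        have h2 : ((ρ - δ) * (((L : ℝ) + 1) ^ d / (L : ℝ) ^ d) + 1 / (L : ℝ) ^ d) * (L : ℝ) ^ d <
            ρ * (L : ℝ) ^ d := by gcongr
        have h3 : ((ρ - δ) * (((L : ℝ) + 1) ^ d / (L : ℝ) ^ d) + 1 / (L : ℝ) ^ d) * (L : ℝ) ^ d =
            (ρ - δ) * ((L : ℝ) + 1) ^ d + 1 := by field_simp
        rw [h3] at h2
        linarith
      · rw [hu] at hL1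
        simp only at hL1
        rw [lt_div_iff₀ hLd] at hL1
        have h2 : (a' * (((L : ℝ) + 1) ^ d / (L : ℝ) ^ d)) * (L : ℝ) ^ d < a * (L : ℝ) ^ d := by
          gcongr
        have h3 : (a' * (((L : ℝ) + 1) ^ d / (L : ℝ) ^ d)) * (L : ℝ) ^ d =
            a' * ((L : ℝ) + 1) ^ d := by field_simp
        rw [h3] at h2
        push_cast
        have h4 := Real.log_le_log hL4 (hb2 L ⌊ρ * (L : ℝ) ^ d⌋₊ hL5)
        linarith) ((a' - c) / 2) (by linarith)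
    filter_upwards [key, eventually_ge_atTop 1] with L hL hL1
    have hL' : (0 : ℝ) < L := by exact_mod_cast hL1
    rw [hu]
    simp only
    rw [lt_div_iff₀ (by positivity)]
    have h2 : c * (L : ℝ) ^ d < (a' - (a' - c) / 2) * (L : ℝ) ^ d := by
      gcongr
      linarith
    linarith [hL.2]
  · intro c hc
    exact eventually_lt_of_limsup_lt hc cob1

/-- Every finite system is below the limit. -/
theorem point_le {L N : ℕ} (hL : 1 ≤ L) (hZ : 0 < Z L N) (h : (N : ℝ) / (L : ℝ) ^ d < rz d Z) :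
    Real.log (Z L N) ≤ ff d Z (N / (L : ℝ) ^ d) * (L : ℝ) ^ d := by
  have hL' : (0 : ℝ) < L := by exact_mod_cast hL
  have hLd : (0 : ℝ) < (L : ℝ) ^ d := by positivity
  obtain ⟨-, h2⟩ := T.lim (ρ := (N : ℝ) / (L : ℝ) ^ d) (by positivity) h
  have hk : Tendsto (fun k : ℕ => k * L) atTop atTop :=
    tendsto_id.atTop_mul_const' (by omega)
  have h3 := h2.comp hk
  rw [← div_le_iff₀ hLd]
  refine ge_of_tendsto h3 ?_
  filter_upwards [eventually_ge_atTop 1] with k hk1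
  have hk' : (0 : ℝ) < k := by exact_mod_cast hk1
  simp only [Function.comp]
  have e1 : (N : ℝ) / (L : ℝ) ^ d * ((k * L : ℕ) : ℝ) ^ d = ((k ^ d * N : ℕ) : ℝ) := by
    push_cast
    rw [mul_pow]
    field_simp
  rw [e1, Nat.floor_natCast]
  have h4 := T.sup L k (k * L) (List.replicate (k ^ d) N) hL le_rfl
    (by rw [List.length_replicate])
  rw [List.map_replicate, List.prod_replicate, List.sum_replicate, smul_eq_mul] at h4
  have h5 := Real.log_le_log (by positivity) h4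
  rw [Real.log_pow] at h5
  rw [div_le_div_iff₀ hLd (by positivity)]
  push_cast at h5 ⊢
  rw [mul_pow]
  calc Real.log (Z L N) * ((k : ℝ) ^ d * (L : ℝ) ^ d) =
        (k : ℝ) ^ d * Real.log (Z L N) * (L : ℝ) ^ d := by ring
    _ ≤ Real.log (Z (k * L) (k ^ d * N)) * (L : ℝ) ^ d := by gcongr

theorem point_ge {ρ : ℝ} (h0 : 0 ≤ ρ) (h : ρ < rz d Z) {ε : ℝ} (hε : 0 < ε) :
    ∀ᶠ L : ℕ in atTop, 0 < Z L ⌊ρ * (L : ℝ) ^ d⌋₊ ∧
      (ff d Z ρ - ε) * (L : ℝ) ^ d ≤ Real.log (Z L ⌊ρ * (L : ℝ) ^ d⌋₊) := by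
  obtain ⟨h1, h2⟩ := T.lim h0 h
  filter_upwards [h1, h2.eventually_const_lt (show ff d Z ρ - ε < ff d Z ρ by linarith),
    eventually_ge_atTop 1] with L hL1 hL2 hL3
  have hL' : (0 : ℝ) < L := by exact_mod_cast hL3
  refine ⟨hL1, ?_⟩
  rw [lt_div_iff₀ (by positivity)] at hL2
  exact hL2.le

theorem concave_ineq {x y ρ : ℝ} (hx : 0 ≤ x) (hxρ : x < ρ) (hρy : ρ < y) (hy : y < rz d Z) :
    ff d Z x + (ff d Z y - ff d Z x) / (y - x) * (ρ - x) ≤ ff d Z ρ := by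
  obtain ⟨α, hα⟩ : ∃ α : ℝ, α = (ff d Z y - ff d Z x) / (y - x) := ⟨_, rfl⟩
  rw [← hα]
  have hyx : 0 < y - x := by linarith
  have hαy : α * (y - x) = ff d Z y - ff d Z x := by rw [hα]; field_simp
  refine le_of_forall_pos_sub_le fun ε hε => ?_
  have hinf := tendsto_vol (d := d) T.hd
  have e1 := T.point_ge hx (by linarith) (ε := ε / 4) (by positivity)
  have e2 := T.point_ge (by linarith) hy (ε := ε / 4) (by positivity)
  have e3 : ∀ᶠ L : ℕ in atTop, |α| / (ε / 4) < (L : ℝ) ^ d := hinf.eventually_gt_atTop _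
  have e4 : ∀ᶠ L : ℕ in atTop, 1 / (y - ρ) < (L : ℝ) ^ d := hinf.eventually_gt_atTop _
  obtain ⟨L, ⟨hL1, hL2⟩, ⟨hL3, hL4⟩, hL5, hL6, hL7⟩ :=
    (e1.and (e2.and (e3.and (e4.and (eventually_ge_atTop 1))))).exists
  have hL' : (0 : ℝ) < L := by exact_mod_cast hL7
  have hLd : (0 : ℝ) < (L : ℝ) ^ d := by positivity
  obtain ⟨N1, hN1⟩ : ∃ N1, N1 = ⌊x * (L : ℝ) ^ d⌋₊ := ⟨_, rfl⟩
  obtain ⟨N2, hN2⟩ : ∃ N2, N2 = ⌊y * (L : ℝ) ^ d⌋₊ := ⟨_, rfl⟩
  rw [← hN1] at hL1 hL2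
  rw [← hN2] at hL3 hL4
  have a1 : (N1 : ℝ) ≤ x * (L : ℝ) ^ d := by rw [hN1]; exact Nat.floor_le (by positivity)
  have a2 : x * (L : ℝ) ^ d < N1 + 1 := by rw [hN1]; exact Nat.lt_floor_add_one _
  have a3 : (N2 : ℝ) ≤ y * (L : ℝ) ^ d := by
    rw [hN2]; exact Nat.floor_le (mul_nonneg (by linarith) hLd.le)
  have a4 : y * (L : ℝ) ^ d < N2 + 1 := by rw [hN2]; exact Nat.lt_floor_add_one _
  have hα4 : |α| ≤ ε / 4 * (L : ℝ) ^ d := by
    rw [div_lt_iff₀ (by positivity)] at hL5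
    linarith
  have aux : ∀ (N : ℕ) (t : ℝ), (N : ℝ) ≤ t → t < N + 1 → α * N ≤ α * t + |α| := by
    intro N t h1 h2
    have h3 : |α * ((N : ℝ) - t)| ≤ |α| := by
      rw [abs_mul]
      have : |(N : ℝ) - t| ≤ 1 := by rw [abs_le]; constructor <;> linarith
      calc |α| * |(N : ℝ) - t| ≤ |α| * 1 := by gcongr
        _ = |α| := mul_one _
    have h4 := le_abs_self (α * ((N : ℝ) - t))
    have h5 : α * ((N : ℝ) - t) = α * N - α * t := by ring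
    linarith
  have b1 := aux N1 _ a1 a2
  have b2 := aux N2 _ a3 a4
  have key := lower_line Z T.hd T.sup T.her ρ α (ff d Z x - α * x - ε / 2) L N1 N2 hL7 hL1 hL3
    (by
      have : α * (x * (L : ℝ) ^ d) + (ff d Z x - α * x - ε / 2) * (L : ℝ) ^ d =
          (ff d Z x - ε / 4) * (L : ℝ) ^ d - ε / 4 * (L : ℝ) ^ d := by ring
      linarith)
    (by
      have : α * (y * (L : ℝ) ^ d) + (ff d Z x - α * x - ε / 2) * (L : ℝ) ^ d =
          (α * (y - x) + ff d Z x - ε / 4) * (L : ℝ) ^ d - ε / 4 * (L : ℝ) ^ d := by ring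
      rw [hαy] at this
      have e5 : (ff d Z y - ff d Z x + ff d Z x - ε / 4) = ff d Z y - ε / 4 := by ring
      rw [e5] at this
      linarith)
    (by
      have : x * (L : ℝ) ^ d ≤ ρ * (L : ℝ) ^ d := by gcongr
      linarith)
    (by
      have h1 : 1 < (y - ρ) * (L : ℝ) ^ d := by
        rw [div_lt_iff₀ (by linarith)] at hL6
        linarith
      linarith) (ε / 2) (by positivity)
  obtain ⟨-, h2⟩ := T.lim (ρ := ρ) (by linarith) (by linarith)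
  refine ge_of_tendsto h2 ?_
  filter_upwards [key, eventually_ge_atTop 1] with L hL hL1
  have hL' : (0 : ℝ) < L := by exact_mod_cast hL1
  rw [le_div_iff₀ (by positivity)]
  refine le_trans (le_of_eq ?_) hL.2
  ring

theorem concave : ConcaveOn ℝ (Ico 0 (rz d Z)) (ff d Z) := by
  refine LinearOrder.concaveOn_of_lt (convex_Ico 0 _) ?_
  intro x hx y hy hxy a b ha hb hab
  simp only [smul_eq_mul]
  have hyx : 0 < y - x := by linarith
  have e : a * x + b * y = x + b * (y - x) := by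
    have : a = 1 - b := by linarith
    rw [this]; ring
  have h1 : 0 < b * (y - x) := by positivity
  have h2 : b * (y - x) < y - x := by
    have : b < 1 := by linarith
    calc b * (y - x) < 1 * (y - x) := by gcongr
      _ = y - x := one_mul _
  have h := T.concave_ineq (ρ := a * x + b * y) hx.1 (by rw [e]; linarith) (by rw [e]; linarith)
    hy.2
  refine le_trans (le_of_eq ?_) h
  rw [e]
  have ha' : a = 1 - b := by linarith
  rw [ha']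
  field_simp
  ring

theorem cont : ContinuousOn (ff d Z) (Ioo 0 (rz d Z)) :=
  (T.concave.subset Ioo_subset_Ico_self (convex_Ioo _ _)).continuousOn isOpen_Ioo

/-- Lower bound on a window of particle numbers. -/
theorem unif_line (α β x y : ℝ) (L0 N1 N2 : ℕ) (hL0 : 1 ≤ L0) (p1 : 0 < Z L0 N1)
    (p2 : 0 < Z L0 N2)
    (e1 : α * N1 + β * (L0 : ℝ) ^ d ≤ Real.log (Z L0 N1))
    (e2 : α * N2 + β * (L0 : ℝ) ^ d ≤ Real.log (Z L0 N2)) (hx : 0 ≤ x) (hxy : x ≤ y)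
    (s1 : (N1 : ℝ) ≤ x * (L0 : ℝ) ^ d) (s2 : y * (L0 : ℝ) ^ d < N2) (ε : ℝ) (hε : 0 < ε) :
    ∀ᶠ L : ℕ in atTop, ∀ N : ℕ, x * (L : ℝ) ^ d ≤ N → (N : ℝ) ≤ y * (L : ℝ) ^ d →
      0 < Z L N ∧ α * N + (β - ε) * (L : ℝ) ^ d ≤ Real.log (Z L N) := by
  have hL0' : (0 : ℝ) < L0 := by exact_mod_cast hL0
  have hP : (0 : ℝ) < (L0 : ℝ) ^ d := by positivity
  have hN12 : N1 < N2 := by
    have h1 : x * (L0 : ℝ) ^ d ≤ y * (L0 : ℝ) ^ d := by gcongr
    have : (N1 : ℝ) < N2 := by linarith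
    exact_mod_cast this
  obtain ⟨c0, hc0, hc⟩ : ∃ c0 : ℝ, 0 ≤ c0 ∧ ∀ r < N2, -c0 ≤ Real.log (Z L0 r) := by
    refine ⟨∑ r ∈ Finset.range N2, |Real.log (Z L0 r)|,
      Finset.sum_nonneg fun _ _ => abs_nonneg _, fun r hr => ?_⟩
    have h1 := Finset.single_le_sum (f := fun r => |Real.log (Z L0 r)|)
      (fun _ _ => abs_nonneg _) (Finset.mem_range.2 hr)
    have h2 := neg_abs_le (Real.log (Z L0 r))
    linarith
  have hT := tendsto_cells (d := d) T.hd L0 hL0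
  have hinf := tendsto_vol (d := d) T.hd
  have hE : Tendsto (fun L : ℕ => (|α| * N2 + c0) / (L : ℝ) ^ d +
      |β| * |1 - ((((L / L0 : ℕ) : ℝ) ^ d - 1) * (L0 : ℝ) ^ d) / (L : ℝ) ^ d|) atTop (𝓝 0) := by
    have h1 := (hinf.const_div_atTop (|α| * N2 + c0))
    have h2 := ((hT.const_sub 1).abs).const_mul |β|
    have h3 := h1.add h2
    simpa using h3
  have hN2pos : (0 : ℝ) < N2 := by
    have h1 : 0 ≤ y * (L0 : ℝ) ^ d := mul_nonneg (by linarith) hP.le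
    linarith
  have hB : ∀ᶠ L : ℕ in atTop, y * (L0 : ℝ) ^ d / N2 <
      ((((L / L0 : ℕ) : ℝ) ^ d - 1) * (L0 : ℝ) ^ d) / (L : ℝ) ^ d := by
    refine hT.eventually_const_lt ?_
    rw [div_lt_one hN2pos]
    exact s2
  filter_upwards [hB, hE.eventually_lt_const hε, eventually_ge_atTop L0] with L hB1 hE1 hL N hNx hNy
  have hLpos : (0 : ℝ) < L := by
    have : 0 < L := by omega
    exact_mod_cast this
  have hLd : (0 : ℝ) < (L : ℝ) ^ d := by positivity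
  obtain ⟨k, hk⟩ : ∃ k, k = L / L0 := ⟨_, rfl⟩
  have hk1 : 1 ≤ k := by
    rw [hk]; exact (Nat.one_le_div_iff (by omega)).2 hL
  have hkL : k * L0 ≤ L := by rw [hk]; exact Nat.div_mul_le_self L L0
  rw [← hk] at hB1 hE1
  obtain ⟨K, hK⟩ : ∃ K, K = k ^ d := ⟨_, rfl⟩
  have hK1 : 1 ≤ K := by rw [hK]; exact Nat.one_le_pow _ _ hk1
  obtain ⟨M, hM⟩ : ∃ M, K = M + 1 := ⟨K - 1, by omega⟩
  have hKr : ((k : ℝ) ^ d - 1) = M := by
    have : ((K : ℕ) : ℝ) = (k : ℝ) ^ d := by rw [hK]; push_cast; rfl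
    rw [← this, hM]; push_cast; ring
  rw [hKr] at hB1 hE1
  have u1 : y * (L : ℝ) ^ d ≤ M * N2 := by
    rw [div_lt_div_iff₀ hN2pos hLd] at hB1
    have h3 : y * (L : ℝ) ^ d * (L0 : ℝ) ^ d ≤ M * N2 * (L0 : ℝ) ^ d := by
      have e4 : y * (L : ℝ) ^ d * (L0 : ℝ) ^ d = y * (L0 : ℝ) ^ d * (L : ℝ) ^ d := by ring
      have e5 : (M : ℝ) * N2 * (L0 : ℝ) ^ d = M * (L0 : ℝ) ^ d * N2 := by ring
      rw [e4, e5]
      exact hB1.le
    exact le_of_mul_le_mul_right h3 hP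
  have hMle : (M : ℝ) * (L0 : ℝ) ^ d ≤ (L : ℝ) ^ d := by
    have h1 : ((k : ℝ) * L0) ^ d ≤ (L : ℝ) ^ d := by
      have : (k : ℝ) * L0 ≤ L := by exact_mod_cast hkL
      gcongr
    rw [mul_pow] at h1
    have h2 : (M : ℝ) ≤ (k : ℝ) ^ d := by rw [← hKr]; linarith
    have h3 : (M : ℝ) * (L0 : ℝ) ^ d ≤ (k : ℝ) ^ d * (L0 : ℝ) ^ d := by gcongr
    linarith
  have u2 : (M : ℝ) * N1 ≤ x * (L : ℝ) ^ d := by
    have h1 : (M : ℝ) * N1 ≤ M * (x * (L0 : ℝ) ^ d) := by gcongr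
    have h2 : (M : ℝ) * (x * (L0 : ℝ) ^ d) = x * (M * (L0 : ℝ) ^ d) := by ring
    have h3 : x * (M * (L0 : ℝ) ^ d) ≤ x * (L : ℝ) ^ d := by gcongr
    linarith
  have v1 : (K - 1) * N1 ≤ N := by
    rw [hM, Nat.add_sub_cancel]
    have : ((M * N1 : ℕ) : ℝ) ≤ N := by push_cast; linarith
    exact_mod_cast this
  have v2 : N ≤ (K - 1) * N2 := by
    rw [hM, Nat.add_sub_cancel]
    have : (N : ℝ) ≤ ((M * N2 : ℕ) : ℝ) := by push_cast; linarith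
    exact_mod_cast this
  obtain ⟨j, j', r, f1, f2, f3⟩ := split_count K N N1 N2 hN12 hK1 v1 v2
  have pr : 0 < Z L0 r := T.her L0 N2 r (by omega) p2
  have key := T.sup L0 k L (List.replicate j N1 ++ (List.replicate j' N2 ++ [r])) hL0 hkL (by
    simp only [List.length_append, List.length_replicate, List.length_cons, List.length_nil]
    rw [← hK]
    omega)
  simp only [List.map_append, List.map_replicate, List.map_cons, List.map_nil, List.prod_append,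
    List.prod_replicate, List.prod_cons, List.prod_nil, mul_one, List.sum_append,
    List.sum_replicate, List.sum_cons, List.sum_nil, add_zero, smul_eq_mul] at key
  have e3 : j * N1 + (j' * N2 + r) = N := by omega
  rw [e3] at key
  have hpos : 0 < Z L0 N1 ^ j * (Z L0 N2 ^ j' * Z L0 r) := by positivity
  refine ⟨lt_of_lt_of_le hpos key, ?_⟩
  have hlog := Real.log_le_log hpos key
  rw [Real.log_mul (by positivity) (by positivity), Real.log_mul (by positivity) pr.ne',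
    Real.log_pow, Real.log_pow] at hlog
  have g1 : (j : ℝ) * (α * N1 + β * (L0 : ℝ) ^ d) ≤ j * Real.log (Z L0 N1) := by gcongr
  have g2 : (j' : ℝ) * (α * N2 + β * (L0 : ℝ) ^ d) ≤ j' * Real.log (Z L0 N2) := by gcongr
  have g3 := hc r f3
  have f2' : (j : ℝ) * N1 + j' * N2 + r = N := by exact_mod_cast f2
  have f1' : (j : ℝ) + j' = M := by
    have : j + j' = M := by omega
    exact_mod_cast this
  have g4 : α * (N - r) + β * (M * (L0 : ℝ) ^ d) - c0 ≤ Real.log (Z L N) := by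
    have : α * (N - r) + β * (M * (L0 : ℝ) ^ d) =
        (j : ℝ) * (α * N1 + β * (L0 : ℝ) ^ d) + (j' : ℝ) * (α * N2 + β * (L0 : ℝ) ^ d) := by
      rw [← f2', ← f1']; ring
    linarith
  refine le_trans ?_ g4
  have a1 : α * N - |α| * N2 ≤ α * (N - r) := by
    have h1 : |α * (r : ℝ)| ≤ |α| * N2 := by
      rw [abs_mul]
      have h3 : (r : ℝ) ≤ N2 := by exact_mod_cast f3.le
      have h4 : |(r : ℝ)| = r := abs_of_nonneg (by positivity)
      rw [h4]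
      gcongr
    have h2 := le_abs_self (α * (r : ℝ))
    have h3 : α * (N - r) = α * N - α * r := by ring
    linarith
  have a2 : β * (L : ℝ) ^ d - |β| * |(L : ℝ) ^ d - M * (L0 : ℝ) ^ d| ≤ β * (M * (L0 : ℝ) ^ d) := by
    have h2 := le_abs_self (β * ((L : ℝ) ^ d - M * (L0 : ℝ) ^ d))
    rw [abs_mul] at h2
    have h3 : β * ((L : ℝ) ^ d - M * (L0 : ℝ) ^ d) = β * (L : ℝ) ^ d - β * (M * (L0 : ℝ) ^ d) := by
      ring
    linarith
  have a3 : (|α| * N2 + c0) + |β| * |(L : ℝ) ^ d - M * (L0 : ℝ) ^ d| ≤ ε * (L : ℝ) ^ d := by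
    have h1 : |(L : ℝ) ^ d - M * (L0 : ℝ) ^ d| =
        |1 - M * (L0 : ℝ) ^ d / (L : ℝ) ^ d| * (L : ℝ) ^ d := by
      conv_rhs => rw [← abs_of_pos hLd]
      rw [← abs_mul, abs_of_pos hLd]
      congr 1
      field_simp
    have h2 : (|α| * N2 + c0) = (|α| * N2 + c0) / (L : ℝ) ^ d * (L : ℝ) ^ d := by
      field_simp
    rw [h1, h2, ← mul_assoc, ← add_mul]
    exact mul_le_mul_of_nonneg_right hE1.le hLd.le
  have : α * N + (β - ε) * (L : ℝ) ^ d =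
      α * N + β * (L : ℝ) ^ d - ε * (L : ℝ) ^ d := by ring
  rw [this]
  linarith

/-- Lower bound near a density. -/
theorem window {ρ : ℝ} (h0 : 0 < ρ) (h : ρ < rz d Z) {ε : ℝ} (hε : 0 < ε) :
    ∃ x y : ℝ, x < ρ ∧ ρ < y ∧ ∀ᶠ L : ℕ in atTop, ∀ N : ℕ, x * (L : ℝ) ^ d ≤ N →
      (N : ℝ) ≤ y * (L : ℝ) ^ d → 0 < Z L N ∧ (ff d Z ρ - ε) * (L : ℝ) ^ d ≤ Real.log (Z L N) := by
  have hc : ContinuousAt (ff d Z) ρ := T.cont.continuousAt (Ioo_mem_nhds h0 h)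
  have h1 : ∀ᶠ t in 𝓝 ρ, ff d Z ρ - ε / 4 < ff d Z t ∧ t ∈ Ioo 0 (rz d Z) :=
    (hc.eventually_const_lt (by linarith)).and (Ioo_mem_nhds h0 h)
  obtain ⟨δ, hδ, hδ'⟩ := Metric.eventually_nhds_iff.1 h1
  obtain ⟨x, hx⟩ : ∃ x, x = ρ - δ / 2 := ⟨_, rfl⟩
  obtain ⟨y, hy⟩ : ∃ y, y = ρ + δ / 2 := ⟨_, rfl⟩
  obtain ⟨hx1, hx2⟩ := hδ' (y := x) (by
    rw [hx, Real.dist_eq, show ρ - δ / 2 - ρ = -(δ / 2) by ring, abs_neg,
      abs_of_pos (by positivity)]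
    linarith)
  obtain ⟨hy1, hy2⟩ := hδ' (y := y) (by
    rw [hy, Real.dist_eq, show ρ + δ / 2 - ρ = δ / 2 by ring, abs_of_pos (by positivity)]
    linarith)
  have hinf := tendsto_vol (d := d) T.hd
  have e1 := T.point_ge hx2.1.le hx2.2 (ε := ε / 4) (by positivity)
  have e2 := T.point_ge hy2.1.le hy2.2 (ε := ε / 4) (by positivity)
  have e4 : ∀ᶠ L : ℕ in atTop, 1 / (δ / 4) < (L : ℝ) ^ d := hinf.eventually_gt_atTop _
  obtain ⟨L, ⟨hL1, hL2⟩, ⟨hL3, hL4⟩, hL6, hL7⟩ :=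
    (e1.and (e2.and (e4.and (eventually_ge_atTop 1)))).exists
  have hL' : (0 : ℝ) < L := by exact_mod_cast hL7
  have hLd : (0 : ℝ) < (L : ℝ) ^ d := by positivity
  refine ⟨x, ρ + δ / 4, by linarith, by linarith, ?_⟩
  have key := T.unif_line 0 (ff d Z ρ - ε / 2) x (ρ + δ / 4) L _ _ hL7 hL1 hL3
    (by
      have : (ff d Z ρ - ε / 2) * (L : ℝ) ^ d ≤ (ff d Z x - ε / 4) * (L : ℝ) ^ d := by
        refine mul_le_mul_of_nonneg_right ?_ hLd.le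
        linarith
      linarith)
    (by
      have : (ff d Z ρ - ε / 2) * (L : ℝ) ^ d ≤ (ff d Z y - ε / 4) * (L : ℝ) ^ d := by
        refine mul_le_mul_of_nonneg_right ?_ hLd.le
        linarith
      linarith) hx2.1.le (by linarith)
    (Nat.floor_le (mul_nonneg hx2.1.le hLd.le))
    (by
      have h3 := Nat.lt_floor_add_one (y * (L : ℝ) ^ d)
      have h4 : 1 < δ / 4 * (L : ℝ) ^ d := by
        rw [div_lt_iff₀ (by positivity)] at hL6
        linarith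
      have h5 : y * (L : ℝ) ^ d = (ρ + δ / 4) * (L : ℝ) ^ d + δ / 4 * (L : ℝ) ^ d := by
        rw [hy]; ring
      linarith) (ε / 2) (by positivity)
  filter_upwards [key] with L hL N h1 h2
  obtain ⟨h3, h4⟩ := hL N h1 h2
  refine ⟨h3, le_trans (le_of_eq ?_) h4⟩
  ring

/-- The limit along arbitrary cubes and particle numbers. -/
theorem seq {Zr : ℝ → ℕ → ℝ} (hr1 : ∀ t : ℝ, 0 ≤ t → ∀ N, Z (⌊t⌋₊ + 1) N ≤ Zr t N)
    (hr2 : ∀ t : ℝ, 0 ≤ t → ∀ N, Zr t N ≤ Z (⌊t⌋₊ + 2) N)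
    {u : ℕ → ℝ} {N : ℕ → ℕ} {ρ : ℝ} (hu : Tendsto u atTop atTop)
    (hN : Tendsto (fun j => (N j : ℝ) / u j ^ d) atTop (𝓝 ρ)) (h0 : 0 < ρ) (h : ρ < rz d Z) :
    (∀ᶠ j in atTop, 0 < Zr (u j) (N j)) ∧
      Tendsto (fun j => Real.log (Zr (u j) (N j)) / u j ^ d) atTop (𝓝 (ff d Z ρ)) := by
  have hR1 := floor_ratio (d := d) 1 hu
  have hR2 := floor_ratio (d := d) 2 hu
  have low : ∀ ε : ℝ, 0 < ε → ∀ᶠ j in atTop, 0 < Zr (u j) (N j) ∧
      (ff d Z ρ - ε) * (((⌊u j⌋₊ + 1 : ℕ) : ℝ) ^ d / u j ^ d) ≤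
        Real.log (Zr (u j) (N j)) / u j ^ d := by
    intro ε hε
    obtain ⟨x, y, hx, hy, hw⟩ := T.window h0 h hε
    have e1 : ∀ᶠ j in atTop, x * (((⌊u j⌋₊ + 1 : ℕ) : ℝ) ^ d / u j ^ d) < (N j : ℝ) / u j ^ d := by
      refine (hR1.const_mul x).eventually_lt hN ?_
      rwa [mul_one]
    have e2 : ∀ᶠ j in atTop, (N j : ℝ) / u j ^ d < y * (((⌊u j⌋₊ + 1 : ℕ) : ℝ) ^ d / u j ^ d) := by
      refine hN.eventually_lt (hR1.const_mul y) ?_
      rwa [mul_one]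
    filter_upwards [e1, e2, (floor_top 1 hu).eventually hw, hu.eventually_ge_atTop 1] with j h1 h2
      h3 h4
    have hud : 0 < u j ^ d := by
      have : 0 < u j := by linarith
      positivity
    obtain ⟨h5, h6⟩ := h3 (N j) (by
      rw [← mul_div_assoc, div_lt_div_iff_of_pos_right hud] at h1
      exact h1.le) (by
      rw [← mul_div_assoc, div_lt_div_iff_of_pos_right hud] at h2
      exact h2.le)
    have h7 := hr1 (u j) (by linarith) (N j)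
    refine ⟨lt_of_lt_of_le h5 h7, ?_⟩
    rw [← mul_div_assoc]
    exact div_le_div_of_nonneg_right (h6.trans (Real.log_le_log h5 h7)) hud.le
  have hpos : ∀ᶠ j in atTop, 0 < Zr (u j) (N j) := (low 1 one_pos).mono fun j hj => hj.1
  refine ⟨hpos, ?_⟩
  rw [tendsto_order]
  constructor
  · intro c hc
    obtain ⟨ε, hε⟩ : ∃ ε, ε = (ff d Z ρ - c) / 2 := ⟨_, rfl⟩
    have hε0 : 0 < ε := by rw [hε]; linarith
    have h1 : ∀ᶠ j in atTop, c < (ff d Z ρ - ε) * (((⌊u j⌋₊ + 1 : ℕ) : ℝ) ^ d / u j ^ d) := by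
      refine (hR1.const_mul (ff d Z ρ - ε)).eventually_const_lt ?_
      rw [mul_one, hε]
      linarith
    filter_upwards [h1, low ε hε0] with j h2 h3
    exact lt_of_lt_of_le h2 h3.2
  · intro c hc
    have hND : Tendsto (fun j => (N j : ℝ) / ((⌊u j⌋₊ + 2 : ℕ) : ℝ) ^ d) atTop (𝓝 ρ) := by
      have h1 := hN.div hR2 one_ne_zero
      rw [div_one] at h1
      refine h1.congr' ?_
      filter_upwards [hu.eventually_ge_atTop 1] with j hj
      have hud : u j ^ d ≠ 0 := by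
        have : 0 < u j := by linarith
        positivity
      have hfd : (((⌊u j⌋₊ + 2 : ℕ) : ℝ)) ^ d ≠ 0 := by positivity
      simp only [Pi.div_apply]
      field_simp
    have hc' : ContinuousAt (ff d Z) ρ := T.cont.continuousAt (Ioo_mem_nhds h0 h)
    have h2 : Tendsto (fun j => ff d Z ((N j : ℝ) / ((⌊u j⌋₊ + 2 : ℕ) : ℝ) ^ d) *
        (((⌊u j⌋₊ + 2 : ℕ) : ℝ) ^ d / u j ^ d)) atTop (𝓝 (ff d Z ρ * 1)) :=
      (hc'.tendsto.comp hND).mul hR2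
    rw [mul_one] at h2
    filter_upwards [h2.eventually_lt_const hc, hpos, hND.eventually_lt_const h,
      hu.eventually_ge_atTop 1] with j h3 h4 h5 h6
    have hud : 0 < u j ^ d := by
      have : 0 < u j := by linarith
      positivity
    have h7 := hr2 (u j) (by linarith) (N j)
    have h8 : 0 < Z (⌊u j⌋₊ + 2) (N j) := lt_of_lt_of_le h4 h7
    have h9 := T.point_le (by omega) h8 h5
    refine lt_of_le_of_lt ?_ h3
    rw [← mul_div_assoc]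
    exact div_le_div_of_nonneg_right ((Real.log_le_log h4 h7).trans h9) hud.le

/-- No configurations above close packing. -/
theorem seq_zero {Zr : ℝ → ℕ → ℝ} (hr0 : ∀ t N, 0 ≤ Zr t N)
    (hr2 : ∀ t : ℝ, 0 ≤ t → ∀ N, Zr t N ≤ Z (⌊t⌋₊ + 2) N)
    {u : ℕ → ℝ} {N : ℕ → ℕ} {ρ : ℝ} (hu : Tendsto u atTop atTop)
    (hN : Tendsto (fun j => (N j : ℝ) / u j ^ d) atTop (𝓝 ρ)) (h : rz d Z < ρ) :
    ∀ᶠ j in atTop, Zr (u j) (N j) = 0 := by
  have hR2 := floor_ratio (d := d) 2 hu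
  have e1 : ∀ᶠ j in atTop, rz d Z * (((⌊u j⌋₊ + 2 : ℕ) : ℝ) ^ d / u j ^ d) < (N j : ℝ) / u j ^ d := by
    refine (hR2.const_mul (rz d Z)).eventually_lt hN ?_
    rwa [mul_one]
  filter_upwards [e1, hu.eventually_ge_atTop 1] with j h1 h4
  have hud : 0 < u j ^ d := by
    have : 0 < u j := by linarith
    positivity
  by_contra hcon
  have h5 : 0 < Zr (u j) (N j) := lt_of_le_of_ne (hr0 _ _) (Ne.symm hcon)
  have h6 := T.le_rz (L := ⌊u j⌋₊ + 2) (by omega) (lt_of_lt_of_le h5 (hr2 _ (by linarith) _))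
  rw [← mul_div_assoc, div_lt_div_iff_of_pos_right hud] at h1
  linarith

/-- The free energy is steep near close packing. -/
theorem slope {v : ℝ} (hv : 0 < v) (hins : ∀ L N K : ℕ, 1 ≤ L → (∀ n, 0 < Z L n → n ≤ K) → N ≤ K →
      ((N : ℝ) + 1) * Z L (N + 1) ≤ v * ((K : ℝ) - N) * Z L N)
    {ρ ρ' : ℝ} (h0 : 0 < ρ) (h1 : ρ < ρ') (h2 : ρ' < rz d Z) :
    ff d Z ρ' - ff d Z ρ ≤ (ρ' - ρ) * Real.log (v * (rz d Z - ρ) / ρ) := by
  obtain ⟨p1, l1⟩ := T.lim h0.le (by linarith : ρ < rz d Z)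
  obtain ⟨p2, l2⟩ := T.lim (by linarith : (0 : ℝ) ≤ ρ') h2
  have hinf := tendsto_vol (d := d) T.hd
  have hrz : 0 < rz d Z - ρ := by linarith
  obtain ⟨q, hq⟩ : ∃ q : ℕ → ℝ, q = fun L : ℕ => v * (rz d Z - ρ + 1 / (L : ℝ) ^ d) / ρ := ⟨_, rfl⟩
  have hq0 : ∀ L, 0 < q L := by
    intro L
    rw [hq]
    positivity
  have hqlim : Tendsto q atTop (𝓝 (v * (rz d Z - ρ) / ρ)) := by
    rw [hq]
    have h3 : Tendsto (fun L : ℕ => 1 / (L : ℝ) ^ d) atTop (𝓝 0) := hinf.const_div_atTop 1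
    have h4 := ((h3.const_add (rz d Z - ρ)).const_mul v).div_const ρ
    rwa [add_zero] at h4
  have hlogq : Tendsto (fun L => Real.log (q L)) atTop (𝓝 (Real.log (v * (rz d Z - ρ) / ρ))) :=
    hqlim.log (by positivity)
  have hfl : ∀ r : ℝ, 0 ≤ r → Tendsto (fun L : ℕ => ((⌊r * (L : ℝ) ^ d⌋₊ : ℕ) : ℝ) / (L : ℝ) ^ d)
      atTop (𝓝 r) := fun r hr => (tendsto_nat_floor_mul_div_atTop hr).comp hinf
  have hup : Tendsto (fun L : ℕ => Real.log (Z L ⌊ρ * (L : ℝ) ^ d⌋₊) / (L : ℝ) ^ d +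
      (((⌊ρ' * (L : ℝ) ^ d⌋₊ : ℕ) : ℝ) / (L : ℝ) ^ d -
        ((⌊ρ * (L : ℝ) ^ d⌋₊ : ℕ) : ℝ) / (L : ℝ) ^ d) * Real.log (q L)) atTop
      (𝓝 (ff d Z ρ + (ρ' - ρ) * Real.log (v * (rz d Z - ρ) / ρ))) :=
    l1.add (((hfl ρ' (by linarith)).sub (hfl ρ h0.le)).mul hlogq)
  have hfin : ff d Z ρ' ≤ ff d Z ρ + (ρ' - ρ) * Real.log (v * (rz d Z - ρ) / ρ) := by
    refine le_of_tendsto_of_tendsto l2 hup ?_
    filter_upwards [p1, p2, eventually_ge_atTop 1] with L hL1 hL2 hL3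
    have hL' : (0 : ℝ) < L := by exact_mod_cast hL3
    have hLd : (0 : ℝ) < (L : ℝ) ^ d := by positivity
    obtain ⟨N, hN⟩ : ∃ N, N = ⌊ρ * (L : ℝ) ^ d⌋₊ := ⟨_, rfl⟩
    obtain ⟨N', hN'⟩ : ∃ N', N' = ⌊ρ' * (L : ℝ) ^ d⌋₊ := ⟨_, rfl⟩
    rw [← hN] at hL1 ⊢
    rw [← hN'] at hL2 ⊢
    have hNN : N ≤ N' := by
      rw [hN, hN']
      exact Nat.floor_le_floor (by gcongr)
    have b1 : (N : ℝ) ≤ ρ * (L : ℝ) ^ d := by rw [hN]; exact Nat.floor_le (by positivity)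
    have b2 : ρ * (L : ℝ) ^ d < N + 1 := by rw [hN]; exact Nat.lt_floor_add_one _
    have b3 : (N' : ℝ) ≤ ρ' * (L : ℝ) ^ d := by
      rw [hN']; exact Nat.floor_le (mul_nonneg (by linarith) hLd.le)
    obtain ⟨K, hK⟩ : ∃ K, K = ⌊rz d Z * (L : ℝ) ^ d⌋₊ := ⟨_, rfl⟩
    have hrzL : 0 ≤ rz d Z * (L : ℝ) ^ d := mul_nonneg (by linarith) hLd.le
    have hKb : (K : ℝ) ≤ rz d Z * (L : ℝ) ^ d := by rw [hK]; exact Nat.floor_le hrzL
    have hKu : ∀ n, 0 < Z L n → n ≤ K := by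
      intro n hn
      rw [hK]
      exact Nat.le_floor (T.le_rz hL3 hn)
    have hstep : ∀ n, N ≤ n → n < N' → Z L (n + 1) ≤ q L * Z L n := by
      intro n hn1 hn2
      have hnK : n ≤ K := by
        rw [hK]
        refine Nat.le_floor ?_
        have h3 : (n : ℝ) ≤ N' := by exact_mod_cast hn2.le
        have h4 : ρ' * (L : ℝ) ^ d ≤ rz d Z * (L : ℝ) ^ d := by gcongr
        linarith
      have h3 := hins L n K hL3 hKu hnK
      have hnN : (N : ℝ) ≤ n := by exact_mod_cast hn1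
      have h4 : 0 ≤ Z L (n + 1) := T.nonneg _ _
      have h5 : 0 ≤ Z L n := T.nonneg _ _
      have h6 : ρ * (L : ℝ) ^ d * Z L (n + 1) ≤ ((n : ℝ) + 1) * Z L (n + 1) := by
        refine mul_le_mul_of_nonneg_right ?_ h4
        linarith
      have h7 : v * ((K : ℝ) - n) * Z L n ≤
          v * ((rz d Z - ρ + 1 / (L : ℝ) ^ d) * (L : ℝ) ^ d) * Z L n := by
        refine mul_le_mul_of_nonneg_right ?_ h5
        refine mul_le_mul_of_nonneg_left ?_ hv.le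
        have h8 : (rz d Z - ρ + 1 / (L : ℝ) ^ d) * (L : ℝ) ^ d =
            rz d Z * (L : ℝ) ^ d - ρ * (L : ℝ) ^ d + 1 := by field_simp
        rw [h8]
        linarith
      have h9 : ρ * (L : ℝ) ^ d * Z L (n + 1) ≤ ρ * (L : ℝ) ^ d * (q L * Z L n) := by
        refine (h6.trans (h3.trans h7)).trans (le_of_eq ?_)
        rw [hq]
        field_simp
      exact le_of_mul_le_mul_left h9 (by positivity)
    have hind : ∀ k, N + k ≤ N' → Z L (N + k) ≤ q L ^ k * Z L N := by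
      intro k
      induction k with
      | zero => intro _; simp
      | succ k ih =>
        intro hk
        have h3 := hstep (N + k) (by omega) (by omega)
        have h4 := ih (by omega)
        calc Z L (N + (k + 1)) ≤ q L * Z L (N + k) := h3
          _ ≤ q L * (q L ^ k * Z L N) := by
              have := (hq0 L).le
              gcongr
          _ = q L ^ (k + 1) * Z L N := by ring
    have h3 := hind (N' - N) (by omega)
    rw [Nat.add_sub_cancel' hNN] at h3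
    have h4 := Real.log_le_log hL2 h3
    rw [Real.log_mul (pow_pos (hq0 L) _).ne' hL1.ne', Real.log_pow, Nat.cast_sub hNN] at h4
    rw [div_le_iff₀ hLd]
    have h5 : (Real.log (Z L N) / (L : ℝ) ^ d + ((N' : ℝ) / (L : ℝ) ^ d - (N : ℝ) / (L : ℝ) ^ d) *
        Real.log (q L)) * (L : ℝ) ^ d = Real.log (Z L N) + ((N' : ℝ) - N) * Real.log (q L) := by
      field_simp
    rw [h5]
    linarith
  linarith

/-- Upper bounds for the pressure give upper bounds for the free energy. -/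
theorem ff_le {ρ : ℝ} (h0 : 0 ≤ ρ) (h : ρ < rz d Z) {w q : ℝ}
    (hq : ∀ L N : ℕ, 1 ≤ L → 0 < Z L N → Real.log (Z L N) + w * N ≤ q * (L : ℝ) ^ d) :
    ff d Z ρ ≤ -w * ρ + q := by
  obtain ⟨h1, h2⟩ := T.lim h0 h
  have hinf := tendsto_vol (d := d) T.hd
  have hfl : Tendsto (fun L : ℕ => ((⌊ρ * (L : ℝ) ^ d⌋₊ : ℕ) : ℝ) / (L : ℝ) ^ d)
      atTop (𝓝 ρ) := (tendsto_nat_floor_mul_div_atTop h0).comp hinf
  have h3 := (hfl.const_mul (-w)).add_const q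
  refine le_of_tendsto_of_tendsto h2 h3 ?_
  filter_upwards [h1, eventually_ge_atTop 1] with L hL hL1
  have hL' : (0 : ℝ) < L := by exact_mod_cast hL1
  have hLd : (0 : ℝ) < (L : ℝ) ^ d := by positivity
  rw [div_le_iff₀ hLd]
  have h4 := hq L _ hL1 hL
  have h5 : (-w * (((⌊ρ * (L : ℝ) ^ d⌋₊ : ℕ) : ℝ) / (L : ℝ) ^ d) + q) * (L : ℝ) ^ d =
      -w * ((⌊ρ * (L : ℝ) ^ d⌋₊ : ℕ) : ℝ) + q * (L : ℝ) ^ d := by field_simp
  rw [h5]
  linarith

/-- The coexistence interval. -/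
theorem contact {v : ℝ} (hv : 0 < v)
    (hins : ∀ L N K : ℕ, 1 ≤ L → (∀ n, 0 < Z L n → n ≤ K) → N ≤ K →
      ((N : ℝ) + 1) * Z L (N + 1) ≤ v * ((K : ℝ) - N) * Z L N)
    {w p : ℝ}
    (hpu : ∀ L N : ℕ, 1 ≤ L → 0 < Z L N → Real.log (Z L N) + w * N ≤ p * (L : ℝ) ^ d)
    (hlow : ∃ w' q : ℝ, q < p ∧ ∀ L N : ℕ, 1 ≤ L → 0 < Z L N →
      Real.log (Z L N) + w' * N ≤ q * (L : ℝ) ^ d)
    {X Y : ℝ} (hX : 0 ≤ X) (hXY : X < Y) (hY : Y ≤ rz d Z)
    (haff : ∀ ρ, X < ρ → ρ < Y → ff d Z ρ = -w * ρ + p) :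
    ∃ ρ₁ ρ₂ : ℝ, 0 < ρ₁ ∧ ρ₁ < ρ₂ ∧ ρ₂ < rz d Z ∧
      (∀ ρ ∈ Ioo 0 (rz d Z), ff d Z ρ ≤ -w * ρ + p ∧
        (ff d Z ρ = -w * ρ + p ↔ ρ ∈ Icc ρ₁ ρ₂)) ∧
      ¬ AnalyticAt ℝ (ff d Z) ρ₁ ∧ ¬ AnalyticAt ℝ (ff d Z) ρ₂ ∧ ρ₁ ≤ X ∧ Y ≤ ρ₂ := by
  have hle : ∀ ρ ∈ Ioo 0 (rz d Z), ff d Z ρ ≤ -w * ρ + p := fun ρ hρ =>
    T.ff_le hρ.1.le hρ.2 hpu
  obtain ⟨S, hS⟩ : ∃ S : Set ℝ, S = {ρ | ρ ∈ Ioo 0 (rz d Z) ∧ ff d Z ρ = -w * ρ + p} := ⟨_, rfl⟩
  have hmem : ∀ ρ, ρ ∈ S ↔ ρ ∈ Ioo 0 (rz d Z) ∧ ff d Z ρ = -w * ρ + p := by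
    intro ρ; rw [hS]; rfl
  -- convexity of the contact set
  have hconv : ∀ a b t : ℝ, a ∈ S → b ∈ S → a < t → t < b → t ∈ S := by
    intro a b t ha hb h1 h2
    rw [hmem] at ha hb ⊢
    have ht : t ∈ Ioo 0 (rz d Z) := ⟨by linarith [ha.1.1], by linarith [hb.1.2]⟩
    refine ⟨ht, le_antisymm (hle t ht) ?_⟩
    have h3 := T.concave_ineq ha.1.1.le h1 h2 hb.1.2
    rw [ha.2, hb.2] at h3
    have hba : b - a ≠ 0 := by
      have : 0 < b - a := by linarith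
      exact this.ne'
    have h4 : (-w * b + p - (-w * a + p)) / (b - a) = -w := by
      field_simp
      ring
    rw [h4] at h3
    linarith
  have hin : ∀ ρ, X < ρ → ρ < Y → ρ ∈ S := by
    intro ρ h1 h2
    rw [hmem]
    exact ⟨⟨by linarith, by linarith⟩, haff ρ h1 h2⟩
  have hmid : (X + Y) / 2 ∈ S := hin _ (by linarith) (by linarith)
  -- low density
  obtain ⟨rl, hrl0, hrl⟩ : ∃ rl : ℝ, 0 < rl ∧ ∀ ρ ∈ S, rl ≤ ρ := by
    obtain ⟨w', q, hqp, hq⟩ := hlow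
    have hpq : 0 < p - q := by linarith
    refine ⟨(p - q) / (|w - w'| + 1), by positivity, fun ρ hρ => ?_⟩
    rw [hmem] at hρ
    have h6 := T.ff_le hρ.1.1.le hρ.1.2 (w := w') (q := q) hq
    rw [hρ.2] at h6
    have h7 : p - q ≤ (w - w') * ρ := by
      have : (w - w') * ρ = w * ρ - w' * ρ := by ring
      linarith
    have h8 : (w - w') * ρ ≤ (|w - w'| + 1) * ρ := by
      refine mul_le_mul_of_nonneg_right ?_ hρ.1.1.le
      have := le_abs_self (w - w')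
      linarith
    rw [div_le_iff₀ (by positivity)]
    linarith
  -- high density
  obtain ⟨rh, hrh1, hrh⟩ : ∃ rh : ℝ, rh < rz d Z ∧ ∀ ρ ∈ S, ρ ≤ rh := by
    have hrz0 : 0 < rz d Z := by linarith
    have h5 : Tendsto (fun t : ℝ => v * (rz d Z - t) / t) (𝓝 (rz d Z))
        (𝓝 (v * (rz d Z - rz d Z) / rz d Z)) := by
      refine Tendsto.div ?_ tendsto_id hrz0.ne'
      exact (tendsto_const_nhds.sub tendsto_id).const_mul v
    rw [sub_self, mul_zero, zero_div] at h5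
    have h6 : ∀ᶠ t in 𝓝 (rz d Z), v * (rz d Z - t) / t < Real.exp (-w) :=
      h5.eventually_lt_const (Real.exp_pos _)
    have h7 : ∀ᶠ t in 𝓝[<] (rz d Z), v * (rz d Z - t) / t < Real.exp (-w) ∧
        t ∈ Ioo ((X + Y) / 2) (rz d Z) := by
      refine (h6.filter_mono nhdsWithin_le_nhds).and ?_
      exact Ioo_mem_nhdsLT (by linarith)
    obtain ⟨t, ht1, ht2⟩ := h7.exists
    have ht0 : 0 < t := by linarith [ht2.1]
    refine ⟨t, ht2.2, fun ρ hρ => ?_⟩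
    by_contra hcon
    push Not at hcon
    have htS : t ∈ S := hconv _ _ t hmid hρ ht2.1 hcon
    rw [hmem] at htS hρ
    have h8 := T.slope hv hins ht0 hcon hρ.1.2
    rw [htS.2, hρ.2] at h8
    have h9 : Real.log (v * (rz d Z - t) / t) < -w := by
      have h10 : 0 < v * (rz d Z - t) / t := by
        have : 0 < rz d Z - t := by linarith [ht2.2]
        positivity
      rwa [Real.log_lt_iff_lt_exp h10]
    have h10 : (ρ - t) * Real.log (v * (rz d Z - t) / t) < (ρ - t) * (-w) := by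
      have : 0 < ρ - t := by linarith
      gcongr
    have h11 : (ρ - t) * (-w) = -w * ρ + p - (-w * t + p) := by ring
    linarith
  have hbb : BddBelow S := ⟨rl, fun ρ hρ => hrl ρ hρ⟩
  have hba : BddAbove S := ⟨rh, fun ρ hρ => hrh ρ hρ⟩
  have hne : S.Nonempty := ⟨_, hmid⟩
  have hSeq : S = Icc rl rh ∩ (fun ρ => ff d Z ρ - (-w * ρ + p)) ⁻¹' {0} := by
    ext ρ
    rw [hmem]
    constructor
    · rintro ⟨h1, h2⟩
      have h3 : ρ ∈ S := (hmem ρ).2 ⟨h1, h2⟩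
      exact ⟨⟨hrl ρ h3, hrh ρ h3⟩, by simp [h2]⟩
    · rintro ⟨⟨h1, h2⟩, h3⟩
      refine ⟨⟨by linarith, by linarith⟩, ?_⟩
      have h4 : ff d Z ρ - (-w * ρ + p) = 0 := h3
      linarith
  have hclosed : IsClosed S := by
    rw [hSeq]
    refine ContinuousOn.preimage_isClosed_of_isClosed ?_ isClosed_Icc isClosed_singleton
    refine ContinuousOn.sub (T.cont.mono fun ρ hρ => ⟨by linarith [hρ.1], by linarith [hρ.2]⟩) ?_
    fun_prop
  have h1S := hclosed.csInf_mem hne hbb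
  have h2S := hclosed.csSup_mem hne hba
  obtain ⟨ρ₁, hρ₁⟩ : ∃ ρ₁, ρ₁ = sInf S := ⟨_, rfl⟩
  obtain ⟨ρ₂, hρ₂⟩ : ∃ ρ₂, ρ₂ = sSup S := ⟨_, rfl⟩
  rw [← hρ₁] at h1S
  rw [← hρ₂] at h2S
  have hSIcc : ∀ ρ, ρ ∈ S ↔ ρ ∈ Icc ρ₁ ρ₂ := by
    intro ρ
    constructor
    · intro h
      exact ⟨by rw [hρ₁]; exact csInf_le hbb h, by rw [hρ₂]; exact le_csSup hba h⟩
    · rintro ⟨h1, h2⟩
      rcases eq_or_lt_of_le h1 with h3 | h3
      · rw [← h3]; exact h1S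
      rcases eq_or_lt_of_le h2 with h4 | h4
      · rw [h4]; exact h2S
      exact hconv _ _ ρ h1S h2S h3 h4
  have h1' := (hmem _).1 h1S
  have h2' := (hmem _).1 h2S
  have h12 : ρ₁ < ρ₂ := by
    have a1 := (hSIcc _).1 (hin ((2 * X + Y) / 3) (by linarith) (by linarith))
    have a2 := (hSIcc _).1 (hin ((X + 2 * Y) / 3) (by linarith) (by linarith))
    linarith [a1.1, a2.2]
  have hline : ∀ t : ℝ, AnalyticAt ℝ (fun ρ : ℝ => -w * ρ + p) t := fun t =>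
    (analyticAt_const.mul analyticAt_id).add analyticAt_const
  have hX1 : ρ₁ ≤ X := by
    by_contra hcon
    push Not at hcon
    have h3 := (hSIcc _).1 (hin ((X + min ρ₁ Y) / 2) (by
      have := lt_min hcon hXY
      linarith) (by
      have := min_le_right ρ₁ Y
      linarith))
    have := min_le_left ρ₁ Y
    linarith [h3.1]
  have hY2 : Y ≤ ρ₂ := by
    by_contra hcon
    push Not at hcon
    have h3 := (hSIcc _).1 (hin ((max X ρ₂ + Y) / 2) (by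
      have := le_max_left X ρ₂
      linarith) (by
      have := max_lt hXY hcon
      linarith))
    have := le_max_right X ρ₂
    linarith [h3.2]
  refine ⟨ρ₁, ρ₂, h1'.1.1, h12, h2'.1.2, ?_, ?_, ?_, hX1, hY2⟩
  · intro ρ hρ
    refine ⟨hle ρ hρ, ?_⟩
    rw [← hSIcc, hmem]
    constructor
    · intro h; exact ⟨hρ, h⟩
    · intro h; exact h.2
  · intro hcon
    have hfr : ∃ᶠ t in 𝓝[≠] ρ₁, ff d Z t = -w * t + p := by
      have h3 : ∀ᶠ t in 𝓝[>] ρ₁, ff d Z t = -w * t + p := by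
        filter_upwards [Ioo_mem_nhdsGT h12] with t ht
        exact ((hmem t).1 ((hSIcc t).2 ⟨ht.1.le, ht.2.le⟩)).2
      exact h3.frequently.filter_mono (nhdsWithin_mono _ fun t ht => ne_of_gt ht)
    have h4 := (hcon.frequently_eq_iff_eventually_eq (hline ρ₁)).1 hfr
    have h5 : ∀ᶠ t in 𝓝[<] ρ₁, ff d Z t = -w * t + p ∧ t ∈ Ioo 0 ρ₁ :=
      (h4.filter_mono nhdsWithin_le_nhds).and (Ioo_mem_nhdsLT h1'.1.1)
    obtain ⟨t, ht1, ht2⟩ := h5.exists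
    have h6 : t ∈ S := (hmem t).2 ⟨⟨ht2.1, by linarith [ht2.2, h1'.1.2]⟩, ht1⟩
    have h7 := ((hSIcc t).1 h6).1
    linarith [ht2.2]
  · intro hcon
    have hfr : ∃ᶠ t in 𝓝[≠] ρ₂, ff d Z t = -w * t + p := by
      have h3 : ∀ᶠ t in 𝓝[<] ρ₂, ff d Z t = -w * t + p := by
        filter_upwards [Ioo_mem_nhdsLT h12] with t ht
        exact ((hmem t).1 ((hSIcc t).2 ⟨ht.1.le, ht.2.le⟩)).2
      exact h3.frequently.filter_mono (nhdsWithin_mono _ fun t ht => ne_of_lt ht)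
    have h4 := (hcon.frequently_eq_iff_eventually_eq (hline ρ₂)).1 hfr
    have h5 : ∀ᶠ t in 𝓝[>] ρ₂, ff d Z t = -w * t + p ∧ t ∈ Ioo ρ₂ (rz d Z) :=
      (h4.filter_mono nhdsWithin_le_nhds).and (Ioo_mem_nhdsGT h2'.1.2)
    obtain ⟨t, ht1, ht2⟩ := h5.exists
    have h6 : t ∈ S := (hmem t).2 ⟨⟨by linarith [ht2.1, h2'.1.1], ht2.2⟩, ht1⟩
    have h7 := ((hSIcc t).1 h6).2
    linarith [ht2.1]

theorem affine_piece (w γ p Mx n1 n2 : ℝ) (hγ : 0 < γ)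
    (hpu : ∀ L N : ℕ, 1 ≤ L → 0 < Z L N → Real.log (Z L N) + w * N ≤ p * (L : ℝ) ^ d)
    (hseq : ∀ n : ℕ, ∃ x y : ℝ, 0 ≤ x ∧ x + γ ≤ y ∧ y ≤ Mx ∧
      x ≤ n1 + 1 / (n + 2) ∧ n2 - 1 / (n + 2) ≤ y ∧
      (∃ L2 N2 : ℕ, 1 ≤ L2 ∧ 0 < Z L2 N2 ∧ y * (L2 : ℝ) ^ d ≤ N2) ∧
      ∀ ρ : ℝ, x ≤ ρ → ρ < y → ∀ ε' : ℝ, 0 < ε' → ∀ᶠ L : ℕ in atTop,
        0 < Z L ⌊ρ * (L : ℝ) ^ d⌋₊ ∧
        (-w * ρ + (p - 1 / (n + 2)) - ε') * (L : ℝ) ^ d ≤
          Real.log (Z L ⌊ρ * (L : ℝ) ^ d⌋₊)) :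
    ∃ X Y : ℝ, 0 ≤ X ∧ X < Y ∧ Y ≤ rz d Z ∧ X ≤ n1 ∧ n2 ≤ Y ∧
      ∀ ρ : ℝ, X < ρ → ρ < Y → ff d Z ρ = -w * ρ + p := by
  choose x y hx0 hxy hyM hxn hyn hyZ hline using hseq
  have hcomp : IsCompact ((Icc (0 : ℝ) (Mx)) ×ˢ
      (Icc (0 : ℝ) (Mx))) := isCompact_Icc.prod isCompact_Icc
  obtain ⟨z, hz, φ, hφ, hφlim⟩ := hcomp.tendsto_subseq (x := fun n => (x n, y n)) (fun n => by
    refine ⟨⟨hx0 n, ?_⟩, ?_, hyM n⟩
    · have := hxy n; have := hyM n; simp only; linarith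
    · have := hxy n; have := hx0 n; simp only; linarith)
  obtain ⟨X, Y⟩ := z
  have hX : Tendsto (fun n => x (φ n)) atTop (𝓝 X) :=
    (continuous_fst.tendsto _).comp hφlim
  have hY : Tendsto (fun n => y (φ n)) atTop (𝓝 Y) :=
    (continuous_snd.tendsto _).comp hφlim
  have hXY : X + γ ≤ Y :=
    le_of_tendsto_of_tendsto' (hX.add_const _) hY fun n => hxy (φ n)
  have hX0 : 0 ≤ X := ge_of_tendsto' hX fun n => hx0 (φ n)
  have hYr : Y ≤ rz d Z := by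
    refine le_of_tendsto' hY fun n => ?_
    obtain ⟨L2, N2, h1, h2, h3⟩ := hyZ (φ n)
    have hL' : (0 : ℝ) < L2 := by exact_mod_cast h1
    have h4 := T.le_rz h1 h2
    exact le_of_mul_le_mul_right (h3.trans h4) (by positivity)
  have hlim0 : Tendsto (fun n : ℕ => 1 / ((φ n : ℝ) + 2)) atTop (𝓝 0) := by
    have h6 : Tendsto (fun n : ℕ => ((φ n : ℝ) + 2)) atTop atTop :=
      tendsto_atTop_add_const_right _ _
        (tendsto_natCast_atTop_atTop.comp hφ.tendsto_atTop)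
    exact h6.const_div_atTop 1
  have hXn : X ≤ n1 := by
    have h5 := hlim0.const_add n1
    rw [add_zero] at h5
    exact le_of_tendsto_of_tendsto' hX h5 fun n => hxn (φ n)
  have hYn : n2 ≤ Y := by
    have h5 := hlim0.const_sub n2
    rw [sub_zero] at h5
    exact le_of_tendsto_of_tendsto' h5 hY fun n => hyn (φ n)
  refine ⟨X, Y, hX0, by linarith, hYr, hXn, hYn, ?_⟩
  intro ρ h1 h2
  have hρ0 : 0 ≤ ρ := by linarith
  have hρr : ρ < rz d Z := by linarith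
  apply le_antisymm
  · exact T.ff_le hρ0 hρr hpu
  · obtain ⟨h3, h4⟩ := T.lim hρ0 hρr
    refine le_of_forall_pos_sub_le fun η hη => ?_
    have e1 : ∀ᶠ n : ℕ in atTop, 1 / ((φ n : ℝ) + 2) < η / 2 := by
      have h5 : Tendsto (fun n : ℕ => 1 / ((φ n : ℝ) + 2)) atTop (𝓝 0) := by
        have h6 : Tendsto (fun n : ℕ => ((φ n : ℝ) + 2)) atTop atTop :=
          tendsto_atTop_add_const_right _ _
            (tendsto_natCast_atTop_atTop.comp hφ.tendsto_atTop)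
        exact h6.const_div_atTop 1
      exact h5.eventually_lt_const (by positivity)
    obtain ⟨n, hn1, hn2, hn3⟩ :=
      ((hX.eventually_lt_const h1).and ((hY.eventually_const_lt h2).and e1)).exists
    have h5 := hline (φ n) ρ hn1.le hn2 (η / 2) (by positivity)
    refine ge_of_tendsto h4 ?_
    filter_upwards [h5, eventually_ge_atTop 1] with L hL hL1
    have hL' : (0 : ℝ) < L := by exact_mod_cast hL1
    have hLd : (0 : ℝ) < (L : ℝ) ^ d := by positivity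
    rw [le_div_iff₀ hLd]
    have h7 : (-w * ρ + p - η) * (L : ℝ) ^ d ≤
        (-w * ρ + (p - 1 / ((φ n : ℝ) + 2)) - η / 2) * (L : ℝ) ^ d := by
      refine mul_le_mul_of_nonneg_right ?_ hLd.le
      linarith
    linarith [hL.2]

/-- Bounds for the pressure give a coexistence interval at a kink. -/
theorem coexist {v : ℝ} (hv : 0 < v)
    (hins : ∀ L N K : ℕ, 1 ≤ L → (∀ n, 0 < Z L n → n ≤ K) → N ≤ K →
      ((N : ℝ) + 1) * Z L (N + 1) ≤ v * ((K : ℝ) - N) * Z L N)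
    {p : ℝ → ℝ}
    (hpu : ∀ (μ : ℝ) (L N : ℕ), 1 ≤ L → 0 < Z L N → Real.log (Z L N) + μ * N ≤ p μ * (L : ℝ) ^ d)
    (hpl : ∀ (μ ε : ℝ), 0 < ε → ∃ L N : ℕ, 1 ≤ L ∧ 0 < Z L N ∧
      (p μ - ε) * (L : ℝ) ^ d ≤ Real.log (Z L N) + μ * N)
    {w n1 n2 : ℝ} (hn : n1 < n2)
    (hw1 : ∀ h : ℝ, 0 < h → p w + h * n2 ≤ p (w + h))
    (hw2 : ∀ h : ℝ, 0 < h → p w - h * n1 ≤ p (w - h))
    (hlow : ∃ w' q : ℝ, q < p w ∧ ∀ L N : ℕ, 1 ≤ L → 0 < Z L N →
      Real.log (Z L N) + w' * N ≤ q * (L : ℝ) ^ d) :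
    ∃ ρ₁ ρ₂ c b : ℝ, 0 < ρ₁ ∧ ρ₁ < ρ₂ ∧ ρ₂ < rz d Z ∧
      (∀ ρ ∈ Ioo 0 (rz d Z), ff d Z ρ ≤ c * ρ + b ∧
        (ff d Z ρ = c * ρ + b ↔ ρ ∈ Icc ρ₁ ρ₂)) ∧
      ¬ AnalyticAt ℝ (ff d Z) ρ₁ ∧ ¬ AnalyticAt ℝ (ff d Z) ρ₂ ∧ ρ₁ ≤ n1 ∧ n2 ≤ ρ₂ := by
  have haff := T.affine_piece w ((n2 - n1) / 2) (p w) B n1 n2 (by linarith) (hpu w) fun n => by
    obtain ⟨ε, hε⟩ : ∃ ε : ℝ, ε = 1 / ((n : ℝ) + 2) := ⟨_, rfl⟩
    have hε0 : 0 < ε := by rw [hε]; positivity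
    rw [← hε]
    obtain ⟨W, hW⟩ : ∃ W : ℝ, W = |B| + |n1| + |n2| + 1 := ⟨_, rfl⟩
    have hB0 := abs_nonneg B
    have hW1 : 1 ≤ W := by
      rw [hW]
      have := abs_nonneg n1
      have := abs_nonneg n2
      linarith
    obtain ⟨h, hh⟩ : ∃ h : ℝ, h = min (min 1 ((n2 - n1) / 4)) (ε / W) := ⟨_, rfl⟩
    have hh0 : 0 < h := by
      rw [hh]
      have : 0 < n2 - n1 := by linarith
      positivity
    have hh1 : h ≤ 1 := by rw [hh]; exact (min_le_left _ _).trans (min_le_left _ _)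
    have hh2 : h ≤ (n2 - n1) / 4 := by rw [hh]; exact (min_le_left _ _).trans (min_le_right _ _)
    have hh3 : h * W ≤ ε := by
      have : h ≤ ε / W := by rw [hh]; exact min_le_right _ _
      rwa [le_div_iff₀ (by linarith)] at this
    have hn2 : -(h * |n2|) ≤ h * n2 := by
      have := mul_le_mul_of_nonneg_left (neg_abs_le n2) hh0.le
      linarith
    have hn1 : h * n1 ≤ h * |n1| := mul_le_mul_of_nonneg_left (le_abs_self n1) hh0.le
    have hWe : h * W = h * |B| + h * |n1| + h * |n2| + h := by rw [hW]; ring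
    have p1 : 0 ≤ h * |n1| := by positivity
    have p2 : 0 ≤ h * |n2| := by positivity
    have p3 : 0 ≤ h * |B| := by positivity
    have hhsq : h ^ 2 ≤ h := by nlinarith
    have hhε : h ≤ ε := by
      have : h * 1 ≤ h * W := mul_le_mul_of_nonneg_left hW1 hh0.le
      linarith
    obtain ⟨L2, N2, hL2, hZ2, hN2⟩ := hpl (w + h) (h ^ 2) (by positivity)
    obtain ⟨L1, N1, hL1, hZ1, hN1⟩ := hpl (w - h) (h ^ 2) (by positivity)
    have hL1' : (0 : ℝ) < L1 := by exact_mod_cast hL1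
    have hL2' : (0 : ℝ) < L2 := by exact_mod_cast hL2
    have hV1 : (0 : ℝ) < (L1 : ℝ) ^ d := by positivity
    have hV2 : (0 : ℝ) < (L2 : ℝ) ^ d := by positivity
    have hu1 := hpu w L1 N1 hL1 hZ1
    have hu2 := hpu w L2 N2 hL2 hZ2
    have hb := T.fin L2 N2 hL2 hZ2
    have k2 : (p w + h * n2 - h ^ 2) * (L2 : ℝ) ^ d ≤ Real.log (Z L2 N2) + (w + h) * N2 := by
      refine le_trans (mul_le_mul_of_nonneg_right ?_ hV2.le) hN2
      have := hw1 h hh0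
      linarith
    have k1 : (p w - h * n1 - h ^ 2) * (L1 : ℝ) ^ d ≤ Real.log (Z L1 N1) + (w - h) * N1 := by
      refine le_trans (mul_le_mul_of_nonneg_right ?_ hV1.le) hN1
      have := hw2 h hh0
      linarith
    have hy2 : (n2 - h) * (L2 : ℝ) ^ d ≤ N2 := by
      have g1 : h * ((n2 - h) * (L2 : ℝ) ^ d) ≤ h * N2 := by
        have : (p w + h * n2 - h ^ 2) * (L2 : ℝ) ^ d ≤ p w * (L2 : ℝ) ^ d + h * N2 := by linarith
        linarith
      exact le_of_mul_le_mul_left g1 hh0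
    have hx1 : (N1 : ℝ) ≤ (n1 + h) * (L1 : ℝ) ^ d := by
      have g1 : h * N1 ≤ h * ((n1 + h) * (L1 : ℝ) ^ d) := by
        have : (p w - h * n1 - h ^ 2) * (L1 : ℝ) ^ d ≤ p w * (L1 : ℝ) ^ d - h * N1 := by linarith
        linarith
      exact le_of_mul_le_mul_left g1 hh0
    have e2 : -w * N2 + (p w - ε) * (L2 : ℝ) ^ d ≤ Real.log (Z L2 N2) := by
      have g1 : h * N2 ≤ h * (|B| * (L2 : ℝ) ^ d) := by
        refine mul_le_mul_of_nonneg_left (hb.trans ?_) hh0.le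
        exact mul_le_mul_of_nonneg_right (le_abs_self B) hV2.le
      have g2 : (p w - ε) * (L2 : ℝ) ^ d ≤ (p w + h * n2 - h ^ 2 - h * |B|) * (L2 : ℝ) ^ d := by
        refine mul_le_mul_of_nonneg_right ?_ hV2.le
        linarith
      linarith
    have e1 : -w * N1 + (p w - ε) * (L1 : ℝ) ^ d ≤ Real.log (Z L1 N1) := by
      have g1 : 0 ≤ h * (N1 : ℝ) := by positivity
      have g2 : (p w - ε) * (L1 : ℝ) ^ d ≤ (p w - h * n1 - h ^ 2) * (L1 : ℝ) ^ d := by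
        refine mul_le_mul_of_nonneg_right ?_ hV1.le
        linarith
      linarith
    have g1 : (N1 : ℝ) / (L1 : ℝ) ^ d ≤ n1 + h := by rwa [div_le_iff₀ hV1]
    have g2 : n2 - h ≤ (N2 : ℝ) / (L2 : ℝ) ^ d := by rwa [le_div_iff₀ hV2]
    refine ⟨N1 / (L1 : ℝ) ^ d, N2 / (L2 : ℝ) ^ d, by positivity, ?_, ?_, ?_, ?_,
      ⟨L2, N2, hL2, hZ2, by rw [div_mul_cancel₀ _ hV2.ne']⟩, ?_⟩
    · linarith
    · rwa [div_le_iff₀ hV2]
    · linarith
    · linarith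
    · intro ρ h1 h2 ε' hε'
      refine lower_line2 Z T.hd T.sup T.her ρ (-w) (p w - ε) L1 N1 L2 N2 hL1 hL2 hZ1 hZ2 e1 e2 ?_
        ?_ ε' hε'
      · rwa [div_le_iff₀ hV1] at h1
      · rwa [lt_div_iff₀ hV2] at h2
  obtain ⟨X, Y, hX, hXY, hY, hXn, hYn, hXYa⟩ := haff
  obtain ⟨ρ₁, ρ₂, h1, h2, h3, h4, h5, h6, h7, h8⟩ := T.contact hv hins (hpu w) hlow hX hXY hY hXYa
  exact ⟨ρ₁, ρ₂, -w, p w, h1, h2, h3, h4, h5, h6, h7.trans hXn, hYn.trans h8⟩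

end ThG

end Pool.Agent.Mix
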