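import Pool.Agent.Lib.MP_09cbbd_mx.CanB
import Pool.Agent.Lib.MP_09cbbd_mx.ThG

/-!
# The canonical partition functions of boxes
-/

set_option autoImplicit false

namespace Pool.Agent.Mix

open MeasureTheory Finset Filter Topology Pool.Agent.StableGas Pool.Agent.SquareWellGas
  Pool.Agent.SquareWell Pool.Agent.MixGas

namespace CanM

open Pool.Agent.ConfinedGas

variable {d : ℕ} {a b R : ℝ} {z : ENNReal}

theorem far_of_coord {D : ℝ} (hD : 0 ≤ D) {A B : Set (Fin d → ℝ)}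
    (h : ∀ x ∈ A, ∀ y ∈ B, ∃ k, D ≤ |x k - y k|) : Far D A B := by
  intro x hx y hy
  obtain ⟨k, hk⟩ := h x hx y hy
  have h1 : D ^ 2 ≤ (x k - y k) ^ 2 := by
    rw [← sq_abs (x k - y k)]
    exact pow_le_pow_left₀ hD hk 2
  exact h1.trans (single_le_sum (f := fun k => (x k - y k) ^ 2) (fun _ _ => sq_nonneg _)
    (mem_univ k))

theorem Box_eq (ℓ : ℝ) : Box d ℓ = Set.pi Set.univ fun _ => Set.Ico (0 : ℝ) ℓ := by
  ext x
  simp [Box]

theorem measurableSet_Box (ℓ : ℝ) : MeasurableSet (Box d ℓ) := by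
  rw [Box_eq]
  exact MeasurableSet.univ_pi fun _ => measurableSet_Ico

theorem volume_Box (ℓ : ℝ) : volume (Box d ℓ) = ENNReal.ofReal ℓ ^ d := by
  rw [Box_eq, volume_pi_pi]
  simp

theorem volume_Box_ne (ℓ : ℝ) : volume (Box d ℓ) ≠ ⊤ := by
  rw [volume_Box]
  exact ENNReal.pow_ne_top ENNReal.ofReal_ne_top

theorem Box_mono {s t : ℝ} (h : s ≤ t) : Box d s ⊆ Box d t := fun _ hx k =>
  ⟨(hx k).1, lt_of_lt_of_le (hx k).2 h⟩

/-- The configurations of the two species. -/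
theorem WM_eq {A : Set (Fin d → ℝ)} (hA : MeasurableSet A) (N : ℕ) :
    WM a b R z (Fin N) A = ∑' M : ℕ, z ^ M * ((M.factorial : ENNReal))⁻¹ *
      volume {p : (Fin N → Fin d → ℝ) × (Fin M → Fin d → ℝ) |
      (∀ i, p.1 i ∈ A) ∧ (∀ j, p.2 j ∈ A) ∧
      (∀ i j, i ≠ j → (2 * a) ^ 2 ≤ ∑ k, (p.1 i k - p.1 j k) ^ 2) ∧
      (∀ i j, i ≠ j → (2 * b) ^ 2 ≤ ∑ k, (p.2 i k - p.2 j k) ^ 2) ∧
      ∀ i j, R ^ 2 ≤ ∑ k, (p.1 i k - p.2 j k) ^ 2} := by
  unfold WM wB Xi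
  rw [lintegral_tsum fun M => ((measurable_mCFar2 volume (2 * b) R hA M).const_mul _).aemeasurable]
  refine tsum_congr fun M => ?_
  rw [lintegral_const_mul _ (measurable_mCFar2 volume (2 * b) R hA M)]
  congr 1
  obtain ⟨T, hT⟩ : ∃ T : Set ((Fin N → Fin d → ℝ) × (Fin M → Fin d → ℝ)),
      T = {p : (Fin N → Fin d → ℝ) × (Fin M → Fin d → ℝ) |
      (∀ i, p.1 i ∈ A) ∧ (∀ j, p.2 j ∈ A) ∧
      (∀ i j, i ≠ j → (2 * a) ^ 2 ≤ ∑ k, (p.1 i k - p.1 j k) ^ 2) ∧
      (∀ i j, i ≠ j → (2 * b) ^ 2 ≤ ∑ k, (p.2 i k - p.2 j k) ^ 2) ∧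
      ∀ i j, R ^ 2 ≤ ∑ k, (p.1 i k - p.2 j k) ^ 2} := ⟨_, rfl⟩
  have hq : ∀ (i : Fin N) (j : Fin M), Measurable
      fun q : (Fin N → Fin d → ℝ) × (Fin M → Fin d → ℝ) =>
        ConfinedGas.sq (q.1 i) (q.2 j) := by
    intro i j
    unfold ConfinedGas.sq
    fun_prop
  have hT2 : T = (Prod.fst ⁻¹' Cf (2 * a) (Fin N) A) ∩ ((Prod.snd ⁻¹' Cf (2 * b) (Fin M) A) ∩
        ⋂ i, ⋂ j, {q : (Fin N → Fin d → ℝ) × (Fin M → Fin d → ℝ) |
          R ^ 2 ≤ ConfinedGas.sq (q.1 i) (q.2 j)}) := by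
    rw [hT]
    ext q
    simp only [Set.mem_ofPred_eq, Set.mem_inter_iff, Set.mem_preimage, Set.mem_iInter, Cf,
      ConfinedGas.sq]
    tauto
  have mT : MeasurableSet T := by
    rw [hT2]
    exact (measurable_fst (measurableSet_Cf (2 * a) _ hA)).inter
      ((measurable_snd (measurableSet_Cf (2 * b) _ hA)).inter (MeasurableSet.iInter fun i =>
        MeasurableSet.iInter fun j => measurableSet_le measurable_const (hq i j)))
  rw [← hT, Measure.volume_eq_prod, Measure.prod_apply mT,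
    ← lintegral_indicator (measurableSet_Cf (2 * a) _ hA)]
  refine lintegral_congr fun u => ?_
  by_cases hu : u ∈ Cf (2 * a) (Fin N) A
  · rw [Set.indicator_of_mem hu]
    unfold mC
    congr 1
    ext v
    rw [Set.mem_preimage, hT2]
    simp only [Set.mem_ofPred_eq, Set.mem_inter_iff, Set.mem_preimage, Set.mem_iInter, Cf, FarS]
    constructor
    · rintro ⟨h1, h2⟩
      exact ⟨hu, ⟨fun i => (h1 i).1, h2⟩, fun i j => (h1 j).2 i⟩
    · rintro ⟨-, ⟨h1, h2⟩, h3⟩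
      exact ⟨fun i => ⟨h1 i, fun j => h3 j i⟩, h2⟩
  · rw [Set.indicator_of_notMem hu]
    have : Prod.mk u ⁻¹' T = ∅ := by
      rw [Set.eq_empty_iff_forall_notMem]
      intro v hv
      rw [hT2] at hv
      exact hu hv.1
    rw [this, measure_empty]

theorem Z_eq {y : ℝ} (hy : 0 ≤ y) (s : ℝ) (N : ℕ) :
    Z d a b R y s N = zm a b R (ENNReal.ofReal y) (Box d s) N := by
  unfold Z zm
  congr 1
  have hne := WM_ne_top (a := a) (b := b) (R := R) (ι := Fin N) (z := ENNReal.ofReal y)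
    ENNReal.ofReal_ne_top (volume_Box_ne (d := d) s)
  rw [WM_eq (measurableSet_Box s)] at hne ⊢
  rw [ENNReal.tsum_toReal_eq fun M => ENNReal.ne_top_of_tsum_ne_top hne M]
  refine tsum_congr fun M => ?_
  rw [ENNReal.toReal_mul, ENNReal.toReal_mul, ENNReal.toReal_pow, ENNReal.toReal_ofReal hy,
    ENNReal.toReal_inv, ENNReal.toReal_natCast, div_eq_mul_inv]
  rfl

/-- Superadditivity. -/
theorem can_super (hz : z ≠ ⊤) (hR : 0 < R) (ha : (2 * a) ^ 2 ≤ R ^ 2)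
    (hb : (2 * b) ^ 2 ≤ R ^ 2) {ℓ : ℝ} (hℓ : R < ℓ) (L1 k L : ℕ)
    (l : List ℕ) (hL1 : 1 ≤ L1)
    (hkL : k * L1 ≤ L) (hl : l.length ≤ k ^ d) :
    (l.map fun N => zm a b R z (Box d (L1 * ℓ - R)) N).prod ≤
      zm a b R z (Box d (L * ℓ - R)) l.sum := by
  classical
  have hℓ0 : 0 < ℓ := by linarith
  obtain ⟨vv, hvv⟩ : ∃ vv : (Fin d → Fin k) → Fin d → ℝ, vv = fun u κ =>
    -(((u κ : ℕ) : ℝ) * (L1 * ℓ)) := ⟨_, rfl⟩
  obtain ⟨B, hB⟩ : ∃ B : (Fin d → Fin k) → Set (Fin d → ℝ), B = fun u =>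
    (fun x => x + vv u) ⁻¹' Box d (L1 * ℓ - R) := ⟨_, rfl⟩
  have hBmem : ∀ u x, x ∈ B u ↔ ∀ κ, ((u κ : ℕ) : ℝ) * (L1 * ℓ) ≤ x κ ∧
      x κ < ((u κ : ℕ) : ℝ) * (L1 * ℓ) + (L1 * ℓ - R) := by
    intro u x
    rw [hB, hvv]
    simp only [Box, Set.mem_preimage, Set.mem_ofPred_eq, Pi.add_apply, Set.mem_Ico]
    refine forall_congr' fun κ => ?_
    constructor <;> rintro ⟨h3, h4⟩ <;> constructor <;> linarith
  have h8 : (1 : ℝ) ≤ L1 := by exact_mod_cast hL1
  have hLl : 0 < (L1 : ℝ) * ℓ := by positivity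
  have hfar : ∀ u v, u ≠ v → Far R (B u) (B v) := by
    have main : ∀ u v : Fin d → Fin k, ∀ κ, u κ < v κ → ∀ x ∈ B u, ∀ y ∈ B v,
        R ≤ |x κ - y κ| := by
      intro u v κ huv x hx y hy
      rw [hBmem] at hx hy
      have h1 := (hx κ).2
      have h2 := (hy κ).1
      have h7 : ((u κ : ℕ) : ℝ) + 1 ≤ ((v κ : ℕ) : ℝ) := by
        have : (u κ : ℕ) + 1 ≤ (v κ : ℕ) := huv
        exact_mod_cast this
      have h9 : (((u κ : ℕ) : ℝ) + 1) * (L1 * ℓ) ≤ ((v κ : ℕ) : ℝ) * (L1 * ℓ) :=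
        mul_le_mul_of_nonneg_right h7 hLl.le
      rw [abs_sub_comm]
      refine le_trans ?_ (le_abs_self _)
      linarith
    intro u v huv
    refine far_of_coord hR.le fun x hx y hy => ?_
    obtain ⟨κ, hκ⟩ : ∃ κ, u κ ≠ v κ := by
      by_contra hcon
      push Not at hcon
      exact huv (funext hcon)
    rcases lt_or_gt_of_ne hκ with h1 | h1
    · exact ⟨κ, main u v κ h1 x hx y hy⟩
    · refine ⟨κ, ?_⟩
      rw [abs_sub_comm]
      exact main v u κ h1 y hy x hx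
  have hmeas : ∀ u, MeasurableSet (B u) := by
    intro u
    rw [hB]
    exact (measurable_add_const _) (measurableSet_Box _)
  have hvol : ∀ u, volume (B u) ≠ ⊤ := by
    intro u
    rw [hB]
    simp only
    rw [measure_preimage_add_right]
    exact volume_Box_ne _
  obtain ⟨s, hs1, hs2⟩ := exists_subset_card_eq (s := (univ : Finset (Fin d → Fin k)))
    (n := l.length) (by
      rw [card_univ, Fintype.card_fun, Fintype.card_fin, Fintype.card_fin]; exact hl)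
  have key := zm_prod_le hz hR ha hb B hfar hmeas hvol
    (fun N => zm a b R z (Box d (L1 * ℓ - R)) N) (fun u n => by
      rw [hB]
      exact (zm_shift _ (measurableSet_Box _) _).symm) l s hs2
  refine key.trans (zm_mono hz ?_ (volume_Box_ne _) _)
  intro x hx
  simp only [Set.mem_iUnion] at hx
  obtain ⟨u, _, hx⟩ := hx
  rw [hBmem] at hx
  intro κ
  have h1 := hx κ
  have hu : ((u κ : ℕ) : ℝ) + 1 ≤ k := by
    have : (u κ : ℕ) + 1 ≤ k := (u κ).2
    exact_mod_cast this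
  have h9 : (k : ℝ) * L1 ≤ L := by exact_mod_cast hkL
  have h10 : (((u κ : ℕ) : ℝ) + 1) * (L1 * ℓ) ≤ k * (L1 * ℓ) :=
    mul_le_mul_of_nonneg_right hu hLl.le
  have h11 : (k : ℝ) * (L1 * ℓ) ≤ L * ℓ := by
    rw [← mul_assoc]
    exact mul_le_mul_of_nonneg_right h9 hℓ0.le
  have h12 : 0 ≤ ((u κ : ℕ) : ℝ) * (L1 * ℓ) := by positivity
  exact ⟨by linarith [h1.1], by linarith [h1.2]⟩

/-- The number of points of a configuration in a box. -/
theorem card_box_le (hd : 1 ≤ d) {D s : ℝ} (hD : 0 < D) {N : ℕ}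
    (h : (Cf D (Fin N) (Box d s)).Nonempty) : N ≤ ⌈(d : ℝ) / D * s⌉₊ ^ d := by
  obtain ⟨x, hx⟩ := h
  have hd' : (0 : ℝ) < d := by exact_mod_cast hd
  obtain ⟨c, hc⟩ : ∃ c : ℝ, c = (d : ℝ) / D := ⟨_, rfl⟩
  have hc0 : 0 < c := by rw [hc]; positivity
  rw [← hc]
  have hfl : ∀ i k, ⌊c * x i k⌋₊ < ⌈c * s⌉₊ := by
    intro i k
    have h1 := (hx.1 i) k
    have h2 : c * x i k < c * s := mul_lt_mul_of_pos_left h1.2 hc0
    have h3 : 0 ≤ c * x i k := mul_nonneg hc0.le h1.1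
    have h4 : ((⌊c * x i k⌋₊ : ℕ) : ℝ) < ⌈c * s⌉₊ :=
      lt_of_le_of_lt (Nat.floor_le h3) (lt_of_lt_of_le h2 (Nat.le_ceil _))
    exact_mod_cast h4
  have hinj : Function.Injective fun (i : Fin N) (k : Fin d) =>
      (⟨⌊c * x i k⌋₊, hfl i k⟩ : Fin ⌈c * s⌉₊) := by
    intro i j hij
    by_contra hne
    have h1 := hx.2 i j hne
    have h2 : ∀ k, (x i k - x j k) ^ 2 < 1 / c ^ 2 := by
      intro k
      have h3 : ⌊c * x i k⌋₊ = ⌊c * x j k⌋₊ := by
        have := congrFun hij k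
        exact congrArg Fin.val this
      have h4 := Nat.floor_le (mul_nonneg hc0.le ((hx.1 i) k).1)
      have h5 := Nat.lt_floor_add_one (c * x i k)
      have h6 := Nat.floor_le (mul_nonneg hc0.le ((hx.1 j) k).1)
      have h7 := Nat.lt_floor_add_one (c * x j k)
      rw [h3] at h4 h5
      have h8 : |c * (x i k - x j k)| < 1 := by
        rw [abs_lt]
        constructor <;> linarith
      have h9 : (c * (x i k - x j k)) ^ 2 < 1 := by
        rw [← sq_abs]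
        exact pow_lt_one₀ (abs_nonneg _) h8 two_ne_zero
      rw [lt_div_iff₀ (by positivity)]
      calc (x i k - x j k) ^ 2 * c ^ 2 = (c * (x i k - x j k)) ^ 2 := by ring
        _ < 1 := h9
    have h3 : ConfinedGas.sq (x i) (x j) < ∑ _k : Fin d, 1 / c ^ 2 := by
      unfold ConfinedGas.sq
      refine sum_lt_sum_of_nonempty ⟨⟨0, by omega⟩, mem_univ _⟩ fun k _ => h2 k
    rw [sum_const, card_univ, Fintype.card_fin, nsmul_eq_mul] at h3
    have h4 : (d : ℝ) * (1 / c ^ 2) ≤ D ^ 2 := by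
      have h5 : (1 : ℝ) ≤ d := by exact_mod_cast hd
      have h6 : (d : ℝ) * (1 / c ^ 2) = D ^ 2 / d := by rw [hc]; field_simp
      rw [h6, div_le_iff₀ hd']
      nlinarith [sq_nonneg D]
    linarith
  have h := Fintype.card_le_of_injective _ hinj
  rw [Fintype.card_fin, Fintype.card_fun, Fintype.card_fin, Fintype.card_fin] at h
  exact h

/-- The hypotheses on the radii. -/
structure Par (a b R y : ℝ) : Prop where
  ha : 0 < a
  hb : 0 ≤ b
  hR : 2 * (a + b) < R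
  hy : 0 ≤ y

namespace Par

variable {y : ℝ} (P : Par a b R y)

include P

theorem R_pos : 0 < R := by
  have := P.ha
  have := P.hb
  have := P.hR
  linarith

theorem ha2 : (2 * a) ^ 2 ≤ R ^ 2 := by
  have h1 := P.ha
  have h2 := P.hb
  have h3 := P.hR
  exact pow_le_pow_left₀ (by linarith) (by linarith) 2

theorem hb2 : (2 * b) ^ 2 ≤ R ^ 2 := by
  have h1 := P.ha
  have h2 := P.hb
  have h3 := P.hR
  exact pow_le_pow_left₀ (by linarith) (by linarith) 2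

theorem Z_nonneg (s : ℝ) (N : ℕ) : 0 ≤ Z d a b R y s N := by
  rw [Z_eq P.hy]
  exact zm_nonneg _ _

theorem Z_mono {s t : ℝ} (h : s ≤ t) (N : ℕ) : Z d a b R y s N ≤ Z d a b R y t N := by
  rw [Z_eq P.hy, Z_eq P.hy]
  exact zm_mono ENNReal.ofReal_ne_top (Box_mono h) (volume_Box_ne _) N

theorem Z_le (s : ℝ) (N : ℕ) : Z d a b R y s N ≤
    Z d a b R y s 0 * ((volume (Box d s)).toReal ^ N / N.factorial) := by
  rw [Z_eq P.hy, Z_eq P.hy]
  exact zm_le ENNReal.ofReal_ne_top (volume_Box_ne _) N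

theorem Z_zero_le (s : ℝ) : Z d a b R y s 0 ≤ Real.exp (y * (volume (Box d s)).toReal) := by
  rw [Z_eq P.hy]
  have := zm_zero_le (a := a) (b := b) (R := R) (z := ENNReal.ofReal y) ENNReal.ofReal_ne_top
    (volume_Box_ne (d := d) s)
  rwa [ENNReal.toReal_ofReal P.hy] at this

theorem one_le_Z (s : ℝ) : 1 ≤ Z d a b R y s 0 := by
  rw [Z_eq P.hy]
  exact one_le_zm ENNReal.ofReal_ne_top (volume_Box_ne _)

theorem Z_ge (s : ℝ) (N : ℕ) :
    Z d a b R y s 0 * cr (volume : Measure (Fin d → ℝ)) (2 * a) N (Box d s) ≤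
      Real.exp (N * (y * (2 * R) ^ d)) * Z d a b R y s N := by
  rw [Z_eq P.hy, Z_eq P.hy]
  have := zm_ge (a := a) (b := b) (R := R) (z := ENNReal.ofReal y) ENNReal.ofReal_ne_top P.R_pos
    (measurableSet_Box (d := d) s) (volume_Box_ne (d := d) s) N
  rwa [ENNReal.toReal_ofReal P.hy] at this

end Par

theorem vol_toReal_le {s t : ℝ} (h : s ≤ t) (ht : 0 ≤ t) : (volume (Box d s)).toReal ≤ t ^ d := by
  rw [volume_Box, ENNReal.toReal_pow]
  refine pow_le_pow_left₀ ENNReal.toReal_nonneg ?_ d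
  rw [ENNReal.toReal_ofReal']
  exact max_le h ht

/-- The log of `x^N / N!`. -/
theorem pow_div_le_exp {x : ℝ} (hx : 0 ≤ x) (N : ℕ) : x ^ N / N.factorial ≤ Real.exp x := by
  have h1 := Real.sum_le_exp_of_nonneg hx (N + 1)
  refine le_trans ?_ h1
  exact single_le_sum (f := fun i => x ^ i / (i.factorial : ℝ)) (fun i _ => by positivity)
    (mem_range.2 (Nat.lt_succ_self N))

end CanM

open CanM

/-- Partition function of the box of side `L ℓ - R`: it is superadditive. -/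
noncomputable def Zt (d : ℕ) (a b R y ℓ : ℝ) (L N : ℕ) : ℝ := Z d a b R y (L * ℓ - R) N

variable {d : ℕ} {a b R y ℓ : ℝ}

/-- The logarithm of the partition function and the number of particles. -/
theorem log_Zt_le (P : Par a b R y) (hℓ : 0 < ℓ) (w : ℝ) (L N : ℕ)
    (hZ : 0 < Zt d a b R y ℓ L N) :
    Real.log (Zt d a b R y ℓ L N) + w * N ≤
      Real.log (Zt d a b R y ℓ L 0) + Real.exp w * (ℓ ^ d * (L : ℝ) ^ d) := by
  have hR := P.R_pos
  unfold Zt at hZ ⊢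
  have h1 := P.Z_le (d := d) (L * ℓ - R) N
  have h0 := P.one_le_Z (d := d) (L * ℓ - R)
  obtain ⟨V, hV⟩ : ∃ V : ℝ, V = (volume (Box d (L * ℓ - R))).toReal := ⟨_, rfl⟩
  have hV0 : 0 ≤ V := by rw [hV]; exact ENNReal.toReal_nonneg
  have hVl : V ≤ ℓ ^ d * (L : ℝ) ^ d := by
    rw [hV, ← mul_pow]
    exact vol_toReal_le (by linarith [mul_comm ℓ (L : ℝ)]) (by positivity)
  rw [← hV] at h1
  have h2 : Z d a b R y (L * ℓ - R) N * Real.exp (w * N) ≤
      Z d a b R y (L * ℓ - R) 0 * Real.exp (Real.exp w * (ℓ ^ d * (L : ℝ) ^ d)) := by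
    have h3 : Z d a b R y (L * ℓ - R) N * Real.exp (w * N) ≤
        Z d a b R y (L * ℓ - R) 0 * (V ^ N / N.factorial) * Real.exp (w * N) :=
      mul_le_mul_of_nonneg_right h1 (Real.exp_pos _).le
    refine h3.trans ?_
    have h4 : Z d a b R y (L * ℓ - R) 0 * (V ^ N / N.factorial) * Real.exp (w * N) =
        Z d a b R y (L * ℓ - R) 0 * ((Real.exp w * V) ^ N / N.factorial) := by
      rw [mul_pow, mul_comm w, Real.exp_nat_mul]
      ring
    rw [h4]
    refine mul_le_mul_of_nonneg_left ?_ (by linarith)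
    refine (pow_div_le_exp (by positivity) N).trans (Real.exp_le_exp.2 ?_)
    exact mul_le_mul_of_nonneg_left hVl (Real.exp_pos _).le
  have h5 := Real.log_le_log (by positivity) h2
  rwa [Real.log_mul hZ.ne' (Real.exp_pos _).ne', Real.log_mul (by linarith) (Real.exp_pos _).ne',
    Real.log_exp, Real.log_exp] at h5

theorem exists_thG (hd : 1 ≤ d) (P : Par a b R y) (hℓ : R < ℓ) :
    ∃ U B : ℝ, ThG d (Zt d a b R y ℓ) U B := by
  have hR := P.R_pos
  have hℓ0 : 0 < ℓ := by linarith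
  have hd' : (0 : ℝ) < d := by exact_mod_cast hd
  have ha := P.ha
  have hy := P.hy
  refine ⟨(y + 1) * ℓ ^ d, ((d : ℝ) / (2 * a) * ℓ + 1) ^ d, hd, ?_, ?_, ?_, ?_, ?_, ?_⟩
  · intro L1 k L l h1 h2 h3
    unfold Zt
    simp only [Z_eq hy]
    exact can_super ENNReal.ofReal_ne_top hR P.ha2 P.hb2 hℓ L1 k L l h1 h2 h3
  · intro L N M hMN
    unfold Zt
    rw [Z_eq hy, Z_eq hy, zm_pos_iff ENNReal.ofReal_ne_top (volume_Box_ne _),
      zm_pos_iff ENNReal.ofReal_ne_top (volume_Box_ne _)]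
    exact cr_pos_of_le _ _ (measurableSet_Box _) (volume_Box_ne _) hMN
  · intro L _
    exact P.one_le_Z _
  · intro L N
    exact P.Z_nonneg _ _
  · intro L N _ hZ
    have h1 := log_Zt_le P hℓ0 0 L N hZ
    rw [zero_mul, add_zero, Real.exp_zero, one_mul] at h1
    refine h1.trans ?_
    have h2 : Real.log (Zt d a b R y ℓ L 0) ≤ y * (ℓ ^ d * (L : ℝ) ^ d) := by
      have h3 := P.Z_zero_le (d := d) (L * ℓ - R)
      have h4 := Real.log_le_log (lt_of_lt_of_le one_pos (P.one_le_Z (d := d) (L * ℓ - R))) h3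
      rw [Real.log_exp] at h4
      refine h4.trans (mul_le_mul_of_nonneg_left ?_ hy)
      rw [← mul_pow]
      exact vol_toReal_le (by linarith [mul_comm ℓ (L : ℝ)]) (by positivity)
    have h5 : (y + 1) * ℓ ^ d * (L : ℝ) ^ d = y * (ℓ ^ d * (L : ℝ) ^ d) + ℓ ^ d * (L : ℝ) ^ d := by
      ring
    rw [h5]
    linarith
  · intro L N hL hp
    unfold Zt at hp
    rw [Z_eq hy, zm_pos_iff ENNReal.ofReal_ne_top (volume_Box_ne _)] at hp
    have h1 : (Pool.Agent.ConfinedGas.Cf (2 * a) (Fin N) (Box d (L * ℓ - R))).Nonempty := by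
      by_contra hcon
      rw [Set.not_nonempty_iff_eq_empty] at hcon
      unfold cr mC at hp
      rw [hcon, measure_empty] at hp
      simp at hp
    have h2 := card_box_le hd (by positivity) h1
    have hL' : (1 : ℝ) ≤ L := by exact_mod_cast hL
    obtain ⟨c, hc⟩ : ∃ c : ℝ, c = (d : ℝ) / (2 * a) := ⟨_, rfl⟩
    have hc0 : 0 < c := by rw [hc]; positivity
    rw [← hc] at h2 ⊢
    have h3 : ((⌈c * (L * ℓ - R)⌉₊ : ℕ) : ℝ) ≤ (c * ℓ + 1) * L := by
      have h4 : 0 ≤ c * (L * ℓ - R) := by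
        have : (1 : ℝ) * ℓ ≤ L * ℓ := mul_le_mul_of_nonneg_right hL' hℓ0.le
        refine mul_nonneg hc0.le (by linarith)
      have h5 := (Nat.ceil_lt_add_one h4).le
      refine h5.trans ?_
      have h6 : c * (L * ℓ - R) + 1 = c * ℓ * L + 1 - c * R := by ring
      rw [h6]
      have h7 : (c * ℓ + 1) * (L : ℝ) = c * ℓ * L + L := by ring
      rw [h7]
      have h8 : 0 ≤ c * R := by positivity
      linarith
    have h4 : (N : ℝ) ≤ ((⌈c * (L * ℓ - R)⌉₊ : ℕ) : ℝ) ^ d := by exact_mod_cast h2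
    rw [← mul_pow]
    exact h4.trans (pow_le_pow_left₀ (by positivity) h3 d)

/-- Adding a particle. -/
theorem insert_le (P : Par a b R y) :
    ∃ v : ℝ, 0 < v ∧ ∀ L N K' : ℕ, 1 ≤ L → (∀ n, 0 < Zt d a b R y ℓ L n → n ≤ K') → N ≤ K' →
      ((N : ℝ) + 1) * Zt d a b R y ℓ L (N + 1) ≤
        v * ((K' : ℝ) - N) * Zt d a b R y ℓ L N := by
  have ha := P.ha
  have hy := P.hy
  refine ⟨(2 * (2 * a)) ^ d, by positivity, fun L N K' hL hK' hN => ?_⟩
  unfold Zt at hK' ⊢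
  simp only [Z_eq hy] at hK' ⊢
  have hz : ENNReal.ofReal y ≠ ⊤ := ENNReal.ofReal_ne_top
  have hK'' : ∀ n, 0 < mC (volume : Measure (Fin d → ℝ)) (2 * a) (Fin n)
      (Box d (L * ℓ - R)) → n ≤ K' := by
    intro n hn
    refine hK' n ((zm_pos_iff hz (volume_Box_ne _) n).2 ?_)
    unfold cr
    have h1 := ENNReal.toReal_pos hn.ne' (mC_ne_top volume (2 * a) (volume_Box_ne _) n)
    positivity
  have h := WM_insert (b := b) (R := R) (z := ENNReal.ofReal y) ha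
    (measurableSet_Box (d := d) (L * ℓ - R)) hK'' hN
  have hne : (((K' - N : ℕ) : ENNReal) * ENNReal.ofReal (2 * (2 * a)) ^ d) *
      WM a b R (ENNReal.ofReal y) (Fin N) (Box d (L * ℓ - R)) ≠ ⊤ :=
    ENNReal.mul_ne_top (ENNReal.mul_ne_top (ENNReal.natCast_ne_top _)
      (ENNReal.pow_ne_top ENNReal.ofReal_ne_top)) (WM_ne_top hz (volume_Box_ne _))
  have h1 := ENNReal.toReal_mono hne h
  rw [ENNReal.toReal_mul, ENNReal.toReal_mul, ENNReal.toReal_natCast,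
    ENNReal.toReal_pow, ENNReal.toReal_ofReal (by positivity), Nat.cast_sub hN] at h1
  unfold zm
  have h2 : (((N + 1).factorial : ℝ))⁻¹ = ((N : ℝ) + 1)⁻¹ * ((N.factorial : ℝ))⁻¹ := by
    rw [Nat.factorial_succ]
    push_cast
    rw [mul_inv]
  have h3 : (0 : ℝ) < (N : ℝ) + 1 := by positivity
  rw [h2]
  calc ((N : ℝ) + 1) * (((N : ℝ) + 1)⁻¹ * ((N.factorial : ℝ))⁻¹ *
        (WM a b R (ENNReal.ofReal y) (Fin (N + 1)) (Box d (L * ℓ - R))).toReal)
      = ((N.factorial : ℝ))⁻¹ *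
        (WM a b R (ENNReal.ofReal y) (Fin (N + 1)) (Box d (L * ℓ - R))).toReal := by
        field_simp
    _ ≤ ((N.factorial : ℝ))⁻¹ * ((((K' : ℝ) - N) * (2 * (2 * a)) ^ d) *
        (WM a b R (ENNReal.ofReal y) (Fin N) (Box d (L * ℓ - R))).toReal) :=
        mul_le_mul_of_nonneg_left h1 (by positivity)
    _ = _ := by ring

end Pool.Agent.Mix
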