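import Pool.Agent.Lib.MP_09cbbd_mx.CanC

/-!
# From a kink of the pressure to the transition
-/

set_option autoImplicit false

namespace Pool.Agent.Mix

open MeasureTheory Finset Filter Topology Pool.Agent.StableGas Pool.Agent.SquareWellGas
  Pool.Agent.SquareWell Pool.Agent.MixGas CanM

namespace CanM

variable {d : ℕ} {a b R : ℝ}

theorem Xi_z0 (m : Measure (Fin d → ℝ)) [SigmaFinite m] (D : ℝ) (A : Set (Fin d → ℝ)) :
    Xi m D 0 A = 1 := by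
  unfold Xi
  rw [tsum_eq_single 0]
  · rw [mC_zero]
    simp
  · intro N hN
    rw [zero_pow hN, zero_mul, zero_mul]

theorem zm_z0 (A : Set (Fin d → ℝ)) (N : ℕ) :
    zm a b R 0 A N = cr (volume : Measure (Fin d → ℝ)) (2 * a) N A := by
  unfold zm cr WM wB
  simp only [Xi_z0]
  rw [lintegral_one, Measure.restrict_apply_univ]
  rfl

end CanM

variable {d : ℕ} {a b R y ℓ : ℝ}

/-- Lower bound for the hard-sphere gas. -/
theorem hs_low (hd : 1 ≤ d) (P : Par a b R y) (hℓ : R < ℓ) (μ : ℝ) :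
    ∃ L1 : ℕ, 1 ≤ L1 ∧ ∀ k : ℕ, Real.exp ((k : ℝ) ^ d) ≤ Real.exp (μ * (k : ℝ) ^ d) *
      cr (volume : Measure (Fin d → ℝ)) (2 * a) (k ^ d) (Box d (((k * L1 : ℕ) : ℝ) * ℓ - R)) := by
  have hR := P.R_pos
  have hℓ0 : 0 < ℓ := by linarith
  obtain ⟨n, hn⟩ := exists_nat_gt ((Real.exp (1 - μ) + 1 + R) / ℓ)
  rw [div_lt_iff₀ hℓ0] at hn
  have he := Real.exp_pos (1 - μ)
  have hn0 : 1 ≤ n := by
    rcases Nat.eq_zero_or_pos n with h | h
    · rw [h] at hn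
      simp at hn
      linarith
    · exact h
  refine ⟨n, hn0, fun k => ?_⟩
  have h1 := can_super (d := d) (a := a) (b := b) (R := R) (z := 0) (by simp) hR P.ha2 P.hb2 hℓ n k
    (k * n) (List.replicate (k ^ d) 1) hn0 le_rfl (by rw [List.length_replicate])
  rw [List.map_replicate, List.prod_replicate, List.sum_replicate, smul_eq_mul, mul_one] at h1
  simp only [zm_z0, cr_one] at h1
  have h2 : Real.exp (1 - μ) ≤ (volume (Box d ((n : ℝ) * ℓ - R))).toReal := by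
    rw [volume_Box, ENNReal.toReal_pow, ENNReal.toReal_ofReal (by linarith)]
    have h3 : (1 : ℝ) ≤ n * ℓ - R := by linarith
    refine le_trans ?_ (le_self_pow₀ h3 (by omega))
    linarith
  have h4 : Real.exp (1 - μ) ^ (k ^ d) ≤ cr (volume : Measure (Fin d → ℝ)) (2 * a) (k ^ d)
      (Box d (((k * n : ℕ) : ℝ) * ℓ - R)) :=
    (pow_le_pow_left₀ he.le h2 _).trans h1
  have h5 : Real.exp ((k : ℝ) ^ d) = Real.exp (μ * (k : ℝ) ^ d) * Real.exp (1 - μ) ^ (k ^ d) := by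
    rw [← Real.exp_nat_mul, ← Real.exp_add]
    congr 1
    push_cast
    ring
  rw [h5]
  exact mul_le_mul_of_nonneg_left h4 (Real.exp_pos _).le

/-- The pressure is greater than the pressure of the second species alone. -/
theorem p_gt (hd : 1 ≤ d) (P : Par a b R y) (hℓ : R < ℓ) {w p : ℝ}
    (hpu : ∀ L N : ℕ, 1 ≤ L → 0 < Zt d a b R y ℓ L N →
      Real.log (Zt d a b R y ℓ L N) + w * N ≤ p * (L : ℝ) ^ d) :
    ∃ η : ℝ, 0 < η ∧ ∀ L : ℕ, 1 ≤ L → Real.log (Zt d a b R y ℓ L 0) ≤ (p - η) * (L : ℝ) ^ d := by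
  obtain ⟨U, B, T⟩ := exists_thG hd P hℓ
  obtain ⟨n, hn, h⟩ := hs_low hd P hℓ (w - y * (2 * R) ^ d)
  have hn' : (0 : ℝ) < n := by exact_mod_cast hn
  have hz0 : ∀ L, 0 < Zt d a b R y ℓ L 0 := fun L => lt_of_lt_of_le one_pos (P.one_le_Z _)
  have key : ∀ k : ℕ, 1 ≤ k → Real.log (Zt d a b R y ℓ (k * n) 0) ≤
      (p - 1 / (n : ℝ) ^ d) * ((k * n : ℕ) : ℝ) ^ d := by
    intro k hk
    have hk' : (0 : ℝ) < k := by exact_mod_cast hk
    have h1 := h k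
    have h2 := P.Z_ge (d := d) (((k * n : ℕ) : ℝ) * ℓ - R) (k ^ d)
    obtain ⟨c, hc⟩ : ∃ c, c = cr (volume : Measure (Fin d → ℝ)) (2 * a) (k ^ d)
      (Box d (((k * n : ℕ) : ℝ) * ℓ - R)) := ⟨_, rfl⟩
    rw [← hc] at h1 h2
    have h3 : Real.exp ((k : ℝ) ^ d) * Zt d a b R y ℓ (k * n) 0 ≤
        Real.exp (w * (k : ℝ) ^ d) * Zt d a b R y ℓ (k * n) (k ^ d) := by
      calc Real.exp ((k : ℝ) ^ d) * Zt d a b R y ℓ (k * n) 0
          ≤ Real.exp ((w - y * (2 * R) ^ d) * (k : ℝ) ^ d) * c * Zt d a b R y ℓ (k * n) 0 :=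
            mul_le_mul_of_nonneg_right h1 (hz0 _).le
        _ = Real.exp ((w - y * (2 * R) ^ d) * (k : ℝ) ^ d) * (Zt d a b R y ℓ (k * n) 0 * c) := by
            ring
        _ ≤ Real.exp ((w - y * (2 * R) ^ d) * (k : ℝ) ^ d) *
            (Real.exp (((k ^ d : ℕ) : ℝ) * (y * (2 * R) ^ d)) * Zt d a b R y ℓ (k * n) (k ^ d)) :=
            mul_le_mul_of_nonneg_left h2 (Real.exp_pos _).le
        _ = _ := by
            rw [← mul_assoc, ← Real.exp_add]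
            congr 2
            push_cast
            ring
    have hpos : 0 < Zt d a b R y ℓ (k * n) (k ^ d) := by
      have h4 : 0 < Real.exp ((k : ℝ) ^ d) * Zt d a b R y ℓ (k * n) 0 :=
        mul_pos (Real.exp_pos _) (hz0 _)
      exact pos_of_mul_pos_right (lt_of_lt_of_le h4 h3) (Real.exp_pos _).le
    have h5 := Real.log_le_log (mul_pos (Real.exp_pos _) (hz0 _)) h3
    rw [Real.log_mul (Real.exp_pos _).ne' (hz0 _).ne', Real.log_mul (Real.exp_pos _).ne' hpos.ne',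
      Real.log_exp, Real.log_exp] at h5
    have h6 := hpu (k * n) (k ^ d) (Nat.one_le_iff_ne_zero.2 (by positivity)) hpos
    push_cast at h6 ⊢
    have h7 : (p - 1 / (n : ℝ) ^ d) * ((k : ℝ) * n) ^ d = p * ((k : ℝ) * n) ^ d - (k : ℝ) ^ d := by
      rw [mul_pow]
      field_simp
    rw [h7]
    linarith
  refine ⟨1 / (n : ℝ) ^ d, by positivity, fun L hL => ?_⟩
  have h1 := T.sup L n (L * n) (List.replicate (n ^ d) 0) hL (by rw [mul_comm])
    (by rw [List.length_replicate])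
  rw [List.map_replicate, List.prod_replicate, List.sum_replicate, smul_zero] at h1
  have h2 := Real.log_le_log (pow_pos (hz0 L) _) h1
  rw [Real.log_pow] at h2
  have h3 := h2.trans (key L hL)
  push_cast at h3
  rw [mul_pow, ← mul_assoc, mul_comm ((n : ℝ) ^ d)] at h3
  exact le_of_mul_le_mul_right h3 (by positivity)

/-- Low chemical potentials. -/
theorem hlow_of (hd : 1 ≤ d) (P : Par a b R y) (hℓ : R < ℓ) {w p : ℝ}
    (hpu : ∀ L N : ℕ, 1 ≤ L → 0 < Zt d a b R y ℓ L N →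
      Real.log (Zt d a b R y ℓ L N) + w * N ≤ p * (L : ℝ) ^ d) :
    ∃ w' q : ℝ, q < p ∧ ∀ L N : ℕ, 1 ≤ L → 0 < Zt d a b R y ℓ L N →
      Real.log (Zt d a b R y ℓ L N) + w' * N ≤ q * (L : ℝ) ^ d := by
  obtain ⟨η, hη, h⟩ := p_gt hd P hℓ hpu
  have hR := P.R_pos
  have hℓ0 : 0 < ℓ := by linarith
  have hV : 0 < ℓ ^ d := by positivity
  refine ⟨Real.log (η / 2 / ℓ ^ d), p - η / 2, by linarith, fun L N hL hZ => ?_⟩
  have h1 := log_Zt_le P hℓ0 (Real.log (η / 2 / ℓ ^ d)) L N hZ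
  have h2 := h L hL
  rw [Real.exp_log (by positivity)] at h1
  have h3 : η / 2 / ℓ ^ d * (ℓ ^ d * (L : ℝ) ^ d) = η / 2 * (L : ℝ) ^ d := by
    field_simp
  rw [h3] at h1
  have h4 : (p - η / 2) * (L : ℝ) ^ d = (p - η) * (L : ℝ) ^ d + η / 2 * (L : ℝ) ^ d := by ring
  rw [h4]
  linarith

/-- The notion of a transition for a system of partition functions. -/
def Trans (d : ℕ) (Y : ℝ → ℕ → ℝ) (ρ₀ m1 m2 : ℝ) : Prop :=
  ∃ (f : ℝ → ℝ) (ρ₁ ρ₂ c e : ℝ), 0 < ρ₁ ∧ ρ₁ < ρ₂ ∧ ρ₂ < ρ₀ ∧ ρ₁ ≤ m1 ∧ m2 ≤ ρ₂ ∧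
    (∀ (ℓ : ℕ → ℝ) (N : ℕ → ℕ) (ρ : ℝ), Tendsto ℓ atTop atTop →
      Tendsto (fun j => (N j : ℝ) / ℓ j ^ d) atTop (𝓝 ρ) →
      (ρ ∈ Set.Ioo 0 ρ₀ → (∀ᶠ j in atTop, 0 < Y (ℓ j) (N j)) ∧
        Tendsto (fun j => Real.log (Y (ℓ j) (N j)) / ℓ j ^ d) atTop (𝓝 (f ρ))) ∧
      (ρ₀ < ρ → ∀ᶠ j in atTop, Y (ℓ j) (N j) = 0)) ∧
    (∀ ρ ∈ Set.Ioo 0 ρ₀, f ρ ≤ c * ρ + e ∧ (f ρ = c * ρ + e ↔ ρ ∈ Set.Icc ρ₁ ρ₂)) ∧
    ¬ AnalyticAt ℝ f ρ₁ ∧ ¬ AnalyticAt ℝ f ρ₂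

/-- Analyticity of the free energy at the other scale. -/
theorem analytic_scale {f : ℝ → ℝ} {V ρ : ℝ} (hV : 0 < V)
    (h : AnalyticAt ℝ (fun x => f (x * V) / V) (ρ / V)) : AnalyticAt ℝ f ρ := by
  have g1 : AnalyticAt ℝ (fun x : ℝ => x / V) ρ := analyticAt_id.div_const
  have g2 : AnalyticAt ℝ (fun x : ℝ => f (x / V * V) / V) ρ :=
    AnalyticAt.fun_comp (f := fun x : ℝ => x / V) (g := fun x : ℝ => f (x * V) / V) h g1
  have g3 : AnalyticAt ℝ (fun x : ℝ => V * (f (x / V * V) / V)) ρ :=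
    analyticAt_const.mul g2
  refine g3.congr (Eventually.of_forall fun x => ?_)
  simp only
  rw [div_mul_cancel₀ _ hV.ne']
  field_simp

theorem Trans.scale {Y : ℝ → ℕ → ℝ} {s ρ₀ m1 m2 : ℝ} (hs0 : 0 < s)
    (h : Trans d (fun t N => Y (t * s) N) ρ₀ m1 m2) :
    Trans d Y (ρ₀ / s ^ d) (m1 / s ^ d) (m2 / s ^ d) := by
  obtain ⟨f, ρ₁, ρ₂, μ, e, h1, h2, h3, h31, h32, h4, h5, h6, h7⟩ := h
  have hsd : 0 < s ^ d := by positivity
  refine ⟨fun ρ => f (ρ * s ^ d) / s ^ d,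
    ρ₁ / s ^ d, ρ₂ / s ^ d, μ, e / s ^ d, by positivity, ?_, ?_, ?_, ?_, ?_,
    ?_, fun hh => h6 (analytic_scale hsd hh), fun hh => h7 (analytic_scale hsd hh)⟩
  · gcongr
  · gcongr
  · gcongr
  · gcongr
  · intro ℓ N ρ hℓ hN
    have hu : Tendsto (fun j => ℓ j / s) atTop atTop := hℓ.atTop_div_const hs0
    have hNu : Tendsto (fun j => (N j : ℝ) / (ℓ j / s) ^ d) atTop (𝓝 (ρ * s ^ d)) := by
      refine (hN.mul_const (s ^ d)).congr fun j => ?_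
      rw [div_pow, div_div_eq_mul_div]
      ring
    obtain ⟨g1, g2⟩ := h4 _ N _ hu hNu
    simp only [div_mul_cancel₀ _ hs0.ne'] at g1 g2
    constructor
    · rintro ⟨hρ0, hρ1⟩
      rw [lt_div_iff₀ hsd] at hρ1
      obtain ⟨g3, g4⟩ := g1 ⟨mul_pos hρ0 hsd, hρ1⟩
      refine ⟨g3, ?_⟩
      have g5 := g4.div_const (s ^ d)
      refine g5.congr' ?_
      filter_upwards [hℓ.eventually_gt_atTop 0] with j hj0
      rw [div_pow]
      field_simp
    · intro hρ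
      rw [div_lt_iff₀ hsd] at hρ
      exact g2 hρ
  · rintro ρ ⟨hρ0, hρ1⟩
    rw [lt_div_iff₀ hsd] at hρ1
    obtain ⟨g1, g2⟩ := h5 (ρ * s ^ d) ⟨mul_pos hρ0 hsd, hρ1⟩
    have e1 : μ * ρ + e / s ^ d = (μ * (ρ * s ^ d) + e) / s ^ d := by
      field_simp
    have e2 : ρ ∈ Set.Icc (ρ₁ / s ^ d) (ρ₂ / s ^ d) ↔ ρ * s ^ d ∈ Set.Icc ρ₁ ρ₂ := by
      rw [Set.mem_Icc, Set.mem_Icc, div_le_iff₀ hsd, le_div_iff₀ hsd]
    rw [e1, e2, ← g2]
    simp only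
    rw [div_le_div_iff_of_pos_right hsd, div_left_inj' hsd.ne']
    exact ⟨g1, Iff.rfl⟩

theorem log_affine_div (hd : 1 ≤ d) (s t : ℝ) (hs : 0 < s) (ht : 0 < t) :
    Tendsto (fun L : ℕ => Real.log (s * (L : ℝ) ^ d + t) / (L : ℝ) ^ d) atTop (𝓝 0) := by
  have hinf := Pool.Agent.ConfinedGas.tendsto_vol (d := d) hd
  have h1 : Tendsto (fun y : ℝ => Real.log y / y) atTop (𝓝 0) := by
    have := Real.isLittleO_log_id_atTop.tendsto_div_nhds_zero
    simpa using this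
  have h2 : Tendsto (fun L : ℕ => s * (L : ℝ) ^ d + t) atTop atTop :=
    tendsto_atTop_add_const_right _ _ (hinf.const_mul_atTop hs)
  have h3 := h1.comp h2
  have h4 : Tendsto (fun L : ℕ => (s * (L : ℝ) ^ d + t) / (L : ℝ) ^ d) atTop (𝓝 s) := by
    have h5 : Tendsto (fun L : ℕ => s + t / (L : ℝ) ^ d) atTop (𝓝 (s + 0)) :=
      (hinf.const_div_atTop t).const_add s
    rw [add_zero] at h5
    refine h5.congr' ?_
    filter_upwards [eventually_ge_atTop 1] with L hL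
    have : (0 : ℝ) < L := by exact_mod_cast hL
    field_simp
  have h6 := h3.mul h4
  rw [zero_mul] at h6
  refine h6.congr' ?_
  filter_upwards [eventually_ge_atTop 1] with L hL
  have : (0 : ℝ) < L := by exact_mod_cast hL
  simp only [Function.comp]
  have h7 : (0 : ℝ) < s * (L : ℝ) ^ d + t := by positivity
  field_simp

/-- The limit along real side lengths. -/
theorem trans_of (P : Par a b R y) {U B : ℝ} (hℓ : R < ℓ)
    (T : ThG d (Zt d a b R y ℓ) U B) {ρ₁ ρ₂ c e m1 m2 : ℝ}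
    (h1 : 0 < ρ₁) (h2 : ρ₁ < ρ₂) (h3 : ρ₂ < Th.rz d (Zt d a b R y ℓ)) (h31 : ρ₁ ≤ m1)
    (h32 : m2 ≤ ρ₂)
    (h4 : ∀ ρ ∈ Set.Ioo 0 (Th.rz d (Zt d a b R y ℓ)), Th.ff d (Zt d a b R y ℓ) ρ ≤ c * ρ + e ∧
        (Th.ff d (Zt d a b R y ℓ) ρ = c * ρ + e ↔ ρ ∈ Set.Icc ρ₁ ρ₂))
    (h5 : ¬ AnalyticAt ℝ (Th.ff d (Zt d a b R y ℓ)) ρ₁)
    (h6 : ¬ AnalyticAt ℝ (Th.ff d (Zt d a b R y ℓ)) ρ₂) :
    Trans d (fun t N => Z d a b R y (t * ℓ) N) (Th.rz d (Zt d a b R y ℓ)) m1 m2 := by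
  have hR := P.R_pos
  have hℓ0 : 0 < ℓ := by linarith
  refine ⟨_, ρ₁, ρ₂, c, e, h1, h2, h3, h31, h32, ?_, h4, h5, h6⟩
  intro u N ρ hu hN
  obtain ⟨t, ht⟩ : ∃ t : ℕ → ℝ, t = fun j => u j - 1 + R / ℓ := ⟨_, rfl⟩
  have htu : Tendsto t atTop atTop := by
    rw [ht]
    exact tendsto_atTop_add_const_right _ _ (tendsto_atTop_add_const_right _ _ hu)
  have hratio : Tendsto (fun j => t j / u j) atTop (𝓝 1) := by
    have g1 : Tendsto (fun j => 1 + (-1 + R / ℓ) / u j) atTop (𝓝 (1 + 0)) :=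
      (hu.const_div_atTop _).const_add 1
    rw [add_zero] at g1
    refine g1.congr' ?_
    filter_upwards [hu.eventually_gt_atTop 0] with j hj
    rw [ht]
    field_simp
    ring
  have hratio' : Tendsto (fun j => (t j / u j) ^ d) atTop (𝓝 1) := by
    have := hratio.pow d
    rwa [one_pow] at this
  have hNt : Tendsto (fun j => (N j : ℝ) / t j ^ d) atTop (𝓝 ρ) := by
    have g1 := hN.div hratio' one_ne_zero
    rw [div_one] at g1
    refine g1.congr' ?_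
    filter_upwards [hu.eventually_gt_atTop 0, htu.eventually_gt_atTop 0] with j hj hj'
    simp only [Pi.div_apply]
    rw [div_pow]
    field_simp
  have hZr : ∀ j, Z d a b R y (u j * ℓ) (N j) =
      (fun (t : ℝ) (N : ℕ) => Z d a b R y ((t + 1) * ℓ - R) N) (t j) (N j) := by
    intro j
    simp only
    congr 1
    rw [ht]
    field_simp
    ring
  have hr1 : ∀ t : ℝ, 0 ≤ t → ∀ N, Zt d a b R y ℓ (⌊t⌋₊ + 1) N ≤
      (fun (t : ℝ) (N : ℕ) => Z d a b R y ((t + 1) * ℓ - R) N) t N := by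
    intro t ht N
    refine P.Z_mono ?_ N
    have := Nat.floor_le ht
    push_cast
    have : ((⌊t⌋₊ : ℝ) + 1) * ℓ ≤ (t + 1) * ℓ := mul_le_mul_of_nonneg_right (by linarith) hℓ0.le
    linarith
  have hr2 : ∀ t : ℝ, 0 ≤ t → ∀ N,
      (fun (t : ℝ) (N : ℕ) => Z d a b R y ((t + 1) * ℓ - R) N) t N ≤
        Zt d a b R y ℓ (⌊t⌋₊ + 2) N := by
    intro t _ N
    refine P.Z_mono ?_ N
    have := (Nat.lt_floor_add_one t).le
    push_cast
    have : (t + 1) * ℓ ≤ ((⌊t⌋₊ : ℝ) + 2) * ℓ := mul_le_mul_of_nonneg_right (by linarith) hℓ0.le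
    linarith
  constructor
  · rintro ⟨g0, g1⟩
    obtain ⟨g2, g3⟩ := T.seq hr1 hr2 htu hNt g0 g1
    refine ⟨?_, ?_⟩
    · filter_upwards [g2] with j hj
      rw [hZr]
      exact hj
    · have g4 := g3.mul hratio'
      rw [mul_one] at g4
      refine g4.congr' ?_
      filter_upwards [hu.eventually_gt_atTop 0, htu.eventually_gt_atTop 0] with j hj hj'
      rw [hZr, div_pow]
      field_simp
  · intro g
    have g1 := T.seq_zero (fun t N => P.Z_nonneg _ N) hr2 htu hNt g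
    filter_upwards [g1] with j hj
    rw [hZr]
    exact hj

/-- The pressure and the canonical partition functions. -/
theorem ensembles (hd : 1 ≤ d) (P : Par a b R y) {l0 : ℝ} {K0 : ℕ} (hK0pos : 1 ≤ K0)
    (hK : R < K0 * l0) {q : ℝ → ℝ}
    (hlimq : ∀ μ : ℝ, Tendsto (fun L : ℕ => Real.log (∑' n : ℕ, ex (μ * n) *
      ENNReal.ofReal (Z d a b R y (L * l0) n)).toReal / (L : ℝ) ^ d) atTop (𝓝 (q μ))) :
    (∀ (μ : ℝ) (L N : ℕ), 1 ≤ L → 0 < Zt d a b R y (K0 * l0) L N →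
      Real.log (Zt d a b R y (K0 * l0) L N) + μ * N ≤ (K0 : ℝ) ^ d * q μ * (L : ℝ) ^ d) ∧
    ∀ (μ ε : ℝ), 0 < ε → ∃ L N : ℕ, 1 ≤ L ∧ 0 < Zt d a b R y (K0 * l0) L N ∧
      ((K0 : ℝ) ^ d * q μ - ε) * (L : ℝ) ^ d ≤ Real.log (Zt d a b R y (K0 * l0) L N) + μ * N := by
  classical
  have hR := P.R_pos
  have hK0' : (0 : ℝ) < K0 := by exact_mod_cast hK0pos
  obtain ⟨ℓ, hℓe⟩ : ∃ ℓ : ℝ, ℓ = K0 * l0 := ⟨_, rfl⟩
  rw [← hℓe] at hK ⊢
  have hℓ0 : 0 < ℓ := by linarith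
  obtain ⟨p, hpe⟩ : ∃ p : ℝ → ℝ, p = fun μ => (K0 : ℝ) ^ d * q μ := ⟨_, rfl⟩
  have hpe' : ∀ μ, (K0 : ℝ) ^ d * q μ = p μ := fun μ => by rw [hpe]
  simp only [hpe']
  have hlim : ∀ μ : ℝ, Tendsto (fun L : ℕ => Real.log (∑' n : ℕ, ex (μ * n) *
      ENNReal.ofReal (Z d a b R y (L * ℓ) n)).toReal / (L : ℝ) ^ d) atTop (𝓝 (p μ)) := by
    intro μ
    have hk : Tendsto (fun L : ℕ => L * K0) atTop atTop :=
      tendsto_id.atTop_mul_const' (by omega)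
    have h1 := ((hlimq μ).comp hk).const_mul ((K0 : ℝ) ^ d)
    rw [hpe]
    refine h1.congr fun L => ?_
    simp only [Function.comp]
    have h2 : (((L * K0 : ℕ) : ℝ)) * l0 = L * ℓ := by rw [hℓe]; push_cast; ring
    rw [h2]
    push_cast
    rw [mul_pow]
    field_simp
  obtain ⟨U, B, T⟩ := exists_thG hd P hK
  -- elementary facts
  have hup : ∀ L n : ℕ, Z d a b R y (L * ℓ) n ≤ Zt d a b R y ℓ (L + 1) n := by
    intro L n
    refine P.Z_mono ?_ n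
    push_cast
    linarith
  have hlo : ∀ L n : ℕ, Zt d a b R y ℓ L n ≤ Z d a b R y (L * ℓ) n := by
    intro L n
    exact P.Z_mono (by linarith) n
  have hB0 : 0 ≤ B := by
    have h1 := T.fin 1 0 le_rfl (lt_of_lt_of_le one_pos (T.zero 1 le_rfl))
    simpa using h1
  have hZ0 : ∀ L n : ℕ, 0 ≤ Z d a b R y (L * ℓ) n := fun L n => P.Z_nonneg _ n
  obtain ⟨Q, hQ⟩ : ∃ Q : ℕ → ℕ, Q = fun L : ℕ => ⌊B * ((L : ℝ) + 1) ^ d⌋₊ := ⟨_, rfl⟩
  have hzero : ∀ L n : ℕ, n ∉ Finset.range (Q L + 1) → Z d a b R y (L * ℓ) n = 0 := by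
    intro L n hn
    rw [Finset.mem_range, not_lt] at hn
    by_contra hcon
    have h1 : 0 < Zt d a b R y ℓ (L + 1) n :=
      lt_of_lt_of_le (lt_of_le_of_ne (hZ0 L n) (Ne.symm hcon)) (hup L n)
    have h2 := T.fin (L + 1) n (by omega) h1
    push_cast at h2
    have h3 : n ≤ ⌊B * ((L : ℝ) + 1) ^ d⌋₊ := Nat.le_floor h2
    have h4 : Q L = ⌊B * ((L : ℝ) + 1) ^ d⌋₊ := by rw [hQ]
    omega
  -- the partition functions
  obtain ⟨S, hS⟩ : ∃ S : ℝ → ℕ → ℝ, S = fun (μ : ℝ) (L : ℕ) => ∑ n ∈ Finset.range (Q L + 1),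
    Real.exp (μ * n) * Z d a b R y (L * ℓ) n := ⟨_, rfl⟩
  have hSeq : ∀ (μ : ℝ) (L : ℕ), (∑' n : ℕ, ex (μ * n) *
      ENNReal.ofReal (Z d a b R y (L * ℓ) n)).toReal = S μ L := by
    intro μ L
    rw [tsum_eq_sum (s := Finset.range (Q L + 1)) (fun n hn => by
      rw [hzero L n hn, ENNReal.ofReal_zero, mul_zero]), ENNReal.toReal_sum (fun n _ =>
      ENNReal.mul_ne_top (ex_ne_top _) ENNReal.ofReal_ne_top), hS]
    refine Finset.sum_congr rfl fun n _ => ?_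
    rw [ENNReal.toReal_mul, ex_toReal, ENNReal.toReal_ofReal (hZ0 L n)]
  have hlim' : ∀ μ : ℝ, Tendsto (fun L : ℕ => Real.log (S μ L) / (L : ℝ) ^ d) atTop
      (𝓝 (p μ)) := by
    intro μ
    refine (hlim μ).congr fun L => ?_
    rw [hSeq]
  have hterm0 : ∀ (μ : ℝ) (L n : ℕ), 0 ≤ Real.exp (μ * n) * Z d a b R y (L * ℓ) n :=
    fun μ L n => mul_nonneg (Real.exp_pos _).le (hZ0 L n)
  have hSterm : ∀ (μ : ℝ) (L n : ℕ), Real.exp (μ * n) * Z d a b R y (L * ℓ) n ≤ S μ L := by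
    intro μ L n
    rw [hS]
    by_cases hn : n ∈ Finset.range (Q L + 1)
    · exact Finset.single_le_sum
        (f := fun n : ℕ => Real.exp (μ * n) * Z d a b R y (L * ℓ) n)
        (fun n _ => hterm0 μ L n) hn
    · rw [hzero L n hn, mul_zero]
      exact Finset.sum_nonneg fun n _ => hterm0 μ L n
  have hSpos : ∀ μ L, 0 < S μ L := by
    intro μ L
    have h1 := hSterm μ L 0
    have h2 : 1 ≤ Z d a b R y (L * ℓ) 0 := P.one_le_Z _
    have h3 : Real.exp (μ * (0 : ℕ)) = 1 := by simp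
    rw [h3, one_mul] at h1
    linarith
  have hSmax : ∀ (μ : ℝ) (L : ℕ), ∃ N' : ℕ, S μ L ≤ (B * ((L : ℝ) + 1) ^ d + 1) *
      (Real.exp (μ * N') * Z d a b R y (L * ℓ) N') := by
    intro μ L
    obtain ⟨N', _, hN'⟩ := Finset.exists_max_image (Finset.range (Q L + 1))
      (fun n : ℕ => Real.exp (μ * n) * Z d a b R y (L * ℓ) n)
      ⟨0, Finset.mem_range.2 (Nat.succ_pos _)⟩
    refine ⟨N', ?_⟩
    have h1 := Finset.sum_le_card_nsmul (Finset.range (Q L + 1))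
      (fun n : ℕ => Real.exp (μ * n) * Z d a b R y (L * ℓ) n) _ hN'
    rw [Finset.card_range, nsmul_eq_mul] at h1
    rw [hS]
    refine h1.trans (mul_le_mul_of_nonneg_right ?_ (hterm0 μ L N'))
    push_cast
    have h2 : (Q L : ℝ) ≤ B * ((L : ℝ) + 1) ^ d := by
      rw [hQ]
      exact Nat.floor_le (by positivity)
    linarith
  -- the upper bound
  have hpu : ∀ (μ : ℝ) (L N : ℕ), 1 ≤ L → 0 < Zt d a b R y ℓ L N →
      Real.log (Zt d a b R y ℓ L N) + μ * N ≤ p μ * (L : ℝ) ^ d := by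
    intro μ L N hL h0
    have hL' : (0 : ℝ) < L := by exact_mod_cast hL
    have hLd : (0 : ℝ) < (L : ℝ) ^ d := by positivity
    rw [← div_le_iff₀ hLd]
    have hk : Tendsto (fun k : ℕ => k * L) atTop atTop :=
      tendsto_id.atTop_mul_const' (by omega)
    refine ge_of_tendsto ((hlim' μ).comp hk) ?_
    filter_upwards [eventually_ge_atTop 1] with k hk1
    have hk' : (0 : ℝ) < k := by exact_mod_cast hk1
    simp only [Function.comp]
    have h4 := T.sup L k (k * L) (List.replicate (k ^ d) N) hL le_rfl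
      (by rw [List.length_replicate])
    rw [List.map_replicate, List.prod_replicate, List.sum_replicate, smul_eq_mul] at h4
    have h5 := h4.trans (hlo (k * L) (k ^ d * N))
    have h6 := hSterm μ (k * L) (k ^ d * N)
    have h7 : Real.exp (μ * ((k ^ d * N : ℕ) : ℝ)) * Zt d a b R y ℓ L N ^ k ^ d ≤ S μ (k * L) :=
      (mul_le_mul_of_nonneg_left h5 (Real.exp_pos _).le).trans h6
    have h8 := Real.log_le_log (by positivity) h7
    rw [Real.log_mul (Real.exp_pos _).ne' (pow_pos h0 _).ne', Real.log_exp,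
      Real.log_pow] at h8
    rw [div_le_div_iff₀ hLd (by positivity)]
    push_cast at h8 ⊢
    have h9 : (Real.log (Zt d a b R y ℓ L N) + μ * N) * ((k : ℝ) * L) ^ d =
        (μ * ((k : ℝ) ^ d * N) + (k : ℝ) ^ d * Real.log (Zt d a b R y ℓ L N)) * (L : ℝ) ^ d := by
      rw [mul_pow]; ring
    rw [h9]
    exact mul_le_mul_of_nonneg_right h8 hLd.le
  -- the lower bound
  have hpl : ∀ (μ ε : ℝ), 0 < ε → ∃ L N : ℕ, 1 ≤ L ∧ 0 < Zt d a b R y ℓ L N ∧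
      (p μ - ε) * (L : ℝ) ^ d ≤ Real.log (Zt d a b R y ℓ L N) + μ * N := by
    intro μ ε hε
    have hsucc := Pool.Agent.ConfinedGas.tendsto_succ d
    have e1 : Tendsto (fun L : ℕ => (p μ - ε) * (((L : ℝ) + 1) ^ d / (L : ℝ) ^ d) +
        Real.log ((B + 1) * 2 ^ d * (L : ℝ) ^ d + 1) / (L : ℝ) ^ d) atTop (𝓝 (p μ - ε)) := by
      have h1 := (hsucc.const_mul (p μ - ε)).add
        (log_affine_div hd ((B + 1) * 2 ^ d) 1 (by positivity) one_pos)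
      rw [mul_one, add_zero] at h1
      exact h1
    have e2 := e1.eventually_lt (hlim' μ) (by linarith)
    obtain ⟨L, hL, hL1⟩ := (e2.and (eventually_ge_atTop 1)).exists
    have hL' : (1 : ℝ) ≤ L := by exact_mod_cast hL1
    have hL0 : (0 : ℝ) < L := by linarith
    have hLd : (0 : ℝ) < (L : ℝ) ^ d := by positivity
    obtain ⟨N', hN'⟩ := hSmax μ L
    have h1 : S μ L ≤ ((B + 1) * 2 ^ d * (L : ℝ) ^ d + 1) *
        (Real.exp (μ * N') * Zt d a b R y ℓ (L + 1) N') := by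
      refine hN'.trans ?_
      have h2 : B * ((L : ℝ) + 1) ^ d + 1 ≤ (B + 1) * 2 ^ d * (L : ℝ) ^ d + 1 := by
        have h3 : ((L : ℝ) + 1) ^ d ≤ (2 * L) ^ d :=
          pow_le_pow_left₀ (by positivity) (by linarith) d
        rw [mul_pow] at h3
        have h4 : B * ((L : ℝ) + 1) ^ d ≤ (B + 1) * (2 ^ d * (L : ℝ) ^ d) :=
          mul_le_mul (by linarith) h3 (by positivity) (by linarith)
        linarith
      refine mul_le_mul h2 ?_ (hterm0 μ L N') (by positivity)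
      exact mul_le_mul_of_nonneg_left (hup L N') (Real.exp_pos _).le
    have hpos : 0 < Zt d a b R y ℓ (L + 1) N' := by
      have h2 := lt_of_lt_of_le (hSpos μ L) h1
      have h3 := pos_of_mul_pos_right h2 (by positivity)
      exact pos_of_mul_pos_right h3 (Real.exp_pos _).le
    refine ⟨L + 1, N', by omega, hpos, ?_⟩
    have h2 := Real.log_le_log (hSpos μ L) h1
    have hA : (0 : ℝ) < (B + 1) * 2 ^ d * (L : ℝ) ^ d + 1 := by positivity
    rw [Real.log_mul hA.ne' (mul_pos (Real.exp_pos _) hpos).ne',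
      Real.log_mul (Real.exp_pos _).ne' hpos.ne', Real.log_exp] at h2
    have h3 : ((p μ - ε) * (((L : ℝ) + 1) ^ d / (L : ℝ) ^ d) +
        Real.log ((B + 1) * 2 ^ d * (L : ℝ) ^ d + 1) / (L : ℝ) ^ d) * (L : ℝ) ^ d ≤
        Real.log (S μ L) / (L : ℝ) ^ d * (L : ℝ) ^ d :=
      mul_le_mul_of_nonneg_right hL.le hLd.le
    rw [div_mul_cancel₀ _ hLd.ne', add_mul, div_mul_cancel₀ _ hLd.ne', mul_assoc,
      div_mul_cancel₀ _ hLd.ne'] at h3
    push_cast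
    linarith
  exact ⟨hpu, hpl⟩

/-- Positivity does not depend on the activity. -/
theorem Zt_pos_iff {y' : ℝ} (P : Par a b R y) (P' : Par a b R y') (L N : ℕ) :
    0 < Zt d a b R y ℓ L N ↔ 0 < Zt d a b R y' ℓ L N := by
  unfold Zt
  rw [Z_eq P.hy, Z_eq P'.hy, zm_pos_iff ENNReal.ofReal_ne_top (volume_Box_ne _),
    zm_pos_iff ENNReal.ofReal_ne_top (volume_Box_ne _)]

/-- The maximal density does not depend on the activity. -/
theorem rz_eq {y' : ℝ} (P : Par a b R y) (P' : Par a b R y') :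
    Th.rz d (Zt d a b R y ℓ) = Th.rz d (Zt d a b R y' ℓ) := by
  unfold Th.rz
  congr 1
  ext r
  simp only [Set.mem_ofPred_eq]
  constructor
  · rintro ⟨L, N, h1, h2, h3⟩
    exact ⟨L, N, h1, (Zt_pos_iff P P' L N).1 h2, h3⟩
  · rintro ⟨L, N, h1, h2, h3⟩
    exact ⟨L, N, h1, (Zt_pos_iff P P' L N).2 h2, h3⟩

/-- The maximal density is positive. -/
theorem rz_pos (hd : 1 ≤ d) (P : Par a b R y) (hℓ : R < ℓ) : 0 < Th.rz d (Zt d a b R y ℓ) := by
  obtain ⟨U, B, T⟩ := exists_thG hd P hℓ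
  obtain ⟨n, hn, h⟩ := hs_low hd P hℓ 0
  have h1 := h 1
  rw [one_pow, one_mul] at h1
  have h2 : 0 < cr (volume : Measure (Fin d → ℝ)) (2 * a) 1 (Box d ((n : ℝ) * ℓ - R)) := by
    by_contra hcon
    push Not at hcon
    have h3 := lt_of_lt_of_le (Real.exp_pos _) h1
    have h4 := mul_nonpos_of_nonneg_of_nonpos (Real.exp_pos (0 * ((1 : ℕ) : ℝ) ^ d)).le hcon
    exact absurd h3 (not_lt.2 h4)
  have h3 : 0 < Zt d a b R y ℓ n 1 := by
    unfold Zt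
    rw [Z_eq P.hy, zm_pos_iff ENNReal.ofReal_ne_top (volume_Box_ne _)]
    exact h2
  have h4 := T.le_rz hn h3
  have h5 : (0 : ℝ) < (n : ℝ) ^ d := by
    have : (0 : ℝ) < n := by exact_mod_cast hn
    positivity
  by_contra hcon
  push Not at hcon
  have h6 := mul_nonpos_of_nonpos_of_nonneg hcon h5.le
  push_cast at h4
  linarith

/-- A kink of the pressure gives a transition. -/
theorem trans_of_kink (hd : 1 ≤ d) (P : Par a b R y) {l0 : ℝ} {K0 : ℕ} (hK0 : 1 ≤ K0)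
    (hK : R < K0 * l0) {q : ℝ → ℝ}
    (hlimq : ∀ μ : ℝ, Tendsto (fun L : ℕ => Real.log (∑' n : ℕ, ex (μ * n) *
      ENNReal.ofReal (Z d a b R y (L * l0) n)).toReal / (L : ℝ) ^ d) atTop (𝓝 (q μ)))
    {w n1 n2 : ℝ} (hn : n1 < n2) (hw1 : ∀ h : ℝ, 0 < h → q w + h * n2 ≤ q (w + h))
    (hw2 : ∀ h : ℝ, 0 < h → q w - h * n1 ≤ q (w - h)) :
    Trans d (fun t N => Z d a b R y t N) (Th.rz d (Zt d a b R y (K0 * l0)) / (K0 * l0) ^ d)
      (n1 / l0 ^ d) (n2 / l0 ^ d) := by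
  have hK0' : (0 : ℝ) < K0 := by exact_mod_cast hK0
  have hKd : (0 : ℝ) < (K0 : ℝ) ^ d := by positivity
  have hR := P.R_pos
  have hℓ0 : 0 < K0 * l0 := by linarith
  have hl0 : 0 < l0 := pos_of_mul_pos_right hℓ0 hK0'.le
  obtain ⟨U, B, T⟩ := exists_thG hd P hK
  obtain ⟨v, hv, hins⟩ := insert_le (d := d) (ℓ := K0 * l0) P
  obtain ⟨hpu, hpl⟩ := ensembles hd P hK0 hK hlimq
  obtain ⟨ρ₁, ρ₂, c, e, c1, c2, c3, c4, c5, c6, c7, c8⟩ := T.coexist hv hins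
    (p := fun μ => (K0 : ℝ) ^ d * q μ) hpu hpl
    (w := w) (n1 := (K0 : ℝ) ^ d * n1) (n2 := (K0 : ℝ) ^ d * n2)
    (mul_lt_mul_of_pos_left hn hKd)
    (fun h hh => by
      have := mul_le_mul_of_nonneg_left (hw1 h hh) hKd.le
      linarith)
    (fun h hh => by
      have := mul_le_mul_of_nonneg_left (hw2 h hh) hKd.le
      linarith)
    (hlow_of hd P hK (hpu w))
  have h1 := Trans.scale hℓ0 (trans_of P hK T c1 c2 c3 c7 c8 c4 c5 c6)
  have e1 : (K0 : ℝ) ^ d * n1 / (K0 * l0) ^ d = n1 / l0 ^ d := by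
    rw [mul_pow]
    field_simp
  have e2 : (K0 : ℝ) ^ d * n2 / (K0 * l0) ^ d = n2 / l0 ^ d := by
    rw [mul_pow]
    field_simp
  rw [e1, e2] at h1
  exact h1

end Pool.Agent.Mix
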