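import Pool.Agent.Lib.MP_09cbbd_sw.ModA

/-!
# A pair gas as a gas on cells
-/

set_option autoImplicit false

namespace Pool.Agent.Mix

open MeasureTheory Finset Pool.Agent.StableGas Pool.Agent.SquareWell Pool.Agent.SquareWell.ModA

/-- Contents of a cell: a finite sequence of points. -/
abbrev Ct (X : Type) : Type := ℕ × (ℕ → X)

namespace Ct

variable {X : Type} [MeasurableSpace X]

/-- The content given by a finite family. -/
def pad (x0 : X) {n : ℕ} (u : Fin n → X) : Ct X := (n, fun k => if h : k < n then u ⟨k, h⟩ else x0)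

theorem measurable_pad (x0 : X) (n : ℕ) : Measurable (pad x0 (n := n)) := by
  unfold pad
  refine measurable_const.prodMk (measurable_pi_iff.2 fun k => ?_)
  by_cases h : k < n
  · simp only [h, dif_pos]
    exact measurable_pi_apply _
  · simp only [h, dif_neg, not_false_eq_true]
    exact measurable_const

omit [MeasurableSpace X] in
theorem pad_fst (x0 : X) {n : ℕ} (u : Fin n → X) : (pad x0 u).1 = n := rfl

omit [MeasurableSpace X] in
theorem pad_snd (x0 : X) {n : ℕ} (u : Fin n → X) (i : Fin n) : (pad x0 u).2 i = u i := by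
  unfold pad
  simp

/-- Product over the particles. -/
noncomputable def cp (e : Ct X) (φ : X → ENNReal) : ENNReal := ∏ k ∈ range e.1, φ (e.2 k)

omit [MeasurableSpace X] in
theorem cp_pad (x0 : X) {n : ℕ} (u : Fin n → X) (φ : X → ENNReal) :
    cp (pad x0 u) φ = ∏ i, φ (u i) := by
  unfold cp
  rw [pad_fst, Finset.prod_range]
  refine prod_congr rfl fun i _ => ?_
  rw [pad_snd]

omit [MeasurableSpace X] in
theorem cp_mul (e : Ct X) (f g : X → ENNReal) : cp e (fun a => f a * g a) = cp e f * cp e g := by
  unfold cp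
  rw [prod_mul_distrib]

omit [MeasurableSpace X] in
theorem cp_comm (e e' : Ct X) (f : X → X → ENNReal) :
    cp e (fun a => cp e' (f a)) = cp e' (fun b => cp e (fun a => f a b)) := by
  unfold cp
  rw [Finset.prod_comm]

theorem measurable_cp {Y : Type} [MeasurableSpace Y] {φ : Y → X → ENNReal}
    (hφ : Measurable fun p : Y × X => φ p.1 p.2) : Measurable fun p : Y × Ct X => cp p.2 (φ p.1) := by
  classical
  have e : (fun p : Y × Ct X => cp p.2 (φ p.1)) = fun p => ∑' n : ℕ,
      if p.2.1 = n then ∏ k ∈ range n, φ p.1 (p.2.2 k) else 0 := by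
    funext p
    rw [tsum_eq_single p.2.1]
    · rw [if_pos rfl]
      rfl
    · intro n hn
      rw [if_neg (Ne.symm hn)]
  rw [e]
  refine Measurable.tsum fun n => ?_
  have hs : MeasurableSet {p : Y × Ct X | p.2.1 = n} := by
    have h1 : Measurable fun p : Y × Ct X => p.2.1 := measurable_fst.comp measurable_snd
    exact h1 (measurableSet_singleton n)
  refine Measurable.ite hs ?_ measurable_const
  refine Finset.measurable_prod _ fun k _ => ?_
  have h2 : Measurable fun p : Y × Ct X => (p.1, p.2.2 k) :=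
    measurable_fst.prodMk ((measurable_pi_apply k).comp (measurable_snd.comp measurable_snd))
  exact hφ.comp h2

theorem measurable_cp1 {φ : X → ENNReal} (hφ : Measurable φ) :
    Measurable fun e : Ct X => cp e φ := by
  have h := measurable_cp (Y := Unit) (φ := fun _ => φ) (hφ.comp measurable_snd)
  have h1 : Measurable fun e : Ct X => ((), e) := measurable_const.prodMk measurable_id
  exact h.comp h1

end Ct

open Ct

/-- A pair gas with translations. -/
structure Sys (d : ℕ) (X : Type) [MeasurableSpace X] where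
  m : Measure X
  ψ : X → X → ENNReal
  t : Zd d → X → X
  f0 : X → ENNReal
  x0 : X
  sf : SigmaFinite m
  hψ : Measurable fun p : X × X => ψ p.1 p.2
  mp : ∀ i, MeasurePreserving (t i) m m
  tt : ∀ i a, t (-i) (t i a) = a
  t0 : ∀ a, t 0 a = a
  ψt : ∀ p i a b, ψ (t p a) (t i b) = ψ a (t (i - p) b)
  hf : Measurable f0

namespace Sys

variable {d : ℕ} {X : Type} [MeasurableSpace X] (S : Sys d X)

instance : SigmaFinite S.m := S.sf

/-- The a priori measure. -/
noncomputable def pg : Measure (Ct X) := Measure.sum fun n : ℕ => ((n.factorial : ENNReal))⁻¹ •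
  ((Measure.pi fun _ : Fin n => S.m).withDensity (Gw S.ψ S.f0)).map (pad S.x0)

theorem lint_pg {F : Ct X → ENNReal} (hF : Measurable F) : ∫⁻ x, F x ∂S.pg =
    ∑' n : ℕ, ((n.factorial : ENNReal))⁻¹ *
      ∫⁻ u : Fin n → X, Gw S.ψ S.f0 u * F (pad S.x0 u) ∂(Measure.pi fun _ => S.m) := by
  unfold pg
  rw [lintegral_sum_measure]
  refine tsum_congr fun n => ?_
  have h := lintegral_withDensity_eq_lintegral_mul (Measure.pi fun _ : Fin n => S.m)
    (measurable_Gw (ι := Fin n) S.hψ S.hf) (hF.comp (measurable_pad S.x0 n))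
  rw [lintegral_smul_measure, lintegral_map hF (measurable_pad S.x0 n), smul_eq_mul]
  exact congrArg _ h

theorem pg_univ : S.pg Set.univ = Xg S.m S.ψ S.f0 := by
  rw [← lintegral_one, S.lint_pg measurable_const]
  unfold Xg
  simp only [mul_one]

theorem psi_same (p : Zd d) (a b : X) : S.ψ (S.t p a) (S.t p b) = S.ψ a b := by
  rw [S.ψt, sub_self, S.t0]

theorem measurable_t (i : Zd d) : Measurable (S.t i) := (S.mp i).measurable

/-- Factor of a particle due to the content `x` of the cell `p`. -/
noncomputable def Q (p : Zd d) (x : Ct X) (y : X) : ENNReal :=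
  cp x fun a => S.ψ (S.t p a) y * S.ψ y (S.t p a)

/-- Half weight of the interaction between two cells. -/
noncomputable def g (v : Zd d) (x y : Ct X) : ENNReal :=
  cp x fun a => cp y fun b => S.ψ a (S.t v b)

theorem cp_Q (p i : Zd d) (x y : Ct X) :
    cp y (fun b => S.Q p x (S.t i b)) = S.g (i - p) x y * S.g (p - i) y x := by
  unfold Q g
  simp only [S.ψt, cp_mul]
  rw [cp_comm y x]

theorem measurable_g (v : Zd d) : Measurable fun p : Ct X × Ct X => S.g v p.1 p.2 := by
  unfold g
  have h1 : Measurable fun q : X × X => (fun a b => S.ψ a (S.t v b)) q.1 q.2 := by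
    have h2 : Measurable fun q : X × X => (q.1, S.t v q.2) :=
      measurable_fst.prodMk ((S.measurable_t v).comp measurable_snd)
    exact S.hψ.comp h2
  have h3 : Measurable fun p : X × Ct X => cp p.2 fun b => S.ψ p.1 (S.t v b) :=
    measurable_cp (Y := X) (φ := fun a b => S.ψ a (S.t v b)) h1
  have h4 : Measurable fun q : Ct X × X => (fun (y : Ct X) (a : X) =>
      cp y fun b => S.ψ a (S.t v b)) q.1 q.2 := by
    have h5 : Measurable fun q : Ct X × X => (q.2, q.1) := measurable_snd.prodMk measurable_fst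
    exact h3.comp h5
  have h6 := measurable_cp (Y := Ct X) (φ := fun (y : Ct X) (a : X) =>
      cp y fun b => S.ψ a (S.t v b)) h4
  have h7 : Measurable fun q : Ct X × Ct X => (q.2, q.1) := measurable_snd.prodMk measurable_fst
  exact h6.comp h7

theorem measurable_Q (p : Zd d) : Measurable fun q : Ct X × X => S.Q p q.1 q.2 := by
  unfold Q
  have h2 : Measurable fun q : X × X => (S.t p q.2, q.1) :=
    ((S.measurable_t p).comp measurable_snd).prodMk measurable_fst
  have h3 : Measurable fun q : X × X => (q.1, S.t p q.2) :=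
    measurable_fst.prodMk ((S.measurable_t p).comp measurable_snd)
  have h1 : Measurable fun q : X × X =>
      (fun y a => S.ψ (S.t p a) y * S.ψ y (S.t p a)) q.1 q.2 := (S.hψ.comp h2).mul (S.hψ.comp h3)
  have h6 := measurable_cp (Y := X)
    (φ := fun y a => S.ψ (S.t p a) y * S.ψ y (S.t p a)) h1
  have h7 : Measurable fun q : Ct X × X => (q.2, q.1) := measurable_snd.prodMk measurable_fst
  exact h6.comp h7

/-- The weight of the contents of the cells of `J`. -/
noncomputable def WL (φ : X → ENNReal) (J : Finset (Zd d)) (ω : Zd d → Ct X) : ENNReal :=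
  (∏ i ∈ J, cp (ω i) (fun a => φ (S.t i a))) *
    ∏ i ∈ J, ∏ j ∈ J.erase i, S.g (j - i) (ω i) (ω j)

theorem WL_insert (φ : X → ENNReal) {J : Finset (Zd d)} {p : Zd d} (hp : p ∉ J)
    (ω : Zd d → Ct X) : S.WL φ (insert p J) ω =
      cp (ω p) (fun a => φ (S.t p a)) * S.WL (fun y => φ y * S.Q p (ω p) y) J ω := by
  unfold WL
  rw [prod_insert hp, prod_insert hp, erase_insert hp]
  have h1 : ∏ i ∈ J, ∏ j ∈ (insert p J).erase i, S.g (j - i) (ω i) (ω j) =
      (∏ i ∈ J, S.g (p - i) (ω i) (ω p)) *
        ∏ i ∈ J, ∏ j ∈ J.erase i, S.g (j - i) (ω i) (ω j) := by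
    rw [← prod_mul_distrib]
    refine prod_congr rfl fun i hi => ?_
    have hip : p ≠ i := fun hh => hp (hh ▸ hi)
    rw [erase_insert_of_ne hip, prod_insert fun hh => hp (mem_of_mem_erase hh)]
  have h2 : ∏ i ∈ J, cp (ω i) (fun a => φ (S.t i a) * S.Q p (ω p) (S.t i a)) =
      (∏ i ∈ J, cp (ω i) (fun a => φ (S.t i a))) *
        ((∏ i ∈ J, S.g (i - p) (ω p) (ω i)) * ∏ i ∈ J, S.g (p - i) (ω i) (ω p)) := by
    rw [← prod_mul_distrib, ← prod_mul_distrib]
    refine prod_congr rfl fun i _ => ?_
    rw [cp_mul, cp_Q]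
  rw [h1, h2]
  ring

theorem measurable_WL {φ : X → ENNReal} (hφ : Measurable φ) (J : Finset (Zd d)) :
    Measurable (S.WL φ J) := by
  unfold WL
  refine (Finset.measurable_prod _ fun i _ => ?_).mul
    (Finset.measurable_prod _ fun i _ => Finset.measurable_prod _ fun j _ => ?_)
  · exact (measurable_cp1 (hφ.comp (S.measurable_t i))).comp (measurable_pi_apply i)
  · have h1 : Measurable fun ω : Zd d → Ct X => (ω i, ω j) :=
      (measurable_pi_apply i).prodMk (measurable_pi_apply j)
    exact (S.measurable_g (j - i)).comp h1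

/-- One-particle factor of the cell `i`. -/
noncomputable def cI (i : Zd d) (a : X) : ENNReal := S.f0 (S.t (-i) a)

theorem measurable_cI (i : Zd d) : Measurable (S.cI i) := S.hf.comp (S.measurable_t (-i))

theorem cI_t (i : Zd d) (a : X) : S.cI i (S.t i a) = S.f0 a := by
  unfold cI
  rw [S.tt]

omit [MeasurableSpace X] in
theorem Gw_mul (ψ : X → X → ENNReal) {ι : Type} [Fintype ι] [DecidableEq ι]
    (f g : X → ENNReal) (x : ι → X) :
    Gw ψ (fun y => f y * g y) x = (∏ i, f (x i)) * Gw ψ g x := by
  unfold Gw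
  rw [prod_mul_distrib, mul_assoc]

theorem Gw_t (p : Zd d) {ι : Type} [Fintype ι] [DecidableEq ι] (f : X → ENNReal)
    (x : ι → X) :
    Gw S.ψ f (fun i => S.t p (x i)) = Gw S.ψ (fun y => f (S.t p y)) x := by
  unfold Gw Pr
  simp only [S.psi_same]

theorem mp_pi (p : Zd d) (n : ℕ) : MeasurePreserving
    (fun (u : Fin n → X) (i : Fin n) => S.t p (u i))
    (Measure.pi fun _ => S.m) (Measure.pi fun _ => S.m) :=
  measurePreserving_pi (fun _ => S.m) (fun _ => S.m) fun _ => S.mp p

theorem Q_pad {k : ℕ} (p : Zd d) (u : Fin k → X) (y : X) :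
    S.Q p (pad S.x0 u) y = Pu S.ψ (fun i => S.t p (u i)) y := by
  unfold Q Pu
  rw [cp_pad]

/-- The link, for a union of cells. -/
theorem linkJ [SigmaFinite S.pg] (J : Finset (Zd d)) : ∀ φ : X → ENNReal, Measurable φ →
    ∀ ω0 : Zd d → Ct X,
    Xg S.m S.ψ (fun a => ∑ i ∈ J, φ a * S.cI i a) =
      lmarginal (fun _ : Zd d => S.pg) J (S.WL φ J) ω0 := by
  induction J using Finset.induction_on with
  | empty =>
    intro φ _ ω0
    rw [lmarginal_empty]
    simp only [sum_empty]
    rw [Xg_zero]
    simp [WL]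
  | insert p J hp ih =>
    intro φ hφ ω0
    obtain ⟨f, hf⟩ : ∃ f : X → ENNReal, f = fun a => ∑ i ∈ J, φ a * S.cI i a := ⟨_, rfl⟩
    have mf : Measurable f := by
      rw [hf]
      exact Finset.measurable_sum _ fun i _ => hφ.mul (S.measurable_cI i)
    have mc : Measurable fun a => φ a * S.cI p a := hφ.mul (S.measurable_cI p)
    have e1 : (fun a => ∑ i ∈ insert p J, φ a * S.cI i a) = fun a => φ a * S.cI p a + f a := by
      funext a
      rw [sum_insert hp, hf]
    obtain ⟨G, hG⟩ : ∃ G : Ct X → ENNReal, G = fun x => cp x (fun a => φ (S.t p a)) *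
      Xg S.m S.ψ (fun a => f a * S.Q p x a) := ⟨_, rfl⟩
    have mG : Measurable G := by
      have h3 : Measurable fun q : Ct X × X =>
          (fun (x : Ct X) y => f y * S.Q p x y) q.1 q.2 :=
        (mf.comp measurable_snd).mul (S.measurable_Q p)
      rw [hG]
      exact (measurable_cp1 (hφ.comp (S.measurable_t p))).mul (measurable_Xg S.m S.hψ h3)
    have eG : ∀ x, lmarginal (fun _ : Zd d => S.pg) J (S.WL φ (insert p J))
        (Function.update ω0 p x) = G x := by
      intro x
      have mQ : Measurable fun y => φ y * S.Q p x y := by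
        have h1 : Measurable fun y : X => (x, y) := measurable_const.prodMk measurable_id
        exact hφ.mul ((S.measurable_Q p).comp h1)
      have h1 := ih (fun y => φ y * S.Q p x y) mQ (Function.update ω0 p x)
      have h2 : (fun a => ∑ i ∈ J, (φ a * S.Q p x a) * S.cI i a) = fun a => f a * S.Q p x a := by
        funext a
        rw [hf, sum_mul]
        exact sum_congr rfl fun i _ => by ring
      rw [h2] at h1
      rw [hG]
      simp only
      rw [h1]
      unfold lmarginal
      have mW : Measurable fun y : (∀ _ : J, Ct X) => S.WL (fun y => φ y * S.Q p x y) J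
          (Function.updateFinset (Function.update ω0 p x) J y) :=
        (S.measurable_WL mQ J).comp measurable_updateFinset
      rw [← lintegral_const_mul _ mW]
      refine lintegral_congr fun y => ?_
      have hp1 : Function.updateFinset (Function.update ω0 p x) J y p = x := by
        rw [Function.updateFinset_def]; simp [hp]
      rw [WL_insert S φ hp, hp1]
    rw [e1, Xg_add S.m S.hψ mc mf, lmarginal_insert _ (S.measurable_WL hφ _) hp ω0,
      lintegral_congr eG, S.lint_pg mG]
    refine tsum_congr fun k => ?_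
    congr 1
    have m1 : Measurable fun u : Fin k → X => Gw S.ψ (fun a => φ a * S.cI p a) u :=
      measurable_Gw S.hψ mc
    have m2 : Measurable fun q : (Fin k → X) × X =>
        (fun (u : Fin k → X) y => f y * Pu S.ψ u y) q.1 q.2 :=
      (mf.comp measurable_snd).mul (measurable_Pu2 S.hψ)
    have m4 : Measurable fun u : Fin k → X => Gw S.ψ (fun a => φ a * S.cI p a) u *
        Xg S.m S.ψ (fun y => f y * Pu S.ψ u y) := m1.mul (measurable_Xg S.m S.hψ m2)
    rw [← (S.mp_pi p k).lintegral_comp m4]
    refine lintegral_congr fun u => ?_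
    have e2 : Gw S.ψ (fun a => φ a * S.cI p a) (fun i => S.t p (u i)) =
        (∏ i, φ (S.t p (u i))) * Gw S.ψ S.f0 u := by
      rw [Gw_t, ← Gw_mul S.ψ (fun y => φ (S.t p y)) S.f0 u]
      congr 1
      funext y
      rw [cI_t]
    rw [e2, hG]
    simp only [S.Q_pad p u]
    rw [cp_pad]
    ring

end Sys

end Pool.Agent.Mix
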