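import Pool.Agent.Lib.MP_09cbbd_mx.Def
import Pool.Agent.Lib.MP_09cbbd_sw.Defs
import Pool.Agent.Lib.MP_09cbbd_mp_h27.PsCan
import Pool.Agent.Lib.MP_09cbbd_mp_h27.PsIns

/-!
# Bounds for the grand-canonical partition function of hard spheres in a region
-/

set_option autoImplicit false

namespace Pool.Agent.Mix

open MeasureTheory Finset Filter Topology Pool.Agent.StableGas Pool.Agent.ConfinedGas
  Pool.Agent.SquareWell

namespace CanM

variable {d : ℕ}

/-- The exponential series. -/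
theorem tsum_exp {x : ENNReal} (hx : x ≠ ⊤) :
    ∑' n : ℕ, x ^ n * ((n.factorial : ENNReal))⁻¹ = ex x.toReal := by
  obtain ⟨y, rfl⟩ : ∃ y : NNReal, (y : ENNReal) = x := ⟨x.toNNReal, ENNReal.coe_toNNReal hx⟩
  have h1 : ∀ n : ℕ, (y : ENNReal) ^ n * ((n.factorial : ENNReal))⁻¹ =
      ENNReal.ofReal ((y : ℝ) ^ n / n.factorial) := by
    intro n
    have hn : (0 : ℝ) < n.factorial := by exact_mod_cast n.factorial_pos
    have hy : (0 : ℝ) ≤ (y : ℝ) := y.2
    rw [ENNReal.ofReal_div_of_pos hn, ENNReal.ofReal_pow hy, ENNReal.ofReal_coe_nnreal,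
      ENNReal.ofReal_natCast, div_eq_mul_inv]
  have hs : Summable fun n : ℕ => (y : ℝ) ^ n / n.factorial := Real.summable_pow_div_factorial _
  rw [tsum_congr h1, ← ENNReal.ofReal_tsum_of_nonneg (fun n => by positivity) hs]
  unfold ex
  rw [Real.exp_eq_exp_ℝ, NormedSpace.exp_eq_tsum_div, ENNReal.coe_toReal]

section

variable (m : Measure (Fin d → ℝ)) [SigmaFinite m] (D : ℝ) (z : ENNReal)

omit [SigmaFinite m] in
theorem mC_mono {ι : Type} [Fintype ι] {A A' : Set (Fin d → ℝ)} (h : A ⊆ A') :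
    mC m D ι A ≤ mC m D ι A' := measure_mono (Cf_mono D ι h)

omit [SigmaFinite m] in
theorem Xi_mono {A A' : Set (Fin d → ℝ)} (h : A ⊆ A') : Xi m D z A ≤ Xi m D z A' := by
  unfold Xi
  refine ENNReal.tsum_le_tsum fun N => ?_
  exact mul_le_mul' le_rfl (mC_mono m D h)

theorem one_le_Xi (A : Set (Fin d → ℝ)) : 1 ≤ Xi m D z A := by
  unfold Xi
  refine le_trans (le_of_eq ?_) (ENNReal.le_tsum 0)
  rw [mC_zero]
  simp

theorem Xi_le {A : Set (Fin d → ℝ)} (h : z * m A ≠ ⊤) : Xi m D z A ≤ ex (z * m A).toReal := by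
  rw [← tsum_exp h]
  unfold Xi
  refine ENNReal.tsum_le_tsum fun N => ?_
  calc z ^ N * ((N.factorial : ENNReal))⁻¹ * mC m D (Fin N) A
      ≤ z ^ N * ((N.factorial : ENNReal))⁻¹ * m A ^ N := mul_le_mul' le_rfl (mC_le m D N A)
    _ = _ := by rw [mul_pow]; ring

/-- Removing a part of the region. -/
theorem Xi_le_diff {A S : Set (Fin d → ℝ)} (hA : MeasurableSet A) (hS : MeasurableSet S)
    (h : z * m S ≠ ⊤) : Xi m D z A ≤ ex (z * m S).toReal * Xi m D z (A \ S) := by
  have hsub : A ⊆ (A ∩ S) ∪ (A \ S) := by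
    intro x hx
    by_cases hxS : x ∈ S
    · exact Or.inl ⟨hx, hxS⟩
    · exact Or.inr ⟨hx, hxS⟩
  have hdis : Disjoint (A ∩ S) (A \ S) := by
    rw [Set.disjoint_left]
    exact fun x h1 h2 => h2.2 h1.2
  refine (Xi_mono m D z hsub).trans ?_
  rw [Xi_union' m D z (hA.inter hS) (hA.diff hS) hdis, ← tsum_exp h, ← ENNReal.tsum_mul_right]
  refine ENNReal.tsum_le_tsum fun k => ?_
  have h1 : ∫⁻ u, (Cf D (Fin k) (A ∩ S)).indicator (fun u => Xi m D z ((A \ S) ∩ FarS D u)) u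
      ∂(Measure.pi fun _ : Fin k => m) ≤ m S ^ k * Xi m D z (A \ S) := by
    have h2 : ∀ u : Fin k → Fin d → ℝ, (Cf D (Fin k) (A ∩ S)).indicator
        (fun u => Xi m D z ((A \ S) ∩ FarS D u)) u ≤
        (Cf D (Fin k) (A ∩ S)).indicator (fun _ => Xi m D z (A \ S)) u := by
      intro u
      by_cases hu : u ∈ Cf D (Fin k) (A ∩ S)
      · rw [Set.indicator_of_mem hu, Set.indicator_of_mem hu]
        exact Xi_mono m D z Set.inter_subset_left
      · rw [Set.indicator_of_notMem hu, Set.indicator_of_notMem hu]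
    refine (lintegral_mono h2).trans ?_
    rw [lintegral_indicator_const (measurableSet_Cf D _ (hA.inter hS)), mul_comm]
    refine mul_le_mul' ?_ le_rfl
    refine le_trans ?_ (mC_le m D k S)
    exact mC_mono m D Set.inter_subset_right
  calc z ^ k * ((k.factorial : ENNReal))⁻¹ * ∫⁻ u, (Cf D (Fin k) (A ∩ S)).indicator
        (fun u => Xi m D z ((A \ S) ∩ FarS D u)) u ∂(Measure.pi fun _ : Fin k => m)
      ≤ z ^ k * ((k.factorial : ENNReal))⁻¹ * (m S ^ k * Xi m D z (A \ S)) :=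
        mul_le_mul' le_rfl h1
    _ = _ := by rw [mul_pow]; ring

/-- Separated regions. -/
theorem Xi_far {R : ℝ} (hR : 0 < R) (hD : D ^ 2 ≤ R ^ 2) {A1 A2 : Set (Fin d → ℝ)}
    (h1 : MeasurableSet A1) (h2 : MeasurableSet A2) (hf : Far R A1 A2) :
    Xi m D z (A1 ∪ A2) = Xi m D z A1 * Xi m D z A2 := by
  have hf' : Far D A1 A2 := fun x hx y hy => hD.trans (hf x hx y hy)
  rw [Xi_union m D z h1 h2 (hf.disjoint hR)]
  simp only [Jk_far m D hf' h1]
  unfold Xi
  rw [← ENNReal.tsum_mul_right]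
  refine tsum_congr fun k => ?_
  rw [← ENNReal.tsum_mul_left, ← ENNReal.tsum_mul_left]
  refine tsum_congr fun l => ?_
  ring

/-- Joint measurability. -/
theorem measurable_mCFar2 (R : ℝ) {ι : Type} [Fintype ι] {A : Set (Fin d → ℝ)}
    (hA : MeasurableSet A) (l : ℕ) :
    Measurable fun u : ι → Fin d → ℝ => mC m D (Fin l) (A ∩ FarS R u) := by
  obtain ⟨T, hT⟩ : ∃ T : Set ((ι → Fin d → ℝ) × (Fin l → Fin d → ℝ)),
    T = {q | q.2 ∈ Cf D (Fin l) A ∧ ∀ i j, R ^ 2 ≤ sq (q.1 i) (q.2 j)} := ⟨_, rfl⟩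
  have hq : ∀ (i : ι) (j : Fin l), Measurable
      fun q : (ι → Fin d → ℝ) × (Fin l → Fin d → ℝ) =>
        ConfinedGas.sq (q.1 i) (q.2 j) := by
    intro i j
    unfold ConfinedGas.sq
    fun_prop
  have mT : MeasurableSet T := by
    have e2 : T = (Prod.snd ⁻¹' Cf D (Fin l) A) ∩
        ⋂ i, ⋂ j, {q : (ι → Fin d → ℝ) × (Fin l → Fin d → ℝ) |
          R ^ 2 ≤ sq (q.1 i) (q.2 j)} := by
      rw [hT]
      ext q
      simp
    rw [e2]
    exact (measurable_snd (measurableSet_Cf D _ hA)).inter (MeasurableSet.iInter fun i =>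
        MeasurableSet.iInter fun j => measurableSet_le measurable_const (hq i j))
  have h3 := measurable_measure_prodMk_left (ν := Measure.pi fun _ : Fin l => m) mT
  have e3 : (fun u : ι → Fin d → ℝ => mC m D (Fin l) (A ∩ FarS R u)) =
      fun u => (Measure.pi fun _ : Fin l => m) (Prod.mk u ⁻¹' T) := by
    funext u
    unfold mC
    congr 1
    ext w
    rw [hT]
    constructor
    · rintro ⟨g1, g2⟩
      exact ⟨⟨fun i => (g1 i).1, g2⟩, fun i j => (g1 j).2 i⟩
    · rintro ⟨⟨g1, g2⟩, g3⟩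
      exact ⟨fun i => ⟨g1 i, fun j => g3 j i⟩, g2⟩
  rw [e3]
  exact h3

theorem measurable_XiFar2 (R : ℝ) {ι : Type} [Fintype ι] {A : Set (Fin d → ℝ)}
    (hA : MeasurableSet A) :
    Measurable fun u : ι → Fin d → ℝ => Xi m D z (A ∩ FarS R u) := by
  unfold Xi
  exact Measurable.tsum fun l => (measurable_mCFar2 m D R hA l).const_mul _

theorem Xi_shift (v : Fin d → ℝ) (hv : m.map (fun y => y + v) = m) {A : Set (Fin d → ℝ)}
    (hA : MeasurableSet A) : Xi m D z ((fun y => y + v) ⁻¹' A) = Xi m D z A := by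
  unfold Xi
  refine tsum_congr fun n => ?_
  congr 1
  unfold mC
  have hmp : MeasurePreserving (fun (u : Fin n → Fin d → ℝ) (i : Fin n) => u i + v)
      (Measure.pi fun _ => m) (Measure.pi fun _ => m) :=
    measurePreserving_pi (fun _ => m) (fun _ => m) fun _ => ⟨measurable_add_const v, hv⟩
  rw [← hmp.measure_preimage (measurableSet_Cf D (Fin n) hA).nullMeasurableSet]
  congr 1
  ext x
  simp [Cf, ConfinedGas.sq]

end

/-- Removing the balls around some points. -/
theorem Xi_le_FarS {D R : ℝ} (hR : 0 < R) {z : ENNReal} (hz : z ≠ ⊤) {A : Set (Fin d → ℝ)}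
    (hA : MeasurableSet A) {ι : Type} [Fintype ι] (x : ι → Fin d → ℝ) :
    Xi volume D z A ≤ ex (Fintype.card ι * (z.toReal * (2 * R) ^ d)) *
      Xi volume D z (A ∩ FarS R x) := by
  obtain ⟨S, hS⟩ : ∃ S : Set (Fin d → ℝ), S = ⋃ i, {y | sq (x i) y < R ^ 2} := ⟨_, rfl⟩
  have mball : ∀ i, MeasurableSet {y | sq (x i) y < R ^ 2} := fun i =>
    measurableSet_lt (measurable_sq2.comp (measurable_const.prodMk measurable_id)) measurable_const
  have hSm : MeasurableSet S := by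
    rw [hS]
    exact MeasurableSet.iUnion mball
  have hvol : volume S ≤ Fintype.card ι * ENNReal.ofReal (2 * R) ^ d := by
    rw [hS]
    refine (measure_iUnion_fintype_le _ _).trans ?_
    refine (sum_le_card_nsmul _ _ (ENNReal.ofReal (2 * R) ^ d)
      fun i _ => near_le volume le_rfl (x i) hR).trans ?_
    rw [card_univ, nsmul_eq_mul]
  have hne : (Fintype.card ι : ENNReal) * ENNReal.ofReal (2 * R) ^ d ≠ ⊤ :=
    ENNReal.mul_ne_top (ENNReal.natCast_ne_top _) (ENNReal.pow_ne_top ENNReal.ofReal_ne_top)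
  have hzS : z * volume S ≠ ⊤ := ENNReal.mul_ne_top hz (ne_top_of_le_ne_top hne hvol)
  have hAS : A \ S = A ∩ FarS R x := by
    ext y
    rw [hS]
    simp only [Set.mem_sdiff, Set.mem_iUnion, Set.mem_ofPred_eq, not_exists, not_lt,
      Set.mem_inter_iff, FarS]
  refine (Xi_le_diff volume D z hA hSm hzS).trans ?_
  rw [hAS]
  refine mul_le_mul' ?_ le_rfl
  rw [ex_le_ex, ENNReal.toReal_mul]
  have h1 := ENNReal.toReal_mono hne hvol
  rw [ENNReal.toReal_mul, ENNReal.toReal_natCast, ENNReal.toReal_pow,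
    ENNReal.toReal_ofReal (by positivity)] at h1
  calc z.toReal * (volume S).toReal ≤ z.toReal * (Fintype.card ι * (2 * R) ^ d) :=
        mul_le_mul_of_nonneg_left h1 ENNReal.toReal_nonneg
    _ = _ := by ring

end CanM

end Pool.Agent.Mix
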