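import Mathlib

/-!
# A kink with a lower bound for the right slope
-/

set_option autoImplicit false

namespace Pool.Agent.Mix

open Filter Topology

theorem kink_demix (P : ℝ → ℝ → ℝ) (hP : ConvexOn ℝ Set.univ fun q : ℝ × ℝ => P q.1 q.2)
    {θ c μ1 b ρ : ℝ} {k : ℕ} (hθ : 0 < θ)
    (hstar : ∀ μ, μ1 ≤ μ → P (μ - 1) (-k) ≤ P μ 0 - c)
    (hmin : ∀ μ D, 0 < D → ¬ (θ * D ≤ P μ 0 - P (μ - D) 0 ∧ θ * D ≤ P μ 0 - P μ (-D)))
    (hμ1 : ∀ D, 0 < D → P μ1 0 - P (μ1 - D) 0 ≤ θ * D)
    (hlin : ∀ μ, 0 ≤ μ → ρ * μ - b ≤ P μ 0) (hρ : θ < ρ) :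
    ∃ w : ℝ, (∀ h, 0 < h → P w 0 + h * (c - k * θ) ≤ P (w + h) 0) ∧
      ∀ h, 0 < h → P w 0 - h * θ ≤ P (w - h) 0 := by
  -- convexity
  have hc : ∀ x y x' y' u : ℝ, 0 ≤ u → u ≤ 1 →
      P ((1 - u) * x + u * x') ((1 - u) * y + u * y') ≤ (1 - u) * P x y + u * P x' y' := by
    intro x y x' y' u h0 h1
    have h := hP.2 (Set.mem_univ (x, y)) (Set.mem_univ (x', y')) (sub_nonneg.2 h1) h0
      (by ring : 1 - u + u = 1)
    simpa using h
  obtain ⟨g, hg⟩ : ∃ g : ℝ → ℝ, g = fun μ => P μ 0 := ⟨_, rfl⟩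
  have hgc : ConvexOn ℝ Set.univ g := by
    refine ⟨convex_univ, fun x _ y _ s t hs ht hst => ?_⟩
    have hs' : s = 1 - t := by linarith
    have h := hc x 0 y 0 t ht (by linarith)
    rw [hg, hs']
    simpa using h
  have hgcont : Continuous g := by
    have h := hgc.continuousOn isOpen_univ
    exact continuousOn_univ.1 h
  have hgP : ∀ μ, P μ 0 = g μ := fun μ => by rw [hg]
  have hg2 : ∀ x y u : ℝ, 0 ≤ u → u ≤ 1 → g ((1 - u) * x + u * y) ≤ (1 - u) * g x + u * g y := by
    intro x y u h0 h1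
    have h := hc x 0 y 0 u h0 h1
    rw [hg]
    simpa using h
  simp only [hgP] at hstar hmin hμ1 hlin ⊢
  -- backward quotients increase
  have F1 : ∀ μ D D' : ℝ, 0 < D' → D' ≤ D → D' / D * (g μ - g (μ - D)) ≤ g μ - g (μ - D') := by
    intro μ D D' h0 h1
    have hD : 0 < D := by linarith
    have h2 : D' / D ≤ 1 := (div_le_one hD).2 h1
    have h3 := hg2 μ (μ - D) (D' / D) (by positivity) h2
    have h4 : (1 - D' / D) * μ + D' / D * (μ - D) = μ - D' := by
      field_simp
      ring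
    rw [h4] at h3
    linarith
  obtain ⟨W, hW⟩ : ∃ W : Set ℝ, W = {μ | ∀ D, 0 < D → g μ - g (μ - D) ≤ θ * D} := ⟨_, rfl⟩
  have hWmem : ∀ μ, μ ∈ W ↔ ∀ D, 0 < D → g μ - g (μ - D) ≤ θ * D := by
    intro μ
    rw [hW]
    rfl
  have hne : W.Nonempty := ⟨μ1, (hWmem μ1).2 hμ1⟩
  have hbdd : BddAbove W := by
    refine ⟨max 1 ((b + g 0) / (ρ - θ)), fun μ hμ => ?_⟩
    rw [hWmem] at hμ
    by_contra hcon
    push Not at hcon
    have h1 : 1 < μ := lt_of_le_of_lt (le_max_left _ _) hcon
    have h2 : (b + g 0) / (ρ - θ) < μ := lt_of_le_of_lt (le_max_right _ _) hcon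
    rw [div_lt_iff₀ (by linarith)] at h2
    have h3 := hμ μ (by linarith)
    rw [sub_self] at h3
    have h4 := hlin μ (by linarith)
    have h5 : μ * (ρ - θ) = ρ * μ - θ * μ := by ring
    linarith
  obtain ⟨w, hw⟩ : ∃ w, w = sSup W := ⟨_, rfl⟩
  have hμ1w : μ1 ≤ w := by
    rw [hw]
    exact le_csSup hbdd ((hWmem μ1).2 hμ1)
  refine ⟨w, ?_, ?_⟩
  · -- points above w
    have habove : ∀ μ, w < μ → ∀ h, 0 < h → g μ + h * (c - k * θ) ≤ g (μ + h) := by
      intro μ hμ h0 hh0
      by_contra hcon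
      push Not at hcon
      have hnW : μ ∉ W := fun hm => by
        have := le_csSup hbdd hm
        rw [← hw] at this
        linarith
      rw [hWmem] at hnW
      push Not at hnW
      obtain ⟨D, hD, hDg⟩ := hnW
      obtain ⟨s, hs⟩ : ∃ s, s = (g (μ + h0) - g μ) / h0 := ⟨_, rfl⟩
      have hsG : s < c - k * θ := by
        rw [hs, div_lt_iff₀ hh0]
        linarith
      -- a small step
      obtain ⟨u, hu0, hu1, hu2, hu3⟩ : ∃ u : ℝ, 0 < u ∧ 2 * u ≤ 1 ∧ 2 * u ≤ h0 ∧ (k : ℝ) * u ≤ D := by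
        refine ⟨min (min (1 / 2) (h0 / 2)) (D / ((k : ℝ) + 1)), ?_, ?_, ?_, ?_⟩
        · positivity
        · have := (min_le_left (min (1 / 2 : ℝ) (h0 / 2)) (D / ((k : ℝ) + 1))).trans
            (min_le_left _ _)
          linarith
        · have := (min_le_left (min (1 / 2 : ℝ) (h0 / 2)) (D / ((k : ℝ) + 1))).trans
            (min_le_right _ _)
          linarith
        · have h1 := min_le_right (min (1 / 2 : ℝ) (h0 / 2)) (D / ((k : ℝ) + 1))
          have h2 : (0 : ℝ) ≤ k := Nat.cast_nonneg k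
          calc (k : ℝ) * min (min (1 / 2) (h0 / 2)) (D / ((k : ℝ) + 1))
              ≤ k * (D / ((k : ℝ) + 1)) := mul_le_mul_of_nonneg_left h1 h2
            _ ≤ D := by
              rw [← mul_div_assoc, div_le_iff₀ (by positivity)]
              nlinarith
      -- forward step
      have e1 : g (μ + 2 * u) ≤ g μ + 2 * u * s := by
        have h1 := hg2 μ (μ + h0) (2 * u / h0) (by positivity) ((div_le_one hh0).2 hu2)
        have h2 : (1 - 2 * u / h0) * μ + 2 * u / h0 * (μ + h0) = μ + 2 * u := by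
          field_simp
          ring
        rw [h2] at h1
        have h3 : 2 * u * s = 2 * u / h0 * (g (μ + h0) - g μ) := by
          rw [hs]
          field_simp
        rw [h3]
        linarith
      -- the second variable
      have e2 : g μ - k * u * θ ≤ P μ (-(k * u)) := by
        rcases Nat.eq_zero_or_pos k with hk | hk
        · subst hk
          simp [hgP]
        · have hk' : (0 : ℝ) < k := by exact_mod_cast hk
          have hku : 0 < (k : ℝ) * u := by positivity
          have h1 := hmin μ (k * u) hku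
          have h2 := F1 μ D (k * u) hku hu3
          have h3 : θ * (k * u) ≤ g μ - g (μ - k * u) := by
            refine le_trans ?_ h2
            have h4 : k * u / D * (θ * D) ≤ k * u / D * (g μ - g (μ - D)) :=
              mul_le_mul_of_nonneg_left hDg.le (by positivity)
            refine le_trans (le_of_eq ?_) h4
            field_simp
          have h5 : ¬ θ * (k * u) ≤ g μ - P μ (-(k * u)) := fun h6 => h1 ⟨h3, h6⟩
          push Not at h5
          linarith
      -- the midpoint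
      have e3 : 2 * P μ (-(k * u)) ≤ P (μ - 2 * u) (-(2 * u * k)) + g (μ + 2 * u) := by
        have h1 := hc (μ - 2 * u) (-(2 * u * k)) (μ + 2 * u) 0 (1 / 2) (by norm_num) (by norm_num)
        have h2 : (1 - 1 / 2) * (μ - 2 * u) + 1 / 2 * (μ + 2 * u) = μ := by ring
        have h3 : (1 - 1 / 2) * (-(2 * u * k)) + 1 / 2 * 0 = -(k * u) := by ring
        rw [h2, h3, hgP] at h1
        linarith
      have e4 : P (μ - 2 * u) (-(2 * u * k)) ≤ (1 - 2 * u) * g μ + 2 * u * P (μ - 1) (-k) := by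
        have h1 := hc μ 0 (μ - 1) (-k) (2 * u) (by positivity) hu1
        have h2 : (1 - 2 * u) * μ + 2 * u * (μ - 1) = μ - 2 * u := by ring
        have h3 : (1 - 2 * u) * 0 + 2 * u * (-(k : ℝ)) = -(2 * u * k) := by ring
        rw [h2, h3, hgP] at h1
        exact h1
      have e5 := hstar μ (by linarith)
      have e6 : 2 * u * P (μ - 1) (-k) ≤ 2 * u * (g μ - c) :=
        mul_le_mul_of_nonneg_left e5 (by positivity)
      have e7 : 2 * u * (c - k * θ) ≤ 2 * u * s := by
        have h1 : 2 * (g μ - k * u * θ) ≤ (1 - 2 * u) * g μ + 2 * u * (g μ - c) +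
            (g μ + 2 * u * s) := by linarith
        have h2 : (1 - 2 * u) * g μ + 2 * u * (g μ - c) + (g μ + 2 * u * s) =
            2 * g μ - 2 * u * c + 2 * u * s := by ring
        have h3 : 2 * u * (c - k * θ) = 2 * u * c - 2 * (k * u * θ) := by ring
        rw [h3]
        linarith
      have e8 := le_of_mul_le_mul_left e7 (by positivity)
      linarith
    intro h hh
    have h1 : Tendsto (fun μ : ℝ => g μ + h * (c - k * θ)) (𝓝[>] w)
        (𝓝 (g w + h * (c - k * θ))) :=
      ((hgcont.tendsto w).mono_left nhdsWithin_le_nhds).add_const _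
    have h2 : Tendsto (fun μ : ℝ => g (μ + h)) (𝓝[>] w) (𝓝 (g (w + h))) := by
      have h3 : Continuous fun μ : ℝ => g (μ + h) := hgcont.comp (continuous_add_const h)
      exact (h3.tendsto w).mono_left nhdsWithin_le_nhds
    refine le_of_tendsto_of_tendsto h1 h2 ?_
    filter_upwards [self_mem_nhdsWithin] with μ hμ
    exact habove μ hμ h hh
  · intro h hh
    obtain ⟨x, hxm, hxt, hxW⟩ := exists_seq_tendsto_sSup hne hbdd
    rw [← hw] at hxt
    have h1 : Tendsto (fun n => g (x n) - g (x n - h)) atTop (𝓝 (g w - g (w - h))) := by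
      have h3 : Continuous fun μ : ℝ => g μ - g (μ - h) :=
        hgcont.sub (hgcont.comp (continuous_sub_right h))
      exact (h3.tendsto w).comp hxt
    have h2 := le_of_tendsto' h1 fun n => (hWmem _).1 (hxW n) h hh
    linarith [mul_comm θ h]

end Pool.Agent.Mix
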