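import Pool.Agent.Lib.MP_09cbbd_sw.BoxDef

/-!
# A mixture of two species of hard spheres: definitions
-/

set_option autoImplicit false

namespace Pool.Agent.MixGas

open MeasureTheory Filter Topology Pool.Agent.SquareWellGas

/-- Partition function of a mixture of hard spheres in the box `[0, ℓ)^d`: `N` spheres of
radius `a` (centres `x_i`) and, at activity `z`, any number `M` of spheres of radius `b` (centres
`y_j`); centres of different species are at distance at least `R`: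
`(1 / N!) ∑_M (z ^ M / M!) vol {(x, y)}` over the configurations with `|x_i - x_j| ≥ 2 a` and
`|y_i - y_j| ≥ 2 b` for `i ≠ j`, and `|x_i - y_j| ≥ R` for all `i`, `j`. -/
noncomputable def Z (d : ℕ) (a b R z : ℝ) (ℓ : ℝ) (N : ℕ) : ℝ :=
  ((N.factorial : ℝ))⁻¹ * ∑' M : ℕ, z ^ M / M.factorial *
    volume.real {p : (Fin N → Fin d → ℝ) × (Fin M → Fin d → ℝ) |
      (∀ i, p.1 i ∈ Box d ℓ) ∧ (∀ j, p.2 j ∈ Box d ℓ) ∧
      (∀ i j, i ≠ j → (2 * a) ^ 2 ≤ ∑ k, (p.1 i k - p.1 j k) ^ 2) ∧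
      (∀ i j, i ≠ j → (2 * b) ^ 2 ≤ ∑ k, (p.2 i k - p.2 j k) ^ 2) ∧
      ∀ i j, R ^ 2 ≤ ∑ k, (p.1 i k - p.2 j k) ^ 2}

/-- First-order phase transition between a dilute phase with the density `ρ₁ ≤ δ` and a dense
phase with the density `ρ₂ ≥ ρ₀ - δ` of the spheres of radius `a`, where `ρ₀` is the maximal
density. For cubes `[0, ℓ)^d` and particle numbers `N` with `ℓ → ∞` and `N / ℓ^d → ρ`, the
partition function is eventually positive with `log Z / ℓ^d → f ρ` if `0 < ρ < ρ₀`, and eventually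
zero if `ρ > ρ₀`. On `(0, ρ₀)` the function `f` is at most an affine function, with equality
exactly on an interval `[ρ₁, ρ₂]` with `0 < ρ₁ < ρ₂ < ρ₀`, and `f` is not real-analytic at `ρ₁`
and at `ρ₂`. -/
def Transition (d : ℕ) (a b R z ρ₀ δ : ℝ) : Prop :=
  ∃ (f : ℝ → ℝ) (ρ₁ ρ₂ c e : ℝ), 0 < ρ₁ ∧ ρ₁ < ρ₂ ∧ ρ₂ < ρ₀ ∧ ρ₁ ≤ δ ∧ ρ₀ - δ ≤ ρ₂ ∧
    (∀ (ℓ : ℕ → ℝ) (N : ℕ → ℕ) (ρ : ℝ), Tendsto ℓ atTop atTop →
      Tendsto (fun j => (N j : ℝ) / ℓ j ^ d) atTop (𝓝 ρ) →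
      (ρ ∈ Set.Ioo 0 ρ₀ → (∀ᶠ j in atTop, 0 < Z d a b R z (ℓ j) (N j)) ∧
        Tendsto (fun j => Real.log (Z d a b R z (ℓ j) (N j)) / ℓ j ^ d) atTop (𝓝 (f ρ))) ∧
      (ρ₀ < ρ → ∀ᶠ j in atTop, Z d a b R z (ℓ j) (N j) = 0)) ∧
    (∀ ρ ∈ Set.Ioo 0 ρ₀, f ρ ≤ c * ρ + e ∧ (f ρ = c * ρ + e ↔ ρ ∈ Set.Icc ρ₁ ρ₂)) ∧
    ¬ AnalyticAt ℝ f ρ₁ ∧ ¬ AnalyticAt ℝ f ρ₂

end Pool.Agent.MixGas
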