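import Pool.Agent.Lib.MP_09cbbd_mix.Pei
import Pool.Agent.Lib.MP_09cbbd_mix.Est
import Pool.Agent.Lib.MP_09cbbd_mix.Star
import Pool.Agent.Lib.MP_09cbbd_mix.Cvx
import Pool.Agent.Lib.MP_09cbbd_mx.CvxD

/-!
# The lattice model: a kink with almost the full jump
-/

set_option autoImplicit false

namespace Pool.Agent.Mix

open MeasureTheory Finset Filter Topology Pool.Agent.StableGas Pool.Agent.SquareWell

namespace Dem

variable {d : ℕ} {E : Type} [MeasurableSpace E] (M : Mx d E)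

theorem πB_le {t : ℝ} {k : ℕ} (ht : -(k : ℝ) ≤ t) :
    ex (-((k : ℝ) * M.N)) * M.π {x | 1 ≤ M.nB x} ≤ M.mB t := by
  unfold Mx.mB
  rw [← setLIntegral_const]
  refine setLIntegral_mono' (Bas.measurableSet_B M) fun x _ => ?_
  refine ex_le_ex.2 ?_
  have h1 : (M.nB x : ℝ) ≤ M.N := by exact_mod_cast M.nB_le x
  have h2 : (0 : ℝ) ≤ M.nB x := Nat.cast_nonneg _
  have h3 : (0 : ℝ) ≤ k := Nat.cast_nonneg _
  nlinarith

theorem exp_small {θ R Q : ℝ} (hθ : 0 < θ) (hR : 0 < R) (hQ : R * Real.log (8 / θ) ≤ Q) :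
    4 * Real.exp (-(Q / R)) ≤ θ / 2 := by
  have h1 : Real.log (8 / θ) ≤ Q / R := by
    rw [le_div_iff₀ hR]
    linarith [mul_comm R (Real.log (8 / θ))]
  have h2 : Real.exp (-(Q / R)) ≤ Real.exp (-Real.log (8 / θ)) :=
    Real.exp_le_exp.2 (neg_le_neg h1)
  rw [Real.exp_neg (Real.log (8 / θ)), Real.exp_log (by positivity)] at h2
  have h3 : (8 / θ)⁻¹ = θ / 8 := by rw [inv_div]
  rw [h3] at h2
  linarith

/-- The pressure of `B` alone decreases with the field. -/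
theorem star_iter {qb : ℝ → ℝ → ℝ} (hd : 1 ≤ d) (hqb : M.onlyB.IsP qb) (k : ℕ)
    (h : ∀ t, -(k : ℝ) ≤ t → 4 ≤ qb 0 t) :
    ∀ j : ℕ, j ≤ k → qb 0 (-(j : ℝ)) ≤ qb 0 0 - j * (1 / (2 * (M.r + 1 : ℝ) ^ d)) := by
  intro j
  induction j with
  | zero => intro _; simp
  | succ j ih =>
    intro hj
    have hj' : (j : ℝ) + 1 ≤ k := by exact_mod_cast hj
    have h1 := ih (by omega)
    have h2 := star hd hqb (μ := 0) (t := -(j : ℝ)) (h _ (by linarith))
    have h3 : (M.onlyB.r : ℝ) = M.r := rfl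
    rw [h3, onlyB_indep hqb (0 - 1) 0] at h2
    have h4 : -((j + 1 : ℕ) : ℝ) = -(j : ℝ) - 1 := by push_cast; ring
    rw [h4]
    push_cast
    linarith

end Dem

/-- For a large mass of the contents of type `B` the pressure has a kink with left slope at most
`δ` and right slope at least `ρ - δ`, where `ρ` is less than the maximal density of `A`. -/
theorem demix (d r N : ℕ) (hd : 2 ≤ d) {Q0 : ℝ → ℝ} (hQ : ConvexOn ℝ Set.univ Q0) {ρ b0 δ : ℝ}
    (hδ : 0 < δ) (hδρ : δ < ρ) (hlin : ∀ μ, 0 ≤ μ → ρ * μ - b0 ≤ Q0 μ) :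
    ∃ C : ℝ, ∀ (E : Type) (_ : MeasurableSpace E) (M : Mx d E), M.r = r → M.N = N →
      C ≤ Real.log (M.π {x | 1 ≤ M.nB x}).toReal →
      ∀ p qa : ℝ → ℝ → ℝ, M.IsP p → M.onlyA.IsP qa → (∀ μ, qa μ 0 = Q0 μ) →
        ∃ w : ℝ, (∀ h, 0 < h → p w 0 + h * (ρ - δ) ≤ p (w + h) 0) ∧
          ∀ h, 0 < h → p w 0 - h * δ ≤ p (w - h) 0 := by
  have hd1 : 1 ≤ d := by omega
  have hρ0 : 0 < ρ := hδ.trans hδρ
  set R1 : ℝ := ((r : ℝ) + 1) ^ d with hR1
  set R2 : ℝ := (2 * (r : ℝ) + 1) ^ d with hR2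
  set R3 : ℝ := (2 * ((r : ℝ) + 2) + 1) ^ d with hR3
  have r0 : (0 : ℝ) ≤ r := Nat.cast_nonneg r
  have R1pos : 0 < R1 := by positivity
  have R2one : 1 ≤ R2 := one_le_pow₀ (by linarith)
  have R3pos : 0 < R3 := by positivity
  -- the number of steps
  obtain ⟨k, hk⟩ := exists_nat_ge (2 * R1 * ρ)
  have hk0 : (0 : ℝ) ≤ k := Nat.cast_nonneg k
  have hkc : ρ ≤ k * (1 / (2 * R1)) := by
    rw [mul_one_div, le_div_iff₀ (by positivity)]
    linarith
  obtain ⟨θ, hθdef⟩ : ∃ θ : ℝ, θ = min (1 / (8 * R1 * R2)) (δ / (4 * (k + 1))) := ⟨_, rfl⟩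
  have hθ : 0 < θ := by
    rw [hθdef]
    exact lt_min (by positivity) (by positivity)
  have hθ1 : 4 * R1 * R2 * θ ≤ 1 := by
    have h1 : θ ≤ 1 / (8 * R1 * R2) := by rw [hθdef]; exact min_le_left _ _
    have h2 : 4 * R1 * R2 * θ ≤ 4 * R1 * R2 * (1 / (8 * R1 * R2)) :=
      mul_le_mul_of_nonneg_left h1 (by positivity)
    have h3 : 4 * R1 * R2 * (1 / (8 * R1 * R2)) = 1 / 2 := by field_simp; norm_num
    linarith
  have hθ2 : 4 * ((k + 1) * θ) ≤ δ := by
    have h1 : θ ≤ δ / (4 * (k + 1)) := by rw [hθdef]; exact min_le_right _ _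
    rw [le_div_iff₀ (by positivity)] at h1
    linarith
  have hkθ : 0 ≤ k * θ := by positivity
  -- the threshold for the field of `A`
  obtain ⟨μ1, hμ10, hμ1⟩ : ∃ μ1 : ℝ, 0 ≤ μ1 ∧
      ∀ μ, μ1 ≤ μ → Q0 (μ - 1) ≤ Q0 μ - (ρ - δ / 4) := by
    have key : ∃ μ1 : ℝ, 1 ≤ μ1 ∧ ρ - δ / 4 ≤ Q0 μ1 - Q0 (μ1 - 1) := by
      by_contra hcon
      push Not at hcon
      have h1 : ∀ n : ℕ, Q0 n ≤ Q0 0 + n * (ρ - δ / 4) := by
        intro n
        induction n with
        | zero => simp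
        | succ n ih =>
          have h2 := hcon ((n : ℝ) + 1) (by linarith [(Nat.cast_nonneg n : (0 : ℝ) ≤ n)])
          rw [add_sub_cancel_right] at h2
          push_cast
          linarith
      obtain ⟨n, hn⟩ := exists_nat_gt ((Q0 0 + b0) / (δ / 4))
      rw [div_lt_iff₀ (by positivity)] at hn
      have h2 := h1 n
      have h3 := hlin n (Nat.cast_nonneg n)
      linarith
    obtain ⟨μ1, h1, h2⟩ := key
    refine ⟨μ1, by linarith, fun μ hμ => ?_⟩
    rcases eq_or_lt_of_le hμ with h | h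
    · rw [← h]
      linarith
    · -- the increments of a convex function increase
      have hT : 0 < μ - μ1 + 1 := by linarith
      obtain ⟨s, hs⟩ : ∃ s, s = 1 / (μ - μ1 + 1) := ⟨_, rfl⟩
      have hs0 : 0 ≤ s := by rw [hs]; positivity
      have hs1 : s ≤ 1 := by
        rw [hs, div_le_one hT]
        linarith
      have hsT : s * (μ - μ1 + 1) = 1 := by
        rw [hs]
        field_simp
      have e1 := hQ.2 (Set.mem_univ (μ1 - 1)) (Set.mem_univ μ) (sub_nonneg.2 hs1) hs0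
        (by ring : 1 - s + s = 1)
      have e2 := hQ.2 (Set.mem_univ (μ1 - 1)) (Set.mem_univ μ) hs0 (sub_nonneg.2 hs1)
        (by ring : s + (1 - s) = 1)
      simp only [smul_eq_mul] at e1 e2
      have e3 : (1 - s) * (μ1 - 1) + s * μ = μ1 := by
        have : (1 - s) * (μ1 - 1) + s * μ = μ1 - 1 + s * (μ - μ1 + 1) := by ring
        rw [this, hsT]
        ring
      have e4 : s * (μ1 - 1) + (1 - s) * μ = μ - 1 := by
        have : s * (μ1 - 1) + (1 - s) * μ = μ - s * (μ - μ1 + 1) := by ring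
        rw [this, hsT]
      rw [e3] at e1
      rw [e4] at e2
      linarith
  obtain ⟨C1, hC1⟩ := no_equal d r N hd hθ hθ1
  set C2 : ℝ := R3 * Real.log (8 / θ) with hC2
  set C3 : ℝ := Q0 (μ1 + 1) with hC3
  set C0 : ℝ := max (max (max 4 C1) C2) C3 with hC0
  have hC04 : 4 ≤ C0 := ((le_max_left _ _).trans (le_max_left _ _)).trans (le_max_left _ _)
  have hC01 : C1 ≤ C0 := ((le_max_right _ _).trans (le_max_left _ _)).trans (le_max_left _ _)
  have hC02 : C2 ≤ C0 := (le_max_right _ _).trans (le_max_left _ _)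
  have hC03 : C3 ≤ C0 := le_max_right _ _
  refine ⟨R1 * C0 + k * N, ?_⟩
  intro E _ M hr hN hB p qa hp hqa hQa
  obtain ⟨qb, hqb⟩ := exists_p M.onlyB hd1
  have hkN : 0 ≤ (k : ℝ) * N := by positivity
  have hBpos : 0 < (M.π {x | 1 ≤ M.nB x}).toReal := by
    rcases eq_or_lt_of_le (ENNReal.toReal_nonneg (a := M.π {x | 1 ≤ M.nB x})) with h | h
    · rw [← h, Real.log_zero] at hB
      nlinarith
    · exact h
  have hq : ∀ μ t, -(k : ℝ) ≤ t → C0 ≤ qb μ t := by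
    intro μ t ht
    have h1 := onlyB_ge_mass hd1 hqb μ t
    rw [hr] at h1
    have h2 : Real.exp (-((k : ℝ) * N)) * (M.π {x | 1 ≤ M.nB x}).toReal ≤ (M.mB t).toReal := by
      have e1 : (ex (-((k : ℝ) * M.N)) * M.π {x | 1 ≤ M.nB x}).toReal
          = Real.exp (-((k : ℝ) * N)) * (M.π {x | 1 ≤ M.nB x}).toReal := by
        rw [ENNReal.toReal_mul, hN]
        congr 1
        unfold ex
        exact ENNReal.toReal_ofReal (Real.exp_pos _).le
      rw [← e1]
      exact ENNReal.toReal_mono (Bas.mB_ne_top M t) (Dem.πB_le M ht)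
    have h4 : -((k : ℝ) * N) + Real.log (M.π {x | 1 ≤ M.nB x}).toReal ≤
        Real.log (1 + (M.mB t).toReal) := by
      have e2 : -((k : ℝ) * N) + Real.log (M.π {x | 1 ≤ M.nB x}).toReal
          = Real.log (Real.exp (-((k : ℝ) * N)) * (M.π {x | 1 ≤ M.nB x}).toReal) := by
        rw [Real.log_mul (Real.exp_pos _).ne' hBpos.ne', Real.log_exp]
      rw [e2]
      exact Real.log_le_log (by positivity) (by linarith)
    have h5 : R1 * C0 ≤ R1 * qb μ t := by linarith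
    exact le_of_mul_le_mul_left h5 R1pos
  have hneg : -(k : ℝ) ≤ 0 := by linarith
  have hpq : ∀ μ t, -(k : ℝ) ≤ t → C0 ≤ p μ t := fun μ t ht =>
    (hq μ t ht).trans (hp.onlyB_le hqb μ t)
  have hpei : ∀ μ t, -(k : ℝ) ≤ t → p μ t ≤ max (qa μ t) (qb μ t) + θ / 2 := by
    intro μ t ht
    have h1 := peierls hd hp hqa hqb μ t
    rw [hr] at h1
    have h2 : 4 * Real.exp (-(max (qa μ t) (qb μ t) / R3)) ≤ θ / 2 :=
      Dem.exp_small hθ R3pos (hC02.trans ((hq μ t ht).trans (le_max_right _ _)))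
    exact h1.trans (by linarith)
  have key := no_both p hp.convex (t0 := 0) hθ (fun μ t D ht hD e1 e2 => by
    have h4 := hpei μ t (by linarith)
    rcases le_total (qa μ t) (qb μ t) with h | h
    · rw [max_eq_right h, onlyB_indep hqb μ (μ - D) t] at h4
      have h5 := hp.onlyB_le hqb (μ - D) t
      have h6 : θ * D ≤ θ * (1 / 2) := by linarith
      exact le_of_mul_le_mul_left h6 hθ
    · rw [max_eq_left h, onlyA_indep hqa μ t (t - D)] at h4
      have h5 := hp.onlyA_le hqa μ (t - D)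
      have h6 : θ * D ≤ θ * (1 / 2) := by linarith
      exact le_of_mul_le_mul_left h6 hθ)
    (fun μ t D ht hD hD2 => hC1 E _ M hr hN p hp μ t D hD hD2
      (hC01.trans (hpq μ t (by linarith))))
  have hQp : ∀ μ, Q0 μ ≤ p μ 0 := fun μ => by
    rw [← hQa]
    exact hp.onlyA_le hqa μ 0
  have hqb0 : ∀ μ, qb 0 0 ≤ p μ 0 := fun μ => by
    rw [onlyB_indep hqb 0 μ 0]
    exact hp.onlyB_le hqb μ 0
  have hstar := Dem.star_iter M hd1 hqb k (fun t ht => hC04.trans (hq 0 t ht)) k le_rfl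
  rw [hr] at hstar
  have g1 : ∀ μ, μ1 ≤ μ → p (μ - 1) (-(k : ℝ)) ≤ p μ 0 - (ρ - δ / 2) := by
    intro μ hμ
    have h1 := hpei (μ - 1) (-(k : ℝ)) le_rfl
    have h2 := hμ1 μ hμ
    have h3 := hQp μ
    have h4 := hqb0 μ
    rcases le_total (qa (μ - 1) (-(k : ℝ))) (qb (μ - 1) (-(k : ℝ))) with h | h
    · rw [max_eq_right h, onlyB_indep hqb (μ - 1) 0] at h1
      linarith
    · rw [max_eq_left h, onlyA_indep hqa (μ - 1) _ 0, hQa] at h1
      linarith
  have g2 : ∀ μ D, 0 < D → ¬ (θ * D ≤ p μ 0 - p (μ - D) 0 ∧ θ * D ≤ p μ 0 - p μ (-D)) := by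
    intro μ D hD
    have h1 := key μ 0 D le_rfl hD
    rw [zero_sub] at h1
    exact h1
  have g3 : ∀ D, 0 < D → p μ1 0 - p (μ1 - D) 0 ≤ θ * D := by
    intro D hD
    have h1 := hpei (μ1 + 1) 0 hneg
    have h2 : max (qa (μ1 + 1) 0) (qb (μ1 + 1) 0) = qb 0 0 := by
      rw [hQa, onlyB_indep hqb (μ1 + 1) 0 0, max_eq_right]
      exact hC03.trans (hq 0 0 hneg)
    rw [h2] at h1
    have h3 := hqb0 μ1
    -- convexity between `μ1 - D`, `μ1`, `μ1 + 1`
    obtain ⟨s, hs⟩ : ∃ s, s = D / (1 + D) := ⟨_, rfl⟩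
    have hs0 : 0 ≤ s := by rw [hs]; positivity
    have hD1 : 0 < 1 + D := by linarith
    have hs1 : 1 - s = 1 / (1 + D) := by
      rw [hs]
      field_simp
      ring
    have h4 := hp.convex.2 (Set.mem_univ ((μ1 - D, 0) : ℝ × ℝ))
      (Set.mem_univ ((μ1 + 1, 0) : ℝ × ℝ)) (by rw [hs1]; positivity : 0 ≤ 1 - s) hs0
      (by ring : 1 - s + s = 1)
    simp only [Prod.smul_mk, Prod.mk_add_mk, smul_eq_mul, mul_zero, add_zero] at h4
    have h5 : (1 - s) * (μ1 - D) + s * (μ1 + 1) = μ1 := by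
      rw [hs1, hs]
      field_simp
      ring
    rw [h5, hs1, hs] at h4
    have h6 : p μ1 0 * (1 + D) ≤ p (μ1 - D) 0 + D * p (μ1 + 1) 0 := by
      have h7 := mul_le_mul_of_nonneg_right h4 hD1.le
      have h8 : (1 / (1 + D) * p (μ1 - D) 0 + D / (1 + D) * p (μ1 + 1) 0) * (1 + D) =
          p (μ1 - D) 0 + D * p (μ1 + 1) 0 := by
        field_simp
      linarith
    have h9 : D * p (μ1 + 1) 0 ≤ D * (qb 0 0 + θ / 2) := mul_le_mul_of_nonneg_left h1 hD.le
    have h10 : D * qb 0 0 ≤ D * p μ1 0 := mul_le_mul_of_nonneg_left h3 hD.le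
    have h11 : 0 ≤ D * θ := by positivity
    linarith
  have g4 : ∀ μ, 0 ≤ μ → ρ * μ - b0 ≤ p μ 0 := fun μ hμ => (hlin μ hμ).trans (hQp μ)
  have g5 : θ < ρ := by linarith
  obtain ⟨w, hw1, hw2⟩ := kink_demix p hp.convex hθ g1 g2 g3 g4 g5
  refine ⟨w, fun h hh => (hw1 h hh).trans' ?_, fun h hh => (hw2 h hh).trans' ?_⟩
  · have h1 : ρ - δ ≤ ρ - δ / 2 - k * θ := by linarith
    have := mul_le_mul_of_nonneg_left h1 hh.le
    linarith
  · have h1 : θ ≤ δ := by linarith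
    have := mul_le_mul_of_nonneg_left h1 hh.le
    linarith

end Pool.Agent.Mix
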