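import Pool.Agent.Lib.MP_09cbbd_mx.Mod2
import Pool.Agent.Lib.MP_09cbbd_mx.KinkM
import Pool.Agent.Lib.MP_09cbbd_mx.Dem

/-!
# The transition in the mixture
-/

set_option autoImplicit false

namespace Pool.Agent.Mix

open MeasureTheory Finset Filter Topology Pool.Agent.StableGas Pool.Agent.SquareWell
  Pool.Agent.MixGas

theorem convex_sec {P : ℝ → ℝ → ℝ} (hP : ConvexOn ℝ Set.univ fun q : ℝ × ℝ => P q.1 q.2) :
    ConvexOn ℝ Set.univ fun μ : ℝ => P μ 0 := by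
  refine ⟨convex_univ, fun x _ y _ s t hs ht hst => ?_⟩
  have h4 := hP.2 (Set.mem_univ (x, (0 : ℝ))) (Set.mem_univ (y, (0 : ℝ))) hs ht hst
  simpa using h4

theorem mixture_demixing {d : ℕ} (hd : 2 ≤ d) {a b R : ℝ} (ha : 0 < a) (hb : 0 ≤ b)
    (hR : 2 * (a + b) < R) : ∃ ρ₀ : ℝ, 0 < ρ₀ ∧ ∀ δ : ℝ, 0 < δ →
      ∃ z₀ : ℝ, 0 < z₀ ∧ ∀ z : ℝ, z₀ ≤ z → Transition d a b R z ρ₀ δ := by
  have hd1 : 1 ≤ d := by omega
  obtain ⟨l0, r, N, hl, H⟩ := exists_model' hd1 ha hb hR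
  have hld : 0 < l0 ^ d := by positivity
  -- the unit of length
  obtain ⟨K0, hK⟩ := exists_nat_gt (R / l0)
  rw [div_lt_iff₀ hl] at hK
  have hR0 : 0 < R := by linarith
  have hK0 : 1 ≤ K0 := by
    rcases Nat.eq_zero_or_pos K0 with h | h
    · rw [h] at hK
      simp at hK
      linarith
    · exact h
  have hK0' : (0 : ℝ) < K0 := by exact_mod_cast hK0
  have hKd : (0 : ℝ) < (K0 : ℝ) ^ d := by positivity
  have P0 : CanM.Par a b R 0 := ⟨ha, hb, hR, le_rfl⟩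
  obtain ⟨rz, hrz⟩ : ∃ rz, rz = Th.rz d (Zt d a b R 0 (K0 * l0)) := ⟨_, rfl⟩
  have hrz0 : 0 < rz := by
    rw [hrz]
    exact rz_pos hd1 P0 hK
  have hlK : (0 : ℝ) < (K0 * l0) ^ d := by positivity
  refine ⟨rz / (K0 * l0) ^ d, by positivity, fun δ hδ => ?_⟩
  obtain ⟨ρc, hρc⟩ : ∃ ρc, ρc = rz / (K0 : ℝ) ^ d := ⟨_, rfl⟩
  have hρc0 : 0 < ρc := by rw [hρc]; positivity
  have hρrz : (K0 : ℝ) ^ d * ρc = rz := by
    rw [hρc]
    field_simp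
  obtain ⟨δ', hδ'⟩ : ∃ δ', δ' = min (δ * l0 ^ d / 2) (ρc / 4) := ⟨_, rfl⟩
  have hδ'0 : 0 < δ' := by
    rw [hδ']
    exact lt_min (by positivity) (by positivity)
  have hδ'1 : δ' ≤ δ * l0 ^ d / 2 := by rw [hδ']; exact min_le_left _ _
  have hδ'2 : δ' ≤ ρc / 4 := by rw [hδ']; exact min_le_right _ _
  -- the first species alone
  obtain ⟨Q0, hQc, hQlim, hQlin⟩ : ∃ Q0 : ℝ → ℝ, ConvexOn ℝ Set.univ Q0 ∧
      (∀ μ : ℝ, Tendsto (fun L : ℕ => Real.log (∑' n : ℕ, ex (μ * n) *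
        ENNReal.ofReal (Z d a b R 0 (L * l0) n)).toReal / (L : ℝ) ^ d) atTop (𝓝 (Q0 μ))) ∧
      ∃ b0 : ℝ, ∀ μ, 0 ≤ μ → (ρc - δ') * μ - b0 ≤ Q0 μ := by
    obtain ⟨E, mE, M, hr, hN, hB, hlink, hlinkA⟩ := H 0 le_rfl
    obtain ⟨qa, hqa⟩ := exists_p M.onlyA hd1
    have hlim : ∀ μ : ℝ, Tendsto (fun L : ℕ => Real.log (∑' n : ℕ, ex (μ * n) *
        ENNReal.ofReal (Z d a b R 0 (L * l0) n)).toReal / (L : ℝ) ^ d) atTop (𝓝 (qa μ 0)) :=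
      fun μ => (hqa μ 0).congr fun L => by rw [hlinkA]
    refine ⟨fun μ => qa μ 0, convex_sec hqa.convex, hlim, ?_⟩
    obtain ⟨hpu, -⟩ := ensembles hd1 P0 hK0 hK hlim
    obtain ⟨U, B, T⟩ := exists_thG hd1 P0 hK
    have hlt : (K0 : ℝ) ^ d * (ρc - δ') < Th.rz d (Zt d a b R 0 (K0 * l0)) := by
      rw [← hrz, ← hρrz]
      have := mul_pos hKd hδ'0
      linarith
    obtain ⟨L, n, hL, hpos, hn⟩ := T.reach hlt
    have hL' : (0 : ℝ) < L := by exact_mod_cast hL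
    have hLd : (0 : ℝ) < (L : ℝ) ^ d := by positivity
    refine ⟨-(Real.log (Zt d a b R 0 (K0 * l0) L n) / ((K0 : ℝ) ^ d * (L : ℝ) ^ d)),
      fun μ hμ => ?_⟩
    have h1 := hpu μ L n hL hpos
    have h2 : (K0 : ℝ) ^ d * (ρc - δ') * (L : ℝ) ^ d ≤ n := by
      exact hn.le
    have h3 := mul_le_mul_of_nonneg_left h2 hμ
    have h4 : (μ * ((K0 : ℝ) ^ d * (ρc - δ') * (L : ℝ) ^ d) +
        Real.log (Zt d a b R 0 (K0 * l0) L n)) / ((K0 : ℝ) ^ d * (L : ℝ) ^ d) ≤ qa μ 0 := by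
      rw [div_le_iff₀ (by positivity)]
      linarith
    have h5 : (μ * ((K0 : ℝ) ^ d * (ρc - δ') * (L : ℝ) ^ d) +
        Real.log (Zt d a b R 0 (K0 * l0) L n)) / ((K0 : ℝ) ^ d * (L : ℝ) ^ d) =
        (ρc - δ') * μ - -(Real.log (Zt d a b R 0 (K0 * l0) L n) /
          ((K0 : ℝ) ^ d * (L : ℝ) ^ d)) := by
      field_simp
      ring
    rw [← h5]
    exact h4
  obtain ⟨b0, hb0⟩ := hQlin
  obtain ⟨C, hC⟩ := demix d r N hd hQc hδ'0 (by linarith : δ' < ρc - δ') hb0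
  refine ⟨Real.exp C / l0 ^ d, by positivity, fun z hz => ?_⟩
  have hz0 : 0 < z := lt_of_lt_of_le (by positivity) hz
  rw [div_le_iff₀ hld] at hz
  obtain ⟨E, mE, M, hr, hN, hB, hlink, hlinkA⟩ := H z hz0.le
  obtain ⟨p, hp⟩ := exists_p M hd1
  obtain ⟨qa, hqa⟩ := exists_p M.onlyA hd1
  have h1 : C ≤ Real.log (M.π {x | 1 ≤ M.nB x}).toReal := by
    have h2 : M.π {x | 1 ≤ M.nB x} ≠ ⊤ :=
      ne_top_of_le_ne_top M.π_fin (measure_mono (Set.subset_univ _))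
    have h3 := ENNReal.toReal_mono h2 hB
    rw [ENNReal.toReal_ofReal (by positivity)] at h3
    have h4 := Real.log_le_log (Real.exp_pos C) (hz.trans h3)
    rwa [Real.log_exp] at h4
  have hQa : ∀ μ, qa μ 0 = Q0 μ := fun μ =>
    tendsto_nhds_unique ((hqa μ 0).congr fun L => by rw [hlinkA]) (hQlim μ)
  obtain ⟨w, hw1, hw2⟩ := hC E mE M hr hN h1 p qa hp hqa hQa
  have P : CanM.Par a b R z := ⟨ha, hb, hR, hz0.le⟩
  have h2 := trans_of_kink hd1 P hK0 hK (q := fun μ => p μ 0)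
    (fun μ => (hp μ 0).congr fun L => by rw [hlink])
    (n1 := δ') (n2 := ρc - δ' - δ') (by linarith) hw1 hw2
  rw [rz_eq P P0, ← hrz] at h2
  obtain ⟨f, ρ₁, ρ₂, c, e, c1, c2, c3, c4, c5, c6⟩ := h2
  refine ⟨f, ρ₁, ρ₂, c, e, c1, c2, c3, ?_, ?_, c6⟩
  · refine c4.trans ?_
    rw [div_le_iff₀ hld]
    have : 0 < δ * l0 ^ d := by positivity
    linarith
  · refine le_trans ?_ c5
    rw [le_div_iff₀ hld]
    have h3 : (rz / (K0 * l0) ^ d - δ) * l0 ^ d = ρc - δ * l0 ^ d := by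
      rw [hρc, mul_pow]
      field_simp
    rw [h3]
    linarith

end Pool.Agent.Mix
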