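import Pool.Agent.Lib.MP_09cbbd_mx.End

/-!
# Demixing of a mixture of two species of hard spheres in the continuum
-/

set_option autoImplicit false

namespace Pool.Agent.Lib.MP_09cbbd_mx.HardSphereDemixing

/-- A mixture of hard spheres of radius `a` and of radius `b` in `ℝ^d`, `d ≥ 2`, in which centres
of different species are at distance at least `R > 2 (a + b)`, has a first-order phase
transition: there is no attraction and no external field. If the activity `z` of the second
species is large, the first species has two coexisting phases, one with density at most `δ`, the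
other with density at least `ρ₀ - δ`, where `ρ₀` is the maximal density of the first species. -/
theorem result (d : ℕ) (hd : 2 ≤ d) (a b R : ℝ) (ha : 0 < a) (hb : 0 ≤ b)
    (hR : 2 * (a + b) < R) :
    ∃ ρ₀ : ℝ, 0 < ρ₀ ∧ ∀ δ : ℝ, 0 < δ → ∃ z₀ : ℝ, 0 < z₀ ∧ ∀ z : ℝ, z₀ ≤ z →
      Pool.Agent.MixGas.Transition d a b R z ρ₀ δ :=
  Pool.Agent.Mix.mixture_demixing hd ha hb hR

end Pool.Agent.Lib.MP_09cbbd_mx.HardSphereDemixing
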