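import Pool.Agent.Lib.MP_09cbbd_mx.ModM

/-!
# The link between the mixture and the gas on cells
-/

set_option autoImplicit false

namespace Pool.Agent.Mix

open MeasureTheory Finset Filter Topology Pool.Agent.StableGas Pool.Agent.SquareWellGas
  Pool.Agent.SquareWell Pool.Agent.MixGas Pool.Agent.SquareWell.ModA Ct

namespace ModX

open Pool.Agent.ConfinedGas CanM

variable {d : ℕ} {a b R y l0 : ℝ} {r : ℕ}

theorem mem_cell (hl : 0 < l0) (i : Zd d) (x : Fin d → ℝ) :
    tr l0 (-i) x ∈ Box d l0 ↔ ∀ k, i k = ⌊x k / l0⌋ := by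
  unfold Box tr
  simp only [Set.mem_ofPred_eq]
  refine forall_congr' fun k => ?_
  have h1 : x k = x k / l0 * l0 := by field_simp
  obtain ⟨t, ht⟩ : ∃ t, t = x k / l0 := ⟨_, rfl⟩
  rw [← ht] at h1 ⊢
  rw [eq_comm, Int.floor_eq_iff, Set.mem_Ico]
  simp only [Pi.neg_apply, Int.cast_neg]
  rw [h1]
  constructor
  · rintro ⟨h2, h3⟩
    constructor
    · by_contra h
      push Not at h
      have := mul_pos hl (sub_pos.2 h)
      linarith [this]
    · by_contra h
      push Not at h
      have := mul_nonneg hl.le (sub_nonneg.2 h)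
      linarith [this]
  · rintro ⟨h2, h3⟩
    constructor
    · have := mul_nonneg hl.le (sub_nonneg.2 h2)
      linarith [this]
    · have := mul_pos hl (sub_pos.2 h3)
      linarith [this]

/-- The one-particle factor of the chemical potential. -/
noncomputable def phi (μ : ℝ) (p : X2 d) : ENNReal := if p.1 then ex μ else 1

theorem measurable_phi (μ : ℝ) : Measurable (phi (d := d) μ) := by
  unfold phi
  have h1 : Measurable fun s : Bool => if s then ex μ else 1 := measurable_of_finite _
  exact h1.comp measurable_fst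

theorem cells_box (hl : 0 < l0) (μ : ℝ) (L : ℕ) :
    (fun p : X2 d => ∑ i ∈ bx d L, phi μ p * (sys d a b R y l0).cI i p) =
      ff2 (ex μ) (ENNReal.ofReal y) (Box d (L * l0)) := by
  funext p
  have h1 : ∀ i : Zd d, (sys d a b R y l0).cI i p =
      if i = (fun k => ⌊p.2 k / l0⌋) then (if p.1 then 1 else ENNReal.ofReal y) else 0 := by
    intro i
    change ff2 1 (ENNReal.ofReal y) (Box d l0) (t2 l0 (-i) p) = _
    unfold ff2 t2
    by_cases h : i = fun k => ⌊p.2 k / l0⌋
    · rw [if_pos h, Set.indicator_of_mem]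
      · simp
      · exact (mem_cell hl i p.2).2 fun k => congrFun h k
    · rw [if_neg h, Set.indicator_of_notMem]
      · simp
      · exact fun h' => h (funext ((mem_cell hl i p.2).1 h'))
  have h2 : (fun k => ⌊p.2 k / l0⌋) ∈ bx d L ↔ p.2 ∈ Box d (L * l0) := by
    unfold bx Box
    simp only [Fintype.mem_piFinset, Set.mem_ofPred_eq, Finset.mem_Ico, Set.mem_Ico]
    refine forall_congr' fun k => ?_
    rw [Int.floor_lt, Int.floor_nonneg, div_lt_iff₀ hl]
    refine and_congr ?_ Iff.rfl
    constructor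
    · intro h
      by_contra h'
      push Not at h'
      exact absurd h (not_le.2 (div_neg_of_neg_of_pos h' hl))
    · intro h
      exact div_nonneg h hl.le
  simp only [h1, mul_ite, mul_one, mul_zero]
  rw [Finset.sum_ite_eq']
  unfold ff2 phi
  by_cases h3 : p.2 ∈ Box d (L * l0)
  · rw [if_pos (h2.2 h3), Set.indicator_of_mem h3, Pi.one_apply, mul_one]
    rcases p.1 with _ | _ <;> simp
  · rw [if_neg (fun h => h3 (h2.1 h)), Set.indicator_of_notMem h3, mul_zero]

/-- The factor of the interaction of two cells. -/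
theorem g_eq (v : Zd d) (x z : Ct (X2 d)) : (sys d a b R y l0).g v x z =
    open Classical in if okc a b R l0 v x z then 1 else 0 := by
  classical
  unfold Sys.g Ct.cp
  split_ifs with h
  · refine prod_eq_one fun k hk => prod_eq_one fun l hl => ?_
    rw [mem_range] at hk hl
    exact psi2_eq_one.2 (h k hk l hl)
  · unfold okc at h
    push Not at h
    obtain ⟨k, hk, l, hl, h1⟩ := h
    refine prod_eq_zero (mem_range.2 hk) (prod_eq_zero (mem_range.2 hl) ?_)
    by_contra hne
    have h2 := psi2_ne_zero.1 hne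
    exact absurd h2 (not_le.2 h1)

theorem cp_phi (C : Cel d a b R l0 r) {x : Ct (X2 d)} (hx : Vx a b R l0 x) (μ : ℝ) (i : Zd d) :
    Ct.cp x (fun p => phi μ (t2 l0 i p)) = ex (μ * nAx a b R l0 x) := by
  classical
  unfold Ct.cp
  rcases Nat.eq_zero_or_pos x.1 with h0 | h0
  · have h1 : nAx a b R l0 x = 0 := by
      by_contra hne
      have := Cel.nAx_pos' (x := x) (a := a) (b := b) (R := R) (l0 := l0)
        (Nat.one_le_iff_ne_zero.2 hne)
      omega
    rw [h0, h1]
    simp [ex_zero]
  · have hcol : ∀ k, k < x.1 → (x.2 k).1 = (x.2 0).1 := fun k hk => C.colour hx hk h0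
    rcases hc : (x.2 0).1 with _ | _
    · have h1 : nAx a b R l0 x = 0 := Cel.nAx_valid' fun k hk => (hcol k hk).trans hc
      rw [h1]
      simp only [Nat.cast_zero, mul_zero, ex_zero]
      refine prod_eq_one fun k hk => ?_
      rw [mem_range] at hk
      unfold phi t2
      simp [hcol k hk, hc]
    · have h1 : nAx a b R l0 x = x.1 := Cel.nAx_valid hx fun k hk => (hcol k hk).trans hc
      rw [h1]
      have h2 : ∀ k ∈ range x.1, phi μ (t2 l0 i (x.2 k)) = ex μ := by
        intro k hk
        rw [mem_range] at hk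
        unfold phi t2
        simp [hcol k hk, hc]
      rw [prod_congr rfl h2, prod_const, card_range, ex_pow, mul_comm]

/-- The weights agree on valid contents. -/
theorem w_eq (C : Cel d a b R l0 r) (μ : ℝ) (A : Finset (Zd d)) {ω : Zd d → Ct (X2 d)}
    (hω : ∀ i ∈ A, Vx a b R l0 (ω i)) :
    (cellMx C y).w μ 0 A ω = (sys d a b R y l0).WL (phi μ) A ω := by
  classical
  unfold Mx.w Mx.wG Sys.WL
  congr 1
  · refine prod_congr rfl fun i hi => ?_
    have h1 : (cellMx C y).st μ 0 (ω i) = ex (μ * nAx a b R l0 (ω i)) := by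
      unfold Mx.st
      rw [zero_mul, add_zero]
      rfl
    rw [h1]
    exact (cp_phi C (hω i hi) μ i).symm
  · by_cases h : (cellMx C y).cp id A ω
    · rw [if_pos h]
      symm
      refine prod_eq_one fun i hi => prod_eq_one fun j hj => ?_
      rw [mem_erase] at hj
      rw [g_eq, if_pos]
      by_cases hv : j - i ∈ Qr d r
      · have h1 := h (j - i) hv (sub_ne_zero.2 hj.1) i hi
        simp only [id, add_sub_cancel] at h1
        exact h1 hj.2 (hω i hi) (hω j hj.2)
      · exact C.okc_far hv (hω i hi) (hω j hj.2)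
    · rw [if_neg h]
      symm
      unfold Mx.cp at h
      push Not at h
      obtain ⟨v, hv, hv0, i, hi, hiv, h1⟩ := h
      simp only [id] at hiv h1
      have hj : i + v ∈ A.erase i := by
        rw [mem_erase]
        exact ⟨fun h => hv0 (by simpa using h), hiv⟩
      refine prod_eq_zero hi (prod_eq_zero hj ?_)
      rw [g_eq, if_neg, ]
      rw [add_sub_cancel_left]
      exact fun h2 => h1 fun _ _ => h2

/-- The partition functions agree. -/
theorem link0 (C : Cel d a b R l0 r) (hy : 0 ≤ y) (μ : ℝ) (L : ℕ) :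
    (cellMx C y).xi μ 0 (bx d L) =
      ∑' n : ℕ, ex (μ * n) * ENNReal.ofReal (Z d a b R y (L * l0) n) := by
  have hfin : IsFiniteMeasure (sys d a b R y l0).pg := ⟨(pg_univ_ne_top).lt_top⟩
  rw [Z_sum hy, ← cells_box C.hl μ L]
  have h1 := (sys d a b R y l0).linkJ (bx d L) (phi μ) (measurable_phi μ) fun _ => e0x
  refine Eq.trans ?_ h1.symm
  unfold Mx.xi Mx.int lmarginal
  refine lintegral_congr_ae ?_
  have h2 : ∀ i : bx d L, ∀ᵐ x ∂(Measure.pi fun _ : bx d L => (sys d a b R y l0).pg),
      Vx a b R l0 (x i) := fun i =>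
    (Measure.tendsto_eval_ae_ae (i := i)).eventually ae_Vx
  have h3 := ae_all_iff.2 h2
  have h4 : ∀ᵐ x ∂(Measure.pi fun _ : bx d L => (sys d a b R y l0).pg),
      (cellMx C y).w μ 0 (bx d L) (Function.updateFinset (fun _ => e0x) (bx d L) x) =
        (sys d a b R y l0).WL (phi μ) (bx d L)
          (Function.updateFinset (fun _ => e0x) (bx d L) x) := by
    filter_upwards [h3] with x hx
    refine w_eq C μ (bx d L) fun i hi => ?_
    rw [Function.updateFinset_def]
    simp only [hi, dif_pos]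
    exact hx ⟨i, hi⟩
  exact h4

/-- The masses of the contents. -/
theorem mass_A (C : Cel d a b R l0 r) : (cellMx C y).π {x | 1 ≤ (cellMx C y).nA x} ≠ 0 := by
  have hT : MeasurableSet {x : Ct (X2 d) | 1 ≤ nAx a b R l0 x} :=
    measurable_nAx (MeasurableSet.of_discrete (s := {n | 1 ≤ n}))
  have h1 := pg_ge (y := y) (l0 := l0) (a := a) (b := b) (R := R) true hT fun x hx => by
    classical
    have hV : Vx a b R l0 (Ct.pad ((true, 0) : X2 d) (fun _ : Fin 1 => ((true, x) : X2 d))) := by
      constructor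
      · intro k hk
        have hk' : k < 1 := hk
        have : k = 0 := by omega
        subst this
        exact hx
      · intro k hk l hl hkl
        have hk' : k < 1 := hk
        have hl' : l < 1 := hl
        omega
    rw [Set.mem_ofPred_eq]
    unfold nAx
    rw [if_pos ⟨hV, le_rfl, rfl⟩]
    exact le_rfl
  intro h2
  have h3 : (sys d a b R y l0).pg {x : Ct (X2 d) | 1 ≤ nAx a b R l0 x} = 0 := h2
  rw [h3] at h1
  simp only [if_true, one_mul, nonpos_iff_eq_zero] at h1
  have h4 : ENNReal.ofReal l0 ≠ 0 := by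
    rw [ne_eq, ENNReal.ofReal_eq_zero, not_le]
    exact C.hl
  exact absurd h1 (pow_ne_zero _ h4)

theorem mass_B (C : Cel d a b R l0 r) (hy : 0 ≤ y) :
    ENNReal.ofReal (y * l0 ^ d) ≤ (cellMx C y).π {x | 1 ≤ (cellMx C y).nB x} := by
  have hT : MeasurableSet {x : Ct (X2 d) | 1 ≤ nBx a b R l0 x} :=
    measurable_nBx (MeasurableSet.of_discrete (s := {n | 1 ≤ n}))
  have h1 := pg_ge (y := y) (l0 := l0) (a := a) (b := b) (R := R) false hT fun x hx => by
    classical
    have hV : Vx a b R l0 (Ct.pad ((true, 0) : X2 d) (fun _ : Fin 1 => ((false, x) : X2 d))) := by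
      constructor
      · intro k hk
        have hk' : k < 1 := hk
        have : k = 0 := by omega
        subst this
        exact hx
      · intro k hk l hl hkl
        have hk' : k < 1 := hk
        have hl' : l < 1 := hl
        omega
    rw [Set.mem_ofPred_eq]
    unfold nBx
    rw [if_pos ⟨hV, le_rfl, rfl⟩]
  rw [if_neg (by simp)] at h1
  rw [ENNReal.ofReal_mul hy, ENNReal.ofReal_pow C.hl.le]
  exact h1

end ModX

open ModX in
/-- The gas on cells. -/
theorem exists_model {d : ℕ} (hd : 1 ≤ d) {a b R : ℝ} (ha : 0 < a) (hb : 0 ≤ b)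
    (hR : 2 * (a + b) < R) : ∃ (l0 : ℝ) (r N : ℕ), 0 < l0 ∧ ∀ y : ℝ, 0 ≤ y →
      ∃ (E : Type) (_ : MeasurableSpace E) (M : Mx d E), M.r = r ∧ M.N = N ∧
        M.π {x | 1 ≤ M.nA x} ≠ 0 ∧ ENNReal.ofReal (y * l0 ^ d) ≤ M.π {x | 1 ≤ M.nB x} ∧
        ∀ (μ : ℝ) (L : ℕ), M.xi μ 0 (bx d L) =
          ∑' n : ℕ, ex (μ * n) * ENNReal.ofReal (Z d a b R y (L * l0) n) := by
  have hd' : (0 : ℝ) < d := by exact_mod_cast hd
  have hs : 0 < Real.sqrt d := Real.sqrt_pos.2 hd'
  obtain ⟨l0, hl0⟩ : ∃ l0 : ℝ, l0 = (R - 2 * a - 2 * b) / (5 * Real.sqrt d) := ⟨_, rfl⟩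
  have hl : 0 < l0 := by
    rw [hl0]
    exact div_pos (by linarith) (by positivity)
  obtain ⟨r, hr⟩ := exists_nat_ge (R / l0)
  rw [div_le_iff₀ hl] at hr
  have C : Cel d a b R l0 r := by
    refine ⟨hd, ha, hb, hl, ?_, by linarith [mul_comm l0 (r : ℝ)]⟩
    rw [hl0]
    have : 5 * ((R - 2 * a - 2 * b) / (5 * Real.sqrt d) * Real.sqrt d) = R - 2 * a - 2 * b := by
      field_simp
    rw [this]
    linarith
  refine ⟨l0, r, _, hl, fun y hy => ⟨Ct (X2 d), inferInstance, cellMx C y, rfl, rfl,
    mass_A C, mass_B C hy, fun μ L => link0 C hy μ L⟩⟩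

end Pool.Agent.Mix
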