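import Pool.Agent.Lib.MP_09cbbd_mx.Mod
import Pool.Agent.Lib.MP_09cbbd_mix.Comp

/-!
# The link between the mixture and the gas on cells: the first species alone
-/

set_option autoImplicit false

namespace Pool.Agent.Mix

open MeasureTheory Finset Filter Topology Pool.Agent.StableGas Pool.Agent.SquareWellGas
  Pool.Agent.SquareWell Pool.Agent.MixGas Pool.Agent.SquareWell.ModA Ct

theorem xi_onlyA {d : ℕ} {E : Type} [MeasurableSpace E] (M : Mx d E) (μ t : ℝ)
    (X : Finset (Zd d)) : M.onlyA.xi μ t X =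
      M.int X ({ω : Zd d → E | ∀ i ∈ X, M.nB (ω i) = 0}.indicator (M.w μ t X)) :=
  int_onlyA X (Bas.measurable_w M μ t X)

namespace ModX

open Pool.Agent.ConfinedGas CanM

variable {d : ℕ} {a b R y l0 : ℝ} {r : ℕ}

/-- The one-particle factor which forbids the second species. -/
noncomputable def phi0 (μ : ℝ) (p : X2 d) : ENNReal := if p.1 then ex μ else 0

theorem measurable_phi0 (μ : ℝ) : Measurable (phi0 (d := d) μ) := by
  unfold phi0
  have h1 : Measurable fun s : Bool => if s then ex μ else 0 := measurable_of_finite _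
  exact h1.comp measurable_fst

theorem cells_box0 (hl : 0 < l0) (μ : ℝ) (L : ℕ) :
    (fun p : X2 d => ∑ i ∈ bx d L, phi0 μ p * (sys d a b R y l0).cI i p) =
      ff2 (ex μ) (ENNReal.ofReal 0) (Box d (L * l0)) := by
  have h := cells_box (d := d) (a := a) (b := b) (R := R) (y := y) hl μ L
  funext p
  have hp := congrFun h p
  rcases hc : p.1 with _ | _
  · have e1 : phi0 μ p = 0 := by unfold phi0; simp [hc]
    have e2 : ff2 (ex μ) (ENNReal.ofReal 0) (Box d (L * l0)) p = 0 := by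
      unfold ff2
      simp [hc]
    rw [e2]
    refine sum_eq_zero fun i _ => ?_
    rw [e1, zero_mul]
  · have e1 : phi0 μ p = phi μ p := by unfold phi0 phi; simp [hc]
    have e2 : ff2 (ex μ) (ENNReal.ofReal 0) (Box d (L * l0)) p =
        ff2 (ex μ) (ENNReal.ofReal y) (Box d (L * l0)) p := by
      unfold ff2
      simp [hc]
    rw [e2, ← hp]
    refine sum_congr rfl fun i _ => ?_
    rw [e1]

theorem cp_phi0 (C : Cel d a b R l0 r) {x : Ct (X2 d)} (hx : Vx a b R l0 x) (μ : ℝ) (i : Zd d) :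
    Ct.cp x (fun p => phi0 μ (t2 l0 i p)) =
      if nBx a b R l0 x = 0 then ex (μ * nAx a b R l0 x) else 0 := by
  classical
  by_cases hB : nBx a b R l0 x = 0
  · rw [if_pos hB, ← cp_phi C hx μ i]
    unfold Ct.cp
    refine prod_congr rfl fun k hk => ?_
    rw [mem_range] at hk
    have h0 : 0 < x.1 := by omega
    have hcol : (x.2 k).1 = true := by
      rcases hc : (x.2 0).1 with _ | _
      · exfalso
        unfold nBx at hB
        rw [if_pos ⟨hx, h0, hc⟩] at hB
        exact one_ne_zero hB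
      · exact (C.colour hx hk h0).trans hc
    unfold phi0 phi t2
    simp [hcol]
  · rw [if_neg hB]
    have h1 := C.nBx_pos (x := x) (Nat.one_le_iff_ne_zero.2 hB)
    unfold Ct.cp
    have h2 : x.1 ≠ 0 := by
      have := h1.2.1
      omega
    refine prod_eq_zero (i := 0) (mem_range.2 (Nat.pos_of_ne_zero h2)) ?_
    unfold phi0 t2
    have h3 := h1.2.2 0 (Nat.pos_of_ne_zero h2)
    simp [h3]

/-- The weights agree on valid contents. -/
theorem w_eq0 (C : Cel d a b R l0 r) (μ : ℝ) (A : Finset (Zd d)) {ω : Zd d → Ct (X2 d)}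
    (hω : ∀ i ∈ A, Vx a b R l0 (ω i)) :
    {ω : Zd d → Ct (X2 d) | ∀ i ∈ A, (cellMx C y).nB (ω i) = 0}.indicator
      ((cellMx C y).w μ 0 A) ω = (sys d a b R y l0).WL (phi0 μ) A ω := by
  classical
  have h0 := w_eq (y := y) C μ A hω
  by_cases h : ∀ i ∈ A, (cellMx C y).nB (ω i) = 0
  · rw [Set.indicator_of_mem (by exact h), h0]
    unfold Sys.WL
    congr 1
    refine prod_congr rfl fun i hi => ?_
    have h1 : nBx a b R l0 (ω i) = 0 := h i hi
    have e1 := cp_phi C (hω i hi) μ i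
    have e2 := cp_phi0 C (hω i hi) μ i
    rw [if_pos h1, ← e1] at e2
    exact e2.symm
  · rw [Set.indicator_of_notMem (by exact h)]
    push Not at h
    obtain ⟨i, hi, h1⟩ := h
    have e2 := cp_phi0 C (hω i hi) μ i
    rw [if_neg (by exact h1)] at e2
    unfold Sys.WL
    rw [prod_eq_zero hi e2, zero_mul]

/-- The partition functions of the first species alone agree. -/
theorem link1 (C : Cel d a b R l0 r) (μ : ℝ) (L : ℕ) :
    (cellMx C y).onlyA.xi μ 0 (bx d L) =
      ∑' n : ℕ, ex (μ * n) * ENNReal.ofReal (Z d a b R 0 (L * l0) n) := by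
  have hfin : IsFiniteMeasure (sys d a b R y l0).pg := ⟨(pg_univ_ne_top).lt_top⟩
  rw [Z_sum le_rfl, ← cells_box0 (y := y) C.hl μ L]
  have h1 := (sys d a b R y l0).linkJ (bx d L) (phi0 μ) (measurable_phi0 μ) fun _ => e0x
  refine Eq.trans ?_ h1.symm
  rw [xi_onlyA]
  unfold Mx.int lmarginal
  refine lintegral_congr_ae ?_
  have h2 : ∀ i : bx d L, ∀ᵐ x ∂(Measure.pi fun _ : bx d L => (sys d a b R y l0).pg),
      Vx a b R l0 (x i) := fun i =>
    (Measure.tendsto_eval_ae_ae (i := i)).eventually ae_Vx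
  have h3 := ae_all_iff.2 h2
  have h4 : ∀ᵐ x ∂(Measure.pi fun _ : bx d L => (sys d a b R y l0).pg),
      {ω : Zd d → Ct (X2 d) | ∀ i ∈ bx d L, (cellMx C y).nB (ω i) = 0}.indicator
        ((cellMx C y).w μ 0 (bx d L)) (Function.updateFinset (fun _ => e0x) (bx d L) x) =
        (sys d a b R y l0).WL (phi0 μ) (bx d L)
          (Function.updateFinset (fun _ => e0x) (bx d L) x) := by
    filter_upwards [h3] with x hx
    refine w_eq0 C μ (bx d L) fun i hi => ?_
    rw [Function.updateFinset_def]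
    simp only [hi, dif_pos]
    exact hx ⟨i, hi⟩
  exact h4

end ModX

open ModX in
/-- The gas on cells. -/
theorem exists_model' {d : ℕ} (hd : 1 ≤ d) {a b R : ℝ} (ha : 0 < a) (hb : 0 ≤ b)
    (hR : 2 * (a + b) < R) : ∃ (l0 : ℝ) (r N : ℕ), 0 < l0 ∧ ∀ y : ℝ, 0 ≤ y →
      ∃ (E : Type) (_ : MeasurableSpace E) (M : Mx d E), M.r = r ∧ M.N = N ∧
        ENNReal.ofReal (y * l0 ^ d) ≤ M.π {x | 1 ≤ M.nB x} ∧
        (∀ (μ : ℝ) (L : ℕ), M.xi μ 0 (bx d L) =
          ∑' n : ℕ, ex (μ * n) * ENNReal.ofReal (Z d a b R y (L * l0) n)) ∧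
        ∀ (μ : ℝ) (L : ℕ), M.onlyA.xi μ 0 (bx d L) =
          ∑' n : ℕ, ex (μ * n) * ENNReal.ofReal (Z d a b R 0 (L * l0) n) := by
  have hd' : (0 : ℝ) < d := by exact_mod_cast hd
  have hs : 0 < Real.sqrt d := Real.sqrt_pos.2 hd'
  obtain ⟨l0, hl0⟩ : ∃ l0 : ℝ, l0 = (R - 2 * a - 2 * b) / (5 * Real.sqrt d) := ⟨_, rfl⟩
  have hl : 0 < l0 := by
    rw [hl0]
    exact div_pos (by linarith) (by positivity)
  obtain ⟨r, hr⟩ := exists_nat_ge (R / l0)
  rw [div_le_iff₀ hl] at hr
  have C : Cel d a b R l0 r := by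
    refine ⟨hd, ha, hb, hl, ?_, by linarith [mul_comm l0 (r : ℝ)]⟩
    rw [hl0]
    have : 5 * ((R - 2 * a - 2 * b) / (5 * Real.sqrt d) * Real.sqrt d) = R - 2 * a - 2 * b := by
      field_simp
    rw [this]
    linarith
  refine ⟨l0, r, _, hl, fun y hy => ⟨Ct (X2 d), inferInstance, cellMx C y, rfl, rfl,
    mass_B C hy, fun μ L => link0 C hy μ L, fun μ L => link1 C μ L⟩⟩

end Pool.Agent.Mix
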