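import Pool.Agent.Lib.MP_09cbbd_mx.ModV
import Pool.Agent.Lib.MP_09cbbd_mix.Defs

/-!
# The mixture as a gas on cells: the model
-/

set_option autoImplicit false

namespace Pool.Agent.Mix

open MeasureTheory Finset Filter Topology Pool.Agent.StableGas Pool.Agent.SquareWellGas
  Pool.Agent.SquareWell Pool.Agent.MixGas Pool.Agent.SquareWell.ModA Ct

namespace ModX

open Pool.Agent.ConfinedGas CanM

variable {d : ℕ}

theorem Qb_eq (m : ℕ) : Qb d m = Qr d m := rfl

section defs

variable (a b R l0 : ℝ)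

/-- Valid contents. -/
def Vx (x : Ct (X2 d)) : Prop :=
  (∀ k, k < x.1 → (x.2 k).2 ∈ Box d l0) ∧ ∀ k, k < x.1 → ∀ l, l < x.1 → k ≠ l →
    D2 a b R (x.2 k).1 (x.2 l).1 ^ 2 ≤ ConfinedGas.sq (x.2 k).2 (x.2 l).2

/-- Compatible contents. -/
def okc (v : Zd d) (x y : Ct (X2 d)) : Prop :=
  ∀ k, k < x.1 → ∀ l, l < y.1 →
    D2 a b R (x.2 k).1 (y.2 l).1 ^ 2 ≤ ConfinedGas.sq (x.2 k).2 (tr l0 v (y.2 l).2)

/-- Number of the particles of the first species. -/
noncomputable def nAx (x : Ct (X2 d)) : ℕ := by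
  classical exact if Vx a b R l0 x ∧ 1 ≤ x.1 ∧ (x.2 0).1 = true then x.1 else 0

/-- Indicator of the second species. -/
noncomputable def nBx (x : Ct (X2 d)) : ℕ := by
  classical exact if Vx a b R l0 x ∧ 1 ≤ x.1 ∧ (x.2 0).1 = false then 1 else 0

/-- The empty content. -/
def e0x : Ct (X2 d) := (0, fun _ => (true, 0))

end defs

variable {a b R y l0 : ℝ}

theorem measurable_lt_fst (k : ℕ) {Y : Type} [MeasurableSpace Y] {f : Y → ℕ} (hf : Measurable f) :
    Measurable fun p : Y => k < f p := by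
  rw [← measurableSet_setOfPred]
  exact hf (MeasurableSet.of_discrete (s := {n | k < n}))

theorem measurable_D2 {Y : Type} [MeasurableSpace Y] {f g : Y → X2 d} (hf : Measurable f)
    (hg : Measurable g) : Measurable fun p : Y =>
      D2 a b R (f p).1 (g p).1 ^ 2 ≤ ConfinedGas.sq (f p).2 (g p).2 := by
  rw [← measurableSet_setOfPred]
  have h3 : Measurable fun p : Y => D2 a b R (f p).1 (g p).1 ^ 2 := by
    have h4 : Measurable fun r : Bool × Bool => D2 a b R r.1 r.2 ^ 2 := measurable_of_finite _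
    have h5 : Measurable fun p : Y => ((f p).1, (g p).1) :=
      (measurable_fst.comp hf).prodMk (measurable_fst.comp hg)
    exact h4.comp h5
  have h1 : Measurable fun p : Y => ConfinedGas.sq (f p).2 (g p).2 := by
    have h2 : Measurable fun p : Y => ((f p).2, (g p).2) :=
      (measurable_snd.comp hf).prodMk (measurable_snd.comp hg)
    exact (measurable_sq2 (d := d)).comp h2
  exact measurableSet_le h3 h1

theorem measurable_at (k : ℕ) : Measurable fun x : Ct (X2 d) => x.2 k :=
  (measurable_pi_apply k).comp measurable_snd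

theorem measurable_Vx : Measurable fun x : Ct (X2 d) => Vx a b R l0 x := by
  unfold Vx
  refine Measurable.and ?_ ?_
  · refine Measurable.forall fun k => (measurable_lt_fst k measurable_fst).imp ?_
    rw [← measurableSet_setOfPred]
    exact (measurable_snd.comp (measurable_at k)) (measurableSet_Box l0)
  · refine Measurable.forall fun k => (measurable_lt_fst k measurable_fst).imp ?_
    refine Measurable.forall fun l => (measurable_lt_fst l measurable_fst).imp ?_
    exact measurable_const.imp (measurable_D2 (measurable_at k) (measurable_at l))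

theorem measurable_okc (v : Zd d) : Measurable fun p : Ct (X2 d) × Ct (X2 d) =>
    okc a b R l0 v p.1 p.2 := by
  unfold okc
  refine Measurable.forall fun k =>
    (measurable_lt_fst k (measurable_fst.comp measurable_fst)).imp ?_
  refine Measurable.forall fun l =>
    (measurable_lt_fst l (measurable_fst.comp measurable_snd)).imp ?_
  have h1 : Measurable fun p : Ct (X2 d) × Ct (X2 d) => p.1.2 k :=
    (measurable_at k).comp measurable_fst
  have h2 : Measurable fun p : Ct (X2 d) × Ct (X2 d) => t2 l0 v (p.2.2 l) :=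
    (mp_t2 l0 v).measurable.comp ((measurable_at l).comp measurable_snd)
  exact measurable_D2 h1 h2

theorem measurable_nAx : Measurable fun x : Ct (X2 d) => nAx a b R l0 x := by
  classical
  unfold nAx
  refine Measurable.ite ?_ measurable_fst measurable_const
  refine measurableSet_setOfPred.2 (measurable_Vx.and ?_)
  have h1 : Measurable fun x : Ct (X2 d) => 1 ≤ x.1 := measurable_lt_fst 0 measurable_fst
  have h2 : Measurable fun x : Ct (X2 d) => (x.2 0).1 = true := by
    rw [← measurableSet_setOfPred]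
    exact (measurable_fst.comp (measurable_at 0)) (measurableSet_singleton true)
  exact h1.and h2

theorem measurable_nBx : Measurable fun x : Ct (X2 d) => nBx a b R l0 x := by
  classical
  unfold nBx
  refine Measurable.ite ?_ measurable_const measurable_const
  refine measurableSet_setOfPred.2 (measurable_Vx.and ?_)
  have h1 : Measurable fun x : Ct (X2 d) => 1 ≤ x.1 := measurable_lt_fst 0 measurable_fst
  have h2 : Measurable fun x : Ct (X2 d) => (x.2 0).1 = false := by
    rw [← measurableSet_setOfPred]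
    exact (measurable_fst.comp (measurable_at 0)) (measurableSet_singleton false)
  exact h1.and h2

theorem D2_symm (s t : Bool) : D2 a b R s t = D2 a b R t s := by
  unfold D2
  rcases s with _ | _ <;> rcases t with _ | _ <;> simp

/-- The hypotheses on the side of the cells and on the range. -/
structure Cel (d : ℕ) (a b R l0 : ℝ) (r : ℕ) : Prop where
  hd : 1 ≤ d
  ha : 0 < a
  hb : 0 ≤ b
  hl : 0 < l0
  h5 : 2 * a + 2 * b + 5 * (l0 * Real.sqrt d) ≤ R
  hr : R ≤ l0 * r

namespace Cel

variable {r : ℕ} (C : Cel d a b R l0 r)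

include C

theorem sqrt_pos : 0 < l0 * Real.sqrt d := by
  have hd' : (0 : ℝ) < d := by exact_mod_cast C.hd
  exact mul_pos C.hl (Real.sqrt_pos.2 hd')

theorem R_pos : 0 < R := by
  have := C.ha
  have := C.hb
  have := C.h5
  have := C.sqrt_pos
  linarith

theorem aR : 2 * a ≤ R := by
  have := C.hb
  have := C.h5
  have := C.sqrt_pos
  linarith

theorem bR : 2 * b ≤ R := by
  have := C.ha
  have := C.h5
  have := C.sqrt_pos
  linarith

theorem D2_nonneg (s t : Bool) : 0 ≤ D2 a b R s t := by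
  have h1 := C.ha
  have h2 := C.hb
  have h3 := C.R_pos
  unfold D2
  rcases s with _ | _ <;> rcases t with _ | _ <;> simp <;> linarith

theorem D2_le (s t : Bool) : D2 a b R s t ≤ R := by
  have h1 := C.aR
  have h2 := C.bR
  unfold D2
  rcases s with _ | _ <;> rcases t with _ | _ <;> simp <;> linarith

theorem r_pos : 1 ≤ r := by
  rcases Nat.eq_zero_or_pos r with h | h
  · have h1 := C.hr
    have h2 := C.R_pos
    rw [h] at h1
    simp at h1
    linarith
  · exact h

/-- A valid content has one colour. -/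
theorem colour {x : Ct (X2 d)} (hx : Vx a b R l0 x) {k l : ℕ} (hk : k < x.1) (hl : l < x.1) :
    (x.2 k).1 = (x.2 l).1 := by
  by_contra hne
  have hkl : k ≠ l := fun h => hne (by rw [h])
  have h1 := hx.2 k hk l hl hkl
  have h2 : D2 a b R (x.2 k).1 (x.2 l).1 = R := by
    unfold D2
    rw [if_neg hne]
  rw [h2, sq_eq_nr] at h1
  have h3 := nr_tr_le C.hd C.hl 0 (hx.1 k hk) (hx.1 l hl)
  have h4 : tr l0 (0 : Zd d) (x.2 l).2 = (x.2 l).2 := by
    funext i
    simp [tr]
  rw [h4, nz_zero, mul_zero, zero_add] at h3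
  have h5 : nr ((x.2 k).2 - (x.2 l).2) < R := by
    have := C.ha
    have := C.hb
    have := C.h5
    have := C.sqrt_pos
    linarith
  have h6 := pow_lt_pow_left₀ h5 (nr_nonneg _) two_ne_zero
  linarith

theorem nAx_pos {x : Ct (X2 d)} (h : 1 ≤ nAx a b R l0 x) :
    Vx a b R l0 x ∧ ∀ k, k < x.1 → (x.2 k).1 = true := by
  classical
  unfold nAx at h
  split_ifs at h with hc
  · refine ⟨hc.1, fun k hk => ?_⟩
    rw [C.colour hc.1 hk (show 0 < x.1 from hc.2.1)]
    exact hc.2.2
  · omega

theorem nBx_pos {x : Ct (X2 d)} (h : 1 ≤ nBx a b R l0 x) :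
    Vx a b R l0 x ∧ 1 ≤ x.1 ∧ ∀ k, k < x.1 → (x.2 k).1 = false := by
  classical
  unfold nBx at h
  split_ifs at h with hc
  · refine ⟨hc.1, hc.2.1, fun k hk => ?_⟩
    rw [C.colour hc.1 hk (show 0 < x.1 from hc.2.1)]
    exact hc.2.2
  · omega

omit C in
theorem nAx_pos' {x : Ct (X2 d)} (h : 1 ≤ nAx a b R l0 x) : 1 ≤ x.1 := by
  classical
  unfold nAx at h
  split_ifs at h with hc
  · exact h
  · omega

omit C in
theorem vac {x : Ct (X2 d)} (h : Vx a b R l0 x) (h1 : nAx a b R l0 x = 0)
    (h2 : nBx a b R l0 x = 0) : x.1 = 0 := by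
  classical
  by_contra hne
  have h3 : 1 ≤ x.1 := Nat.one_le_iff_ne_zero.2 hne
  unfold nAx at h1
  unfold nBx at h2
  rcases hc : (x.2 0).1 with _ | _
  · rw [if_pos ⟨h, h3, hc⟩] at h2
    omega
  · rw [if_pos ⟨h, h3, hc⟩] at h1
    omega

omit C in
theorem nAx_valid {x : Ct (X2 d)} (h : Vx a b R l0 x) (hc : ∀ k, k < x.1 → (x.2 k).1 = true) :
    nAx a b R l0 x = x.1 := by
  classical
  unfold nAx
  split_ifs with h1
  · rfl
  · by_contra hne
    exact h1 ⟨h, by omega, hc 0 (by omega)⟩

omit C in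
theorem nAx_valid' {x : Ct (X2 d)} (hc : ∀ k, k < x.1 → (x.2 k).1 = false) :
    nAx a b R l0 x = 0 := by
  classical
  unfold nAx
  split_ifs with h1
  · have := hc 0 (by omega)
    rw [h1.2.2] at this
    exact absurd this (by simp)
  · rfl

/-- The capacity of a cell. -/
theorem nAx_le (x : Ct (X2 d)) : nAx a b R l0 x ≤ max 1 (⌈(d : ℝ) / (2 * a) * l0⌉₊ ^ d) := by
  by_cases h : 1 ≤ nAx a b R l0 x
  · obtain ⟨h1, h2⟩ := C.nAx_pos h
    rw [nAx_valid h1 h2]
    refine le_trans ?_ (le_max_right _ _)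
    have ha := C.ha
    refine card_box_le C.hd (by positivity) ⟨fun i : Fin x.1 => (x.2 i).2, fun i => h1.1 i i.2,
      fun i j hij => ?_⟩
    have h3 := h1.2 i i.2 j j.2 fun h => hij (Fin.ext h)
    rw [h2 i i.2, h2 j j.2] at h3
    simpa only [D2, if_true] using h3
  · have : nAx a b R l0 x = 0 := by omega
    rw [this]
    exact Nat.zero_le _

omit C in
theorem nBx_le (x : Ct (X2 d)) : nBx a b R l0 x ≤ max 1 (⌈(d : ℝ) / (2 * a) * l0⌉₊ ^ d) := by
  classical
  refine le_trans ?_ (le_max_left _ _)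
  unfold nBx
  split_ifs <;> omega

omit C in
theorem okc_symm {v : Zd d} {x y : Ct (X2 d)} (h : okc a b R l0 v x y) :
    okc a b R l0 (-v) y x := by
  intro k hk l hl
  have h1 := h l hl k hk
  rw [D2_symm]
  refine h1.trans (le_of_eq ?_)
  rw [sq_comm]
  have h2 := sq_tr l0 v 0 (y.2 k).2 (x.2 l).2
  have h3 : tr l0 (0 : Zd d) (x.2 l).2 = (x.2 l).2 := by
    funext i
    simp [tr]
  rw [h3, zero_sub] at h2
  exact h2

theorem okc_far {v : Zd d} (hv : v ∉ Qr d r) {x y : Ct (X2 d)} (hx : Vx a b R l0 x)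
    (hy : Vx a b R l0 y) : okc a b R l0 v x y := by
  intro k hk l hl
  rw [sq_eq_nr]
  have h1 := far_of_Qb C.hl C.hr (show v ∉ Qb d r from hv) (hx.1 k hk) (hy.1 l hl)
  exact pow_le_pow_left₀ (C.D2_nonneg _ _) ((C.D2_le _ _).trans h1) 2

theorem okc_same {D : ℝ} (hD : 0 ≤ D) (hDR : D ≤ R) {v : Zd d} (hv : v ∉ SS d D l0 r)
    {x y : Ct (X2 d)} (hx : Vx a b R l0 x) (hy : Vx a b R l0 y)
    (h : ∀ k, k < x.1 → ∀ l, l < y.1 → D2 a b R (x.2 k).1 (y.2 l).1 = D) :
    okc a b R l0 v x y := by
  intro k hk l hl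
  rw [sq_eq_nr, h k hk l hl]
  have h1 := far_of_SS C.hl C.hr hDR hv (hx.1 k hk) (hy.1 l hl)
  exact pow_le_pow_left₀ hD h1 2

end Cel

theorem e0x_eq (u : Fin 0 → X2 d) : Ct.pad ((true, 0) : X2 d) u = e0x := by
  unfold Ct.pad e0x
  ext k
  · rfl
  · simp
  · simp

section measure

variable {r : ℕ}

theorem pg_apply (S : Sys d (X2 d)) {T : Set (Ct (X2 d))} (hT : MeasurableSet T) : S.pg T =
    ∑' n : ℕ, ((n.factorial : ENNReal))⁻¹ * ∫⁻ u : Fin n → X2 d, Gw S.ψ S.f0 u *
      T.indicator 1 (Ct.pad S.x0 u) ∂(Measure.pi fun _ => S.m) := by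
  rw [← lintegral_indicator_one hT, S.lint_pg (measurable_one.indicator hT)]

/-- The contents of positive weight are valid. -/
theorem Vx_pad {n : ℕ} (u : Fin n → X2 d)
    (h : Gw (psi2 a b R) (ff2 1 (ENNReal.ofReal y) (Box d l0)) u ≠ 0) :
    Vx a b R l0 (Ct.pad ((true, 0) : X2 d) u) := by
  classical
  unfold Gw Pr at h
  have h1 := left_ne_zero_of_mul h
  have h2 := right_ne_zero_of_mul h
  rw [prod_ne_zero_iff] at h1 h2
  have e : ∀ (k : ℕ) (hk : k < n), (Ct.pad ((true, 0) : X2 d) u).2 k = u ⟨k, hk⟩ := by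
    intro k hk
    exact pad_snd _ u ⟨k, hk⟩
  constructor
  · intro k hk
    rw [e k hk]
    by_contra hcon
    refine h1 ⟨k, hk⟩ (mem_univ _) ?_
    unfold ff2
    rw [Set.indicator_of_notMem hcon, mul_zero]
  · intro k hk l hl hkl
    rw [e k hk, e l hl]
    have h3 := h2 ⟨k, hk⟩ (mem_univ _)
    rw [prod_ne_zero_iff] at h3
    have h4 := h3 ⟨l, hl⟩ (mem_univ _)
    rw [if_neg (fun h => hkl (congrArg Fin.val h)), psi2_ne_zero] at h4
    exact h4

theorem ae_Vx : ∀ᵐ x ∂(sys d a b R y l0).pg, Vx a b R l0 x := by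
  rw [ae_iff]
  have hT : MeasurableSet {x : Ct (X2 d) | ¬ Vx a b R l0 x} :=
    (measurableSet_setOfPred.2 measurable_Vx).compl
  rw [pg_apply _ hT, ENNReal.tsum_eq_zero]
  intro n
  have h1 : ∀ u : Fin n → X2 d, Gw (sys d a b R y l0).ψ (sys d a b R y l0).f0 u *
      {x : Ct (X2 d) | ¬ Vx a b R l0 x}.indicator 1 (Ct.pad (sys d a b R y l0).x0 u) = 0 := by
    intro u
    by_cases h : Gw (sys d a b R y l0).ψ (sys d a b R y l0).f0 u = 0
    · rw [h, zero_mul]
    · have h2 : Vx a b R l0 (Ct.pad (sys d a b R y l0).x0 u) := Vx_pad u h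
      rw [Set.indicator_of_notMem (fun h3 => by
        rw [Set.mem_ofPred_eq] at h3
        exact h3 h2), mul_zero]
  rw [lintegral_congr h1, lintegral_zero, mul_zero]

/-- Sets that contain the empty content only. -/
theorem pg_one {T : Set (Ct (X2 d))} (hT : MeasurableSet T) (h0 : e0x ∈ T)
    (h1 : ∀ x ∈ T, Vx a b R l0 x → x.1 = 0) : (sys d a b R y l0).pg T = 1 := by
  classical
  rw [pg_apply _ hT, tsum_eq_single 0]
  · have e : ∀ u : Fin 0 → X2 d, Gw (sys d a b R y l0).ψ (sys d a b R y l0).f0 u *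
        T.indicator 1 (Ct.pad (sys d a b R y l0).x0 u) = 1 := by
      intro u
      have h2 : Ct.pad (sys d a b R y l0).x0 u = e0x := e0x_eq u
      rw [h2, Set.indicator_of_mem h0]
      simp [Gw, Pr]
    rw [lintegral_congr e]
    simp
  · intro n hn
    have h2 : ∀ u : Fin n → X2 d, Gw (sys d a b R y l0).ψ (sys d a b R y l0).f0 u *
        T.indicator 1 (Ct.pad (sys d a b R y l0).x0 u) = 0 := by
      intro u
      by_cases h : Gw (sys d a b R y l0).ψ (sys d a b R y l0).f0 u = 0
      · rw [h, zero_mul]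
      · have h3 : Vx a b R l0 (Ct.pad (sys d a b R y l0).x0 u) := Vx_pad u h
        rw [Set.indicator_of_notMem (fun h4 => hn (h1 _ h4 h3)), mul_zero]
    rw [lintegral_congr h2, lintegral_zero, mul_zero]

theorem Vx_e0 : Vx a b R l0 (e0x : Ct (X2 d)) :=
  ⟨fun k hk => absurd hk (Nat.not_lt_zero k), fun k hk => absurd hk (Nat.not_lt_zero k)⟩

/-- Lower bound by the contents with one particle. -/
theorem pg_ge (s : Bool) {T : Set (Ct (X2 d))} (hT : MeasurableSet T)
    (h1 : ∀ x : Fin d → ℝ, x ∈ Box d l0 →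
      Ct.pad ((true, 0) : X2 d) (fun _ : Fin 1 => ((s, x) : X2 d)) ∈ T) :
    (if s then 1 else ENNReal.ofReal y) * ENNReal.ofReal l0 ^ d ≤ (sys d a b R y l0).pg T := by
  classical
  rw [pg_apply _ hT]
  refine le_trans ?_ (ENNReal.le_tsum 1)
  rw [Nat.factorial_one, Nat.cast_one, inv_one, one_mul]
  obtain ⟨c, hc⟩ : ∃ c : ENNReal, c = if s then 1 else ENNReal.ofReal y := ⟨_, rfl⟩
  rw [← hc]
  obtain ⟨f, hf⟩ : ∃ f : X2 d → ENNReal, f = fun p => if p.1 = s then
    c * (Box d l0).indicator 1 p.2 else 0 := ⟨_, rfl⟩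
  have mB := measurableSet_Box (d := d) l0
  have mf : Measurable f := by
    rw [hf]
    refine Measurable.ite (measurable_fst (measurableSet_singleton s)) ?_ measurable_const
    exact (measurable_const).mul ((measurable_one.indicator mB).comp measurable_snd)
  have mF : Measurable fun u : Fin 1 → X2 d => f (u 0) := mf.comp (measurable_pi_apply 0)
  have h2 := lint_emb s 1 mF (fun u hu i => by
    by_contra hcon
    apply hu
    rw [hf]
    have : i = 0 := Subsingleton.elim _ _
    rw [this] at hcon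
    simp only
    rw [if_neg hcon])
  have h3 : ∫⁻ x : Fin 1 → Fin d → ℝ, f (s, x 0) = c * ENNReal.ofReal l0 ^ d := by
    have e1 : ∀ x : Fin 1 → Fin d → ℝ, f (s, x 0) =
        c * (Set.pi Set.univ fun _ : Fin 1 => Box d l0).indicator 1 x := by
      intro x
      rw [hf]
      simp only [if_true]
      congr 1
      by_cases hx : x 0 ∈ Box d l0
      · rw [Set.indicator_of_mem hx, Set.indicator_of_mem]
        · rfl
        · intro i _
          have : i = 0 := Subsingleton.elim _ _
          rw [this]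
          exact hx
      · rw [Set.indicator_of_notMem hx, Set.indicator_of_notMem]
        exact fun h => hx (h 0 (Set.mem_univ _))
    have mP : MeasurableSet (Set.pi Set.univ fun _ : Fin 1 => Box d l0) :=
      MeasurableSet.univ_pi fun _ => mB
    rw [lintegral_congr e1, lintegral_const_mul _ (measurable_one.indicator mP),
      lintegral_indicator_one mP, volume_pi_pi, prod_const, card_univ, Fintype.card_fin, pow_one,
      volume_Box]
  rw [← h3, ← h2]
  refine lintegral_mono fun u => ?_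
  rw [hf]
  simp only
  by_cases hu : (u 0).1 = s
  · rw [if_pos hu]
    by_cases hx : (u 0).2 ∈ Box d l0
    · have hu' : u = fun _ : Fin 1 => ((s, (u 0).2) : X2 d) := by
        funext i
        have : i = 0 := Subsingleton.elim _ _
        rw [this, ← hu]
      have h4 : Ct.pad (sys d a b R y l0).x0 u ∈ T := by
        rw [hu']
        exact h1 _ hx
      rw [Set.indicator_of_mem h4]
      unfold Gw Pr
      simp only [Fin.prod_univ_one, Fin.isValue, if_true, mul_one, Pi.one_apply]
      change _ ≤ ff2 1 (ENNReal.ofReal y) (Box d l0) (u 0)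
      unfold ff2
      rw [hu, hc]
    · rw [Set.indicator_of_notMem hx, mul_zero]
      exact bot_le
  · rw [if_neg hu]
    exact bot_le

theorem pg_univ_ne_top : (sys d a b R y l0).pg Set.univ ≠ ⊤ := by
  rw [Sys.pg_univ]
  change Xg (m2 d) (psi2 a b R) (ff2 1 (ENNReal.ofReal y) (Box d l0)) ≠ ⊤
  rw [Xg_two a b R _ _ (measurableSet_Box l0)]
  have hz : ENNReal.ofReal y ≠ ⊤ := ENNReal.ofReal_ne_top
  have hV := volume_Box_ne (d := d) l0
  have h1 : ∑' N : ℕ, (1 : ENNReal) ^ N * ((N.factorial : ENNReal))⁻¹ *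
      WM a b R (ENNReal.ofReal y) (Fin N) (Box d l0) ≤
      Xi volume (2 * b) (ENNReal.ofReal y) (Box d l0) * ex (volume (Box d l0)).toReal := by
    rw [← tsum_exp hV, ← ENNReal.tsum_mul_left]
    refine ENNReal.tsum_le_tsum fun N => ?_
    have h2 := volume_Cf_le (2 * a) (Fin N) (Box d l0)
    rw [Fintype.card_fin] at h2
    calc (1 : ENNReal) ^ N * ((N.factorial : ENNReal))⁻¹ *
          WM a b R (ENNReal.ofReal y) (Fin N) (Box d l0)
        ≤ (1 : ENNReal) ^ N * ((N.factorial : ENNReal))⁻¹ *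
          (Xi volume (2 * b) (ENNReal.ofReal y) (Box d l0) * volume (Box d l0) ^ N) :=
          mul_le_mul' le_rfl ((WM_le _).trans (mul_le_mul' le_rfl h2))
      _ = _ := by rw [one_pow]; ring
  exact ne_top_of_le_ne_top (ENNReal.mul_ne_top (Xi_ne_top hz hV) (ex_ne_top _)) h1

end measure

/-- The gas on cells. -/
noncomputable def cellMx {r : ℕ} (C : Cel d a b R l0 r) (y : ℝ) :
    Mx d (Ct (X2 d)) where
  π := (sys d a b R y l0).pg
  e0 := e0x
  nA := nAx a b R l0
  nB := nBx a b R l0
  ok := fun v x y => Vx a b R l0 x → Vx a b R l0 y → okc a b R l0 v x y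
  SA := SS d (2 * a) l0 r
  SB := SS d (2 * b) l0 r
  r := r
  N := max 1 (⌈(d : ℝ) / (2 * a) * l0⌉₊ ^ d)
  measurable_nA := measurable_nAx
  measurable_nB := measurable_nBx
  measurableSet_ok := fun v => measurableSet_setOfPred.2
    ((measurable_Vx.comp measurable_fst).imp
      ((measurable_Vx.comp measurable_snd).imp (measurable_okc v)))
  hr := C.r_pos
  nA_le := C.nAx_le
  nB_le := Cel.nBx_le
  not_AB := fun x => by
    classical
    by_contra hcon
    push Not at hcon
    have h1 := C.nAx_pos (x := x) (by omega)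
    have h2 := C.nBx_pos (x := x) (by omega)
    have h3 := h1.2 0 h2.2.1
    have h4 := h2.2.2 0 h2.2.1
    rw [h3] at h4
    exact absurd h4 (by simp)
  nA_e0 := by
    classical
    unfold nAx
    rw [if_neg]
    rintro ⟨_, h, _⟩
    exact absurd h (by simp [e0x])
  nB_e0 := by
    classical
    unfold nBx
    rw [if_neg]
    rintro ⟨_, h, _⟩
    exact absurd h (by simp [e0x])
  π_fin := pg_univ_ne_top
  π_e0 := by
    refine pg_one ?_ (Set.mem_singleton _) ?_
    · exact measurableSet_singleton _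
    · intro x hx _
      rw [Set.mem_singleton_iff] at hx
      rw [hx]
      rfl
  π_vac := by
    refine pg_one ?_ ?_ ?_
    · exact (measurable_nAx (measurableSet_singleton 0)).inter
        (measurable_nBx (measurableSet_singleton 0))
    · constructor
      · classical
        unfold nAx
        rw [if_neg]
        rintro ⟨_, h, _⟩
        exact absurd h (by simp [e0x])
      · classical
        unfold nBx
        rw [if_neg]
        rintro ⟨_, h, _⟩
        exact absurd h (by simp [e0x])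
    · intro x hx hV
      exact Cel.vac hV hx.1 hx.2
  ok_symm := fun v x y h hy hx => Cel.okc_symm (h hx hy)
  ok_vac := fun v x y h1 h2 hx hy => by
    have h3 := Cel.vac hx h1 h2
    intro k hk
    omega
  ok_A := fun v x y h1 h2 hv hx hy => by
    refine C.okc_same (by have := C.ha; positivity) C.aR hv hx hy fun k hk l hl => ?_
    rw [(C.nAx_pos h1).2 k hk, (C.nAx_pos h2).2 l hl]
    simp [D2]
  ok_B := fun v x y h1 h2 hv hx hy => by
    refine C.okc_same (by have := C.hb; positivity) C.bR hv hx hy fun k hk l hl => ?_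
    rw [(C.nBx_pos h1).2.2 k hk, (C.nBx_pos h2).2.2 l hl]
    simp [D2]
  ok_AB := fun v x y h1 h2 hv hx hy => C.okc_far hv hx hy
  no_AB := fun v x y h1 h2 v1 hv1 v2 hv2 hv h => by
    have hx := (C.nAx_pos h1)
    have hy := (C.nBx_pos h2)
    have hx1 := Cel.nAx_pos' h1
    have h3 := h hx.1 hy.1 0 hx1 0 hy.2.1
    rw [hx.2 0 hx1, hy.2.2 0 hy.2.1, sq_eq_nr] at h3
    have h4 := near_of_SS C.hd C.hl C.h5 hv1 hv2 (show v - v1 - v2 ∈ Qb d 2 from hv)
      (hx.1.1 0 hx1) (hy.1.1 0 hy.2.1)
    have e : v1 + v2 + (v - v1 - v2) = v := by abel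
    rw [e] at h4
    have h5 := pow_lt_pow_left₀ h4 (nr_nonneg _) two_ne_zero
    have h6 : D2 a b R true false = R := by simp [D2]
    rw [h6] at h3
    linarith
  zero_SA := zero_mem_SS C.hd (by have := C.ha; positivity) C.hl r
  zero_SB := zero_mem_SS C.hd (by have := C.hb; positivity) C.hl r
  SA_neg := fun v hv => neg_mem_SS hv
  SB_neg := fun v hv => neg_mem_SS hv
  SA_r := fun v hv => (mem_SS.1 hv).1
  SB_r := fun v hv => (mem_SS.1 hv).1

end ModX

end Pool.Agent.Mix
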