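import Pool.Agent.Lib.MP_09cbbd_mx.ModX

/-!
# The mixture as a gas on cells: valid contents and the interaction of two cells
-/

set_option autoImplicit false

namespace Pool.Agent.Mix

open MeasureTheory Finset Filter Topology Pool.Agent.StableGas Pool.Agent.SquareWellGas
  Pool.Agent.SquareWell Pool.Agent.MixGas Pool.Agent.SquareWell.ModA Ct

namespace ModX

open Pool.Agent.ConfinedGas CanM

variable {d : ℕ}

/-! ### Euclidean norms -/

/-- Euclidean norm. -/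
noncomputable def nr (x : Fin d → ℝ) : ℝ := Real.sqrt (∑ k, x k ^ 2)

theorem nr_nonneg (x : Fin d → ℝ) : 0 ≤ nr x := Real.sqrt_nonneg _

theorem nr_sq (x : Fin d → ℝ) : nr x ^ 2 = ∑ k, x k ^ 2 :=
  Real.sq_sqrt (sum_nonneg fun _ _ => sq_nonneg _)

theorem nr_eq (x : Fin d → ℝ) : nr x = ‖(WithLp.toLp 2 x : EuclideanSpace ℝ (Fin d))‖ := by
  rw [EuclideanSpace.norm_eq]
  unfold nr
  congr 1
  refine sum_congr rfl fun k _ => ?_
  rw [Real.norm_eq_abs, sq_abs]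

theorem nr_add_le (x y : Fin d → ℝ) : nr (x + y) ≤ nr x + nr y := by
  rw [nr_eq, nr_eq, nr_eq, WithLp.toLp_add]
  exact norm_add_le _ _

theorem nr_neg (x : Fin d → ℝ) : nr (-x) = nr x := by
  unfold nr
  simp

theorem nr_smul {c : ℝ} (hc : 0 ≤ c) (x : Fin d → ℝ) : nr (c • x) = c * nr x := by
  unfold nr
  simp only [Pi.smul_apply, smul_eq_mul, mul_pow]
  rw [← mul_sum, Real.sqrt_mul (sq_nonneg c), Real.sqrt_sq hc]

theorem sq_eq_nr (x y : Fin d → ℝ) : ConfinedGas.sq x y = nr (x - y) ^ 2 := by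
  rw [nr_sq]
  rfl

theorem abs_le_nr (x : Fin d → ℝ) (k : Fin d) : |x k| ≤ nr x := by
  unfold nr
  rw [← Real.sqrt_sq_eq_abs]
  exact Real.sqrt_le_sqrt (single_le_sum (f := fun k => x k ^ 2) (fun _ _ => sq_nonneg _)
    (mem_univ k))

theorem nr_le {x : Fin d → ℝ} {c : ℝ} (hc : 0 ≤ c) (h : ∀ k, |x k| ≤ c) :
    nr x ≤ c * Real.sqrt d := by
  unfold nr
  refine Real.sqrt_le_iff.2 ⟨by positivity, ?_⟩
  rw [mul_pow, Real.sq_sqrt (Nat.cast_nonneg d)]
  calc ∑ k, x k ^ 2 ≤ ∑ _k : Fin d, c ^ 2 := sum_le_sum fun k _ => by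
        rw [← sq_abs]
        exact pow_le_pow_left₀ (abs_nonneg _) (h k) 2
    _ = c ^ 2 * d := by rw [sum_const, card_univ, Fintype.card_fin, nsmul_eq_mul, mul_comm]

theorem nr_lt (hd : 1 ≤ d) {x : Fin d → ℝ} {c : ℝ} (h : ∀ k, |x k| < c) :
    nr x < c * Real.sqrt d := by
  have hc : 0 < c := lt_of_le_of_lt (abs_nonneg _) (h ⟨0, by omega⟩)
  have hd' : (0 : ℝ) < d := by exact_mod_cast hd
  unfold nr
  rw [Real.sqrt_lt' (by positivity), mul_pow, Real.sq_sqrt (Nat.cast_nonneg d)]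
  calc ∑ k, x k ^ 2 < ∑ _k : Fin d, c ^ 2 := sum_lt_sum_of_nonempty ⟨⟨0, by omega⟩, mem_univ _⟩
        fun k _ => by
          rw [← sq_abs]
          exact pow_lt_pow_left₀ (h k) (abs_nonneg _) two_ne_zero
    _ = c ^ 2 * d := by rw [sum_const, card_univ, Fintype.card_fin, nsmul_eq_mul, mul_comm]

/-- Euclidean norm of a lattice vector. -/
noncomputable def nz (v : Zd d) : ℝ := nr fun k => (v k : ℝ)

theorem nz_neg (v : Zd d) : nz (-v) = nz v := by
  unfold nz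
  rw [← nr_neg]
  congr 1
  funext k
  simp

theorem nz_add_le (v w : Zd d) : nz (v + w) ≤ nz v + nz w := by
  unfold nz
  refine le_trans (le_of_eq ?_) (nr_add_le _ _)
  congr 1
  funext k
  simp

theorem nz_zero : nz (0 : Zd d) = 0 := by
  unfold nz nr
  simp

/-! ### Translations -/

/-- Translation of a position by the cell `i`. -/
def tr (l0 : ℝ) (i : Zd d) (x : Fin d → ℝ) : Fin d → ℝ := fun k => x k + l0 * i k

/-- Translation of a particle by the cell `i`. -/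
def t2 (l0 : ℝ) (i : Zd d) (p : X2 d) : X2 d := (p.1, tr l0 i p.2)

theorem mp_tr (l0 : ℝ) (i : Zd d) :
    MeasurePreserving (tr l0 i) (volume : Measure (Fin d → ℝ)) volume :=
  measurePreserving_add_right (volume : Measure (Fin d → ℝ)) (fun k => l0 * (i k : ℝ))

theorem mp_t2 (l0 : ℝ) (i : Zd d) : MeasurePreserving (t2 l0 i) (m2 d) (m2 d) :=
  (MeasurePreserving.id (Measure.count : Measure Bool)).prod (mp_tr l0 i)

theorem sq_tr (l0 : ℝ) (p i : Zd d) (x y : Fin d → ℝ) :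
    ConfinedGas.sq (tr l0 p x) (tr l0 i y) = ConfinedGas.sq x (tr l0 (i - p) y) := by
  unfold ConfinedGas.sq tr
  refine sum_congr rfl fun k _ => ?_
  simp only [Pi.sub_apply, Int.cast_sub]
  ring

/-- The pair gas. -/
noncomputable def sys (d : ℕ) (a b R y l0 : ℝ) : Sys d (X2 d) where
  m := m2 d
  ψ := psi2 a b R
  t := t2 l0
  f0 := ff2 1 (ENNReal.ofReal y) (Box d l0)
  x0 := (true, 0)
  sf := inferInstance
  hψ := measurable_psi2 a b R
  mp := mp_t2 l0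
  tt := fun i p => by
    unfold t2 tr
    ext k
    · rfl
    · simp
  t0 := fun p => by
    unfold t2 tr
    ext k
    · rfl
    · simp
  ψt := fun p i x y => by
    unfold psi2 t2
    rw [sq_tr]
  hf := measurable_ff2 _ _ (measurableSet_Box l0)

theorem nr_tr_le {l0 : ℝ} (hd : 1 ≤ d) (hl : 0 < l0) (v : Zd d) {x y : Fin d → ℝ}
    (hx : x ∈ Box d l0) (hy : y ∈ Box d l0) :
    nr (x - tr l0 v y) < l0 * nz v + l0 * Real.sqrt d := by
  have h1 : x - tr l0 v y = -(l0 • fun k => (v k : ℝ)) + (x - y) := by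
    funext k
    simp [tr]
    ring
  rw [h1]
  have h2 := nr_add_le (-(l0 • fun k => (v k : ℝ))) (x - y)
  rw [nr_neg, nr_smul hl.le] at h2
  have h3 : nr (x - y) < l0 * Real.sqrt d := nr_lt hd fun k => by
    rw [Pi.sub_apply, abs_lt]
    have := hx k
    have := hy k
    simp only [Set.mem_Ico] at *
    constructor <;> linarith
  have h4 : nr (fun k => (v k : ℝ)) = nz v := rfl
  rw [h4] at h2
  linarith

theorem le_nr_tr {l0 : ℝ} (hl : 0 < l0) (v : Zd d) {x y : Fin d → ℝ}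
    (hx : x ∈ Box d l0) (hy : y ∈ Box d l0) :
    l0 * nz v - l0 * Real.sqrt d ≤ nr (x - tr l0 v y) := by
  have h1 : l0 • (fun k => (v k : ℝ)) = (x - y) + -(x - tr l0 v y) := by
    funext k
    simp [tr]
  have h2 := nr_add_le (x - y) (-(x - tr l0 v y))
  rw [← h1, nr_neg, nr_smul hl.le] at h2
  have h3 : nr (x - y) ≤ l0 * Real.sqrt d := nr_le hl.le fun k => by
    rw [Pi.sub_apply, abs_le]
    have := hx k
    have := hy k
    simp only [Set.mem_Ico] at *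
    constructor <;> linarith
  have h4 : nr (fun k => (v k : ℝ)) = nz v := rfl
  rw [h4] at h2
  linarith

/-- The cube of side `2 m + 1`. -/
noncomputable def Qb (d m : ℕ) : Finset (Zd d) := Fintype.piFinset fun _ => Finset.Icc (-(m : ℤ)) m

theorem mem_Qb {m : ℕ} {v : Zd d} : v ∈ Qb d m ↔ ∀ k, |v k| ≤ m := by
  unfold Qb
  simp only [Fintype.mem_piFinset, Finset.mem_Icc, abs_le]

theorem far_of_Qb {l0 R : ℝ} (hl : 0 < l0) {r : ℕ} (hr : R ≤ l0 * r) {v : Zd d}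
    (hv : v ∉ Qb d r) {x y : Fin d → ℝ} (hx : x ∈ Box d l0) (hy : y ∈ Box d l0) :
    R ≤ nr (x - tr l0 v y) := by
  rw [mem_Qb] at hv
  push Not at hv
  obtain ⟨k, hk⟩ := hv
  refine le_trans ?_ (abs_le_nr _ k)
  have h1 : (x - tr l0 v y) k = (x k - y k) - l0 * v k := by
    simp [tr]
    ring
  rw [h1]
  have h2 : |x k - y k| ≤ l0 := by
    rw [abs_le]
    have := hx k
    have := hy k
    simp only [Set.mem_Ico] at *
    constructor <;> linarith
  have h3 : ((r : ℝ) + 1) ≤ |(v k : ℝ)| := by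
    have : (r : ℤ) + 1 ≤ |v k| := by omega
    have h4 : (((r : ℤ) + 1 : ℤ) : ℝ) ≤ ((|v k| : ℤ) : ℝ) := by exact_mod_cast this
    rw [Int.cast_abs] at h4
    push_cast at h4
    exact h4
  have h5 : l0 * |(v k : ℝ)| ≤ |(x k - y k) - l0 * v k| + |x k - y k| := by
    have h6 := abs_sub_abs_le_abs_sub (l0 * (v k : ℝ)) (x k - y k)
    rw [abs_mul, abs_of_pos hl, abs_sub_comm (l0 * (v k : ℝ)) (x k - y k)] at h6
    linarith
  have h7 : l0 * ((r : ℝ) + 1) ≤ l0 * |(v k : ℝ)| := mul_le_mul_of_nonneg_left h3 hl.le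
  linarith

/-- Ranges of the hard cores. -/
noncomputable def SS (d : ℕ) (D l0 : ℝ) (r : ℕ) : Finset (Zd d) := by
  classical exact (Qb d r).filter fun v => l0 * nz v < D + l0 * Real.sqrt d

theorem mem_SS {D l0 : ℝ} {r : ℕ} {v : Zd d} :
    v ∈ SS d D l0 r ↔ v ∈ Qb d r ∧ l0 * nz v < D + l0 * Real.sqrt d := by
  classical
  unfold SS
  rw [mem_filter]

theorem zero_mem_SS (hd : 1 ≤ d) {D l0 : ℝ} (hD : 0 ≤ D) (hl : 0 < l0) (r : ℕ) :
    (0 : Zd d) ∈ SS d D l0 r := by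
  have hd' : (0 : ℝ) < d := by exact_mod_cast hd
  rw [mem_SS, nz_zero, mul_zero]
  refine ⟨mem_Qb.2 fun k => by simp, ?_⟩
  have : 0 < Real.sqrt d := Real.sqrt_pos.2 hd'
  positivity

theorem neg_mem_SS {D l0 : ℝ} {r : ℕ} {v : Zd d} (h : v ∈ SS d D l0 r) :
    -v ∈ SS d D l0 r := by
  rw [mem_SS] at h ⊢
  rw [nz_neg]
  refine ⟨?_, h.2⟩
  rw [mem_Qb] at h ⊢
  intro k
  rw [Pi.neg_apply, abs_neg]
  exact h.1 k

theorem far_of_SS {D l0 R : ℝ} (hl : 0 < l0) {r : ℕ} (hr : R ≤ l0 * r) (hDR : D ≤ R)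
    {v : Zd d} (hv : v ∉ SS d D l0 r) {x y : Fin d → ℝ} (hx : x ∈ Box d l0)
    (hy : y ∈ Box d l0) : D ≤ nr (x - tr l0 v y) := by
  by_cases h : v ∈ Qb d r
  · have h1 : D + l0 * Real.sqrt d ≤ l0 * nz v := by
      by_contra hcon
      exact hv (mem_SS.2 ⟨h, not_le.1 hcon⟩)
    have h2 := le_nr_tr hl v hx hy
    linarith
  · exact hDR.trans (far_of_Qb hl hr h hx hy)

theorem near_of_SS {a b l0 R : ℝ} (hd : 1 ≤ d) (hl : 0 < l0) {r : ℕ}
    (h5 : 2 * a + 2 * b + 5 * (l0 * Real.sqrt d) ≤ R) {v1 v2 w : Zd d}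
    (h1 : v1 ∈ SS d (2 * a) l0 r) (h2 : v2 ∈ SS d (2 * b) l0 r) (hw : w ∈ Qb d 2)
    {x y : Fin d → ℝ} (hx : x ∈ Box d l0) (hy : y ∈ Box d l0) :
    nr (x - tr l0 (v1 + v2 + w) y) < R := by
  have h3 := nr_tr_le hd hl (v1 + v2 + w) hx hy
  have h4 := nz_add_le (v1 + v2) w
  have h6 := nz_add_le v1 v2
  have h7 : nz w ≤ 2 * Real.sqrt d := by
    unfold nz
    refine nr_le (by norm_num) fun k => ?_
    rw [mem_Qb] at hw
    have h8 : ((|w k| : ℤ) : ℝ) ≤ ((2 : ℕ) : ℤ) := by exact_mod_cast hw k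
    rw [Int.cast_abs] at h8
    simpa using h8
  rw [mem_SS] at h1 h2
  have h9 : l0 * nz (v1 + v2 + w) ≤ l0 * (nz v1 + nz v2 + 2 * Real.sqrt d) :=
    mul_le_mul_of_nonneg_left (by linarith) hl.le
  have h10 : l0 * (nz v1 + nz v2 + 2 * Real.sqrt d) =
      l0 * nz v1 + l0 * nz v2 + 2 * (l0 * Real.sqrt d) := by ring
  linarith [h1.2, h2.2]

end ModX

end Pool.Agent.Mix
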