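import Pool.Agent.Lib.MP_09cbbd_mx.ModG
import Pool.Agent.Lib.MP_09cbbd_mx.CanC

/-!
# The mixture as a pair gas of particles of two colours
-/

set_option autoImplicit false

namespace Pool.Agent.Mix

open MeasureTheory Finset Filter Topology Pool.Agent.StableGas Pool.Agent.SquareWellGas
  Pool.Agent.SquareWell Pool.Agent.MixGas Pool.Agent.SquareWell.ModA

/-- Particles: the colour (`true` for the first species) and the position. -/
abbrev X2 (d : ℕ) : Type := Bool × (Fin d → ℝ)

namespace ModX

open Pool.Agent.ConfinedGas CanM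

variable (d : ℕ)

/-- The one-particle measure. -/
noncomputable def m2 : Measure (X2 d) := (Measure.count : Measure Bool).prod volume

instance : SigmaFinite (m2 d) := by
  unfold m2
  infer_instance

variable {d}

/-- Diameters. -/
noncomputable def D2 (a b R : ℝ) (s t : Bool) : ℝ := if s = t then (if s then 2 * a else 2 * b) else R

/-- Pair factor. -/
noncomputable def psi2 (a b R : ℝ) (p q : X2 d) : ENNReal := by
  classical exact if ConfinedGas.sq p.2 q.2 < D2 a b R p.1 q.1 ^ 2 then 0 else 1

theorem measurable_psi2 (a b R : ℝ) :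
    Measurable fun q : X2 d × X2 d => psi2 a b R q.1 q.2 := by
  classical
  unfold psi2
  have h1 : Measurable fun q : X2 d × X2 d => ConfinedGas.sq q.1.2 q.2.2 := by
    have h2 : Measurable fun q : X2 d × X2 d => (q.1.2, q.2.2) :=
      (measurable_snd.comp measurable_fst).prodMk (measurable_snd.comp measurable_snd)
    exact (measurable_sq2 (d := d)).comp h2
  have h3 : Measurable fun q : X2 d × X2 d => D2 a b R q.1.1 q.2.1 ^ 2 := by
    have h4 : Measurable fun r : Bool × Bool => D2 a b R r.1 r.2 ^ 2 := measurable_of_finite _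
    have h5 : Measurable fun q : X2 d × X2 d => (q.1.1, q.2.1) :=
      (measurable_fst.comp measurable_fst).prodMk (measurable_fst.comp measurable_snd)
    exact h4.comp h5
  exact Measurable.ite (measurableSet_lt h1 h3) measurable_const measurable_const

theorem psi2_symm (a b R : ℝ) (p q : X2 d) : psi2 a b R p q = psi2 a b R q p := by
  unfold psi2
  have h1 : ConfinedGas.sq p.2 q.2 = ConfinedGas.sq q.2 p.2 := sq_comm _ _
  have h2 : D2 a b R p.1 q.1 = D2 a b R q.1 p.1 := by
    unfold D2
    rcases p.1 with _ | _ <;> rcases q.1 with _ | _ <;> simp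
  rw [h1, h2]

theorem psi2_zero_or_one (a b R : ℝ) (p q : X2 d) :
    psi2 a b R p q = 0 ∨ psi2 a b R p q = 1 := by
  unfold psi2
  split_ifs
  · exact Or.inl rfl
  · exact Or.inr rfl

theorem psi2_eq_one {a b R : ℝ} {p q : X2 d} :
    psi2 a b R p q = 1 ↔ D2 a b R p.1 q.1 ^ 2 ≤ ConfinedGas.sq p.2 q.2 := by
  unfold psi2
  split_ifs with h
  · simp [not_le.2 h]
  · simp [not_lt.1 h]

theorem psi2_ne_zero {a b R : ℝ} {p q : X2 d} :
    psi2 a b R p q ≠ 0 ↔ D2 a b R p.1 q.1 ^ 2 ≤ ConfinedGas.sq p.2 q.2 := by
  unfold psi2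
  split_ifs with h
  · simp [not_le.2 h]
  · simp [not_lt.1 h]

theorem restrict_m2 (s : Bool) : (m2 d).restrict {p | p.1 = s} = Measure.map (Prod.mk s) volume := by
  have e : {p : X2 d | p.1 = s} = ({s} : Set Bool) ×ˢ (Set.univ : Set (Fin d → ℝ)) := by
    ext p
    simp
  unfold m2
  rw [e, ← Measure.prod_restrict, Measure.restrict_univ, Measure.restrict_singleton,
    Measure.count_singleton, one_smul, Measure.dirac_prod]

/-- Integrals over particles of one colour. -/
theorem lint_emb (s : Bool) (k : ℕ) {F : (Fin k → X2 d) → ENNReal} (hF : Measurable F)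
    (h0 : ∀ u, F u ≠ 0 → ∀ i, (u i).1 = s) :
    ∫⁻ u, F u ∂(Measure.pi fun _ => m2 d) = ∫⁻ x : Fin k → Fin d → ℝ, F (fun i => (s, x i)) := by
  classical
  obtain ⟨T, hT⟩ : ∃ T : Set (X2 d), T = {p | p.1 = s} := ⟨_, rfl⟩
  have mT : MeasurableSet T := by
    rw [hT]
    exact measurable_fst (measurableSet_singleton s)
  have e1 : ∀ u, F u = (Set.pi Set.univ fun _ : Fin k => T).indicator F u := by
    intro u
    by_cases hu : u ∈ Set.pi Set.univ fun _ : Fin k => T
    · rw [Set.indicator_of_mem hu]
    · rw [Set.indicator_of_notMem hu]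
      by_contra hne
      apply hu
      intro i _
      rw [hT]
      exact h0 u hne i
  have mP : MeasurableSet (Set.pi Set.univ fun _ : Fin k => T) :=
    MeasurableSet.univ_pi fun _ => mT
  have e2 : (m2 d).restrict T = Measure.map (Prod.mk s) volume := by
    rw [hT]
    exact restrict_m2 s
  have hsf : SigmaFinite (Measure.map (Prod.mk s) (volume : Measure (Fin d → ℝ))) := by
    rw [← e2]
    infer_instance
  rw [lintegral_congr e1, lintegral_indicator mP, Measure.restrict_pi_pi]
  simp only [e2]
  rw [← Measure.pi_map_pi (μ := fun _ : Fin k => (volume : Measure (Fin d → ℝ)))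
    (f := fun _ : Fin k => Prod.mk s) fun _ => measurable_prodMk_left.aemeasurable]
  rw [lintegral_map hF]
  · rfl
  · exact measurable_pi_iff.2 fun i => measurable_prodMk_left.comp (measurable_pi_apply i)

/-- Weight of the particles of the first species. -/
theorem Gw_A {a b R : ℝ} (c : ENNReal) (A : Set (Fin d → ℝ)) {k : ℕ} (x : Fin k → Fin d → ℝ)
    (f : X2 d → ENNReal) (hf : ∀ y, f (true, y) = c * A.indicator 1 y) :
    Gw (psi2 a b R) f (fun i => (true, x i)) =
      c ^ k * (Cf (2 * a) (Fin k) A).indicator 1 x := by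
  classical
  unfold Gw Pr
  simp only [hf]
  rw [prod_mul_distrib, prod_const, card_univ, Fintype.card_fin, mul_assoc]
  congr 1
  by_cases hx : x ∈ Cf (2 * a) (Fin k) A
  · rw [Set.indicator_of_mem hx]
    rw [prod_eq_one fun i _ => ?_, prod_eq_one fun i _ => prod_eq_one fun j _ => ?_]
    · simp
    · by_cases h : i = j
      · rw [if_pos h]
      · rw [if_neg h, psi2_eq_one]
        simp only [D2, if_true]
        exact hx.2 i j h
    · rw [Set.indicator_of_mem (hx.1 i)]
      rfl
  · rw [Set.indicator_of_notMem hx]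
    by_contra hne
    apply hx
    have h1 : (∏ i, A.indicator (1 : (Fin d → ℝ) → ENNReal) (x i)) ≠ 0 := left_ne_zero_of_mul hne
    have h2 := right_ne_zero_of_mul hne
    rw [prod_ne_zero_iff] at h1 h2
    refine ⟨fun i => ?_, fun i j hij => ?_⟩
    · by_contra hcon
      exact h1 i (mem_univ i) (Set.indicator_of_notMem hcon _)
    · have h3 := h2 i (mem_univ i)
      rw [prod_ne_zero_iff] at h3
      have h4 := h3 j (mem_univ j)
      rw [if_neg hij, psi2_ne_zero] at h4
      simpa only [D2, if_true] using h4

/-- Weight of the particles of the second species. -/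
theorem Gw_B {a b R : ℝ} (c : ENNReal) (A : Set (Fin d → ℝ)) {k : ℕ} (x : Fin k → Fin d → ℝ)
    (f : X2 d → ENNReal) (hf : ∀ y, f (false, y) = c * A.indicator 1 y) :
    Gw (psi2 a b R) f (fun i => (false, x i)) =
      c ^ k * (Cf (2 * b) (Fin k) A).indicator 1 x := by
  classical
  unfold Gw Pr
  simp only [hf]
  rw [prod_mul_distrib, prod_const, card_univ, Fintype.card_fin, mul_assoc]
  congr 1
  by_cases hx : x ∈ Cf (2 * b) (Fin k) A
  · rw [Set.indicator_of_mem hx]
    rw [prod_eq_one fun i _ => ?_, prod_eq_one fun i _ => prod_eq_one fun j _ => ?_]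
    · simp
    · by_cases h : i = j
      · rw [if_pos h]
      · rw [if_neg h, psi2_eq_one]
        simp only [D2, if_true, Bool.false_eq_true, if_false]
        exact hx.2 i j h
    · rw [Set.indicator_of_mem (hx.1 i)]
      rfl
  · rw [Set.indicator_of_notMem hx]
    by_contra hne
    apply hx
    have h1 : (∏ i, A.indicator (1 : (Fin d → ℝ) → ENNReal) (x i)) ≠ 0 := left_ne_zero_of_mul hne
    have h2 := right_ne_zero_of_mul hne
    rw [prod_ne_zero_iff] at h1 h2
    refine ⟨fun i => ?_, fun i j hij => ?_⟩
    · by_contra hcon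
      exact h1 i (mem_univ i) (Set.indicator_of_notMem hcon _)
    · have h3 := h2 i (mem_univ i)
      rw [prod_ne_zero_iff] at h3
      have h4 := h3 j (mem_univ j)
      rw [if_neg hij, psi2_ne_zero] at h4
      simpa only [D2, if_true, Bool.false_eq_true, if_false] using h4

/-- Factor of a particle of the second species in the presence of the first one. -/
theorem Pu_AB {a b R : ℝ} {k : ℕ} (x : Fin k → Fin d → ℝ) (y : Fin d → ℝ) :
    Pu (psi2 a b R) (fun i => ((true, x i) : X2 d)) (false, y) = (FarS R x).indicator 1 y := by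
  classical
  unfold Pu
  by_cases hy : y ∈ FarS R x
  · rw [Set.indicator_of_mem hy]
    refine prod_eq_one fun i _ => ?_
    have h1 : psi2 a b R ((true, x i) : X2 d) (false, y) = 1 := by
      rw [psi2_eq_one]
      simp only [D2, Bool.true_eq_false, if_false]
      exact hy i
    rw [← psi2_symm a b R (true, x i), h1, mul_one]
  · rw [Set.indicator_of_notMem hy]
    simp only [FarS, Set.mem_ofPred_eq, not_forall, not_le] at hy
    obtain ⟨i, hi⟩ := hy
    refine prod_eq_zero (mem_univ i) ?_
    have h1 : psi2 a b R ((true, x i) : X2 d) (false, y) = 0 := by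
      by_contra hne
      rw [← ne_eq, psi2_ne_zero] at hne
      simp only [D2, Bool.true_eq_false, if_false] at hne
      linarith
    rw [h1, zero_mul]

/-- The one-particle factor of a region. -/
noncomputable def ff2 (c1 c2 : ENNReal) (A : Set (Fin d → ℝ)) (p : X2 d) : ENNReal :=
  (if p.1 then c1 else c2) * A.indicator 1 p.2

theorem measurable_ff2 (c1 c2 : ENNReal) {A : Set (Fin d → ℝ)} (hA : MeasurableSet A) :
    Measurable (ff2 c1 c2 A) := by
  unfold ff2
  have h1 : Measurable fun s : Bool => if s then c1 else c2 := measurable_of_finite _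
  exact (h1.comp measurable_fst).mul ((measurable_one.indicator hA).comp measurable_snd)

theorem measurable_Pu1 (a b R : ℝ) {k : ℕ} (u : Fin k → X2 d) :
    Measurable fun y : X2 d => Pu (psi2 a b R) u y := by
  have h1 : Measurable fun y : X2 d => (u, y) := measurable_const.prodMk measurable_id
  have h2 := Measurable.comp (measurable_Pu2 (ι := Fin k) (measurable_psi2 (d := d) a b R)) h1
  exact h2

/-- The two species. -/
theorem Xg_two (a b R : ℝ) (c1 c2 : ENNReal) {A : Set (Fin d → ℝ)} (hA : MeasurableSet A) :
    Xg (m2 d) (psi2 a b R) (ff2 c1 c2 A) =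
      ∑' N : ℕ, c1 ^ N * ((N.factorial : ENNReal))⁻¹ * WM a b R c2 (Fin N) A := by
  classical
  have hψ := measurable_psi2 (d := d) a b R
  have e1 : ff2 c1 c2 A = fun p => ff2 c1 0 A p + ff2 0 c2 A p := by
    funext p
    unfold ff2
    rcases p.1 with _ | _ <;> simp
  have mA := measurable_ff2 c1 0 hA
  have mB := measurable_ff2 0 c2 hA
  rw [e1, Xg_add (m2 d) hψ mA mB]
  refine tsum_congr fun k => ?_
  have m0 : Measurable fun q : (Fin k → X2 d) × X2 d =>
      (fun (u : Fin k → X2 d) y => ff2 0 c2 A y * Pu (psi2 a b R) u y) q.1 q.2 :=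
    (mB.comp measurable_snd).mul (measurable_Pu2 hψ)
  have m1 : Measurable fun u : Fin k → X2 d => Gw (psi2 a b R) (ff2 c1 0 A) u *
      Xg (m2 d) (psi2 a b R) (fun y => ff2 0 c2 A y * Pu (psi2 a b R) u y) :=
    (measurable_Gw hψ mA).mul (measurable_Xg (m2 d) hψ m0)
  rw [lint_emb true k m1 (fun u hu i => ?_)]
  · have e2 : ∀ x : Fin k → Fin d → ℝ, Gw (psi2 a b R) (ff2 c1 0 A) (fun i => (true, x i)) *
        Xg (m2 d) (psi2 a b R) (fun y => ff2 0 c2 A y * Pu (psi2 a b R)
          (fun i => ((true, x i) : X2 d)) y) =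
        c1 ^ k * (Cf (2 * a) (Fin k) A).indicator (wB b R c2 A) x := by
      intro x
      rw [Gw_A c1 A x _ (fun y => by simp [ff2])]
      by_cases hx : x ∈ Cf (2 * a) (Fin k) A
      · rw [Set.indicator_of_mem hx, Set.indicator_of_mem hx, Pi.one_apply, mul_one]
        congr 1
        unfold Xg wB Xi
        refine tsum_congr fun l => ?_
        have m3 : Measurable fun y : X2 d => ff2 0 c2 A y * Pu (psi2 a b R)
            (fun i => ((true, x i) : X2 d)) y := mB.mul (measurable_Pu1 a b R _)
        rw [lint_emb false l (measurable_Gw hψ m3) (fun u hu i => ?_)]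
        · have e3 : ∀ v : Fin l → Fin d → ℝ, Gw (psi2 a b R) (fun y : X2 d => ff2 0 c2 A y *
              Pu (psi2 a b R) (fun i => ((true, x i) : X2 d)) y) (fun i => (false, v i)) =
              c2 ^ l * (Cf (2 * b) (Fin l) (A ∩ FarS R x)).indicator 1 v := by
            intro v
            refine Gw_B c2 (A ∩ FarS R x) v _ fun y => ?_
            rw [Pu_AB]
            unfold ff2
            simp only [Bool.false_eq_true, if_false]
            rw [mul_assoc]
            congr 1
            by_cases h1 : y ∈ A <;> by_cases h2 : y ∈ FarS R x <;> simp [h1, h2]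
          have hm := measurableSet_Cf (2 * b) (Fin l) (hA.inter (measurableSet_FarS R x))
          rw [lintegral_congr e3, lintegral_const_mul _ (measurable_one.indicator hm),
            lintegral_indicator_one hm]
          unfold mC
          rw [← volume_pi]
          ring
        · by_contra hcon
          apply hu
          unfold Gw
          refine mul_eq_zero_of_left (prod_eq_zero (mem_univ i) ?_) _
          have : (u i).1 = true := by
            rcases h : (u i).1 with _ | _
            · exact absurd h hcon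
            · rfl
          unfold ff2
          simp [this]
      · rw [Set.indicator_of_notMem hx, Set.indicator_of_notMem hx]
        simp
    rw [lintegral_congr e2, lintegral_const_mul _ ((measurable_wB hA).indicator
      (measurableSet_Cf (2 * a) _ hA)), lintegral_indicator (measurableSet_Cf (2 * a) _ hA)]
    unfold WM
    ring
  · by_contra hcon
    apply hu
    unfold Gw
    refine mul_eq_zero_of_left (mul_eq_zero_of_left (prod_eq_zero (mem_univ i) ?_) _) _
    have : (u i).1 = false := by
      rcases h : (u i).1 with _ | _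
      · rfl
      · exact absurd h hcon
    unfold ff2
    rw [this]
    simp

/-- The grand-canonical partition function of a box. -/
theorem Z_sum {a b R y : ℝ} (hy : 0 ≤ y) (s μ : ℝ) :
    ∑' n : ℕ, ex (μ * n) * ENNReal.ofReal (Z d a b R y s n) =
      Xg (m2 d) (psi2 a b R) (ff2 (ex μ) (ENNReal.ofReal y) (Box d s)) := by
  rw [Xg_two a b R _ _ (measurableSet_Box s)]
  refine tsum_congr fun n => ?_
  rw [Z_eq hy]
  unfold zm
  have hne := WM_ne_top (a := a) (b := b) (R := R) (ι := Fin n) (z := ENNReal.ofReal y)
    ENNReal.ofReal_ne_top (volume_Box_ne (d := d) s)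
  rw [ENNReal.ofReal_mul (by positivity), ENNReal.ofReal_inv_of_pos (by positivity),
    ENNReal.ofReal_natCast, ENNReal.ofReal_toReal hne, ex_pow, mul_comm μ]
  ring

end ModX

end Pool.Agent.Mix
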